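import Pool.Agent.SP.Defs

/-!
The scheme of the theorem on short relations with general weights and layered Gaussians.
-/

set_option autoImplicit false

namespace Pool.Agent.SPG

open Finset
open scoped ENNReal
open Pool.Agent.Helper36.LL (conv dlt FF gw tern)
open Pool.Agent.SP (VV sg kap PD GI Ext Fin0 thg yb St SS)

variable {G : Type*} [AddCommGroup G]

/-- The weight of the pressure. -/
noncomputable def wq (a : ℕ) : ℝ≥0∞ := (2 ^ a)⁻¹

/-- The weight of the buffer. -/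
noncomputable def wb (a : ℕ) : ℝ≥0∞ := (2 ^ (a + 1))⁻¹

/-- The weight of the palette. -/
noncomputable def wp (a : ℕ) : ℝ≥0∞ := (2 ^ (a + 4))⁻¹

/-- The bases of the layers. -/
noncomputable def xl (k s : ℕ) : ℝ≥0∞ := ENNReal.ofReal (1 - 1 / 2 ^ (20 * k + 2 * s))

variable [DecidableEq G]

/-- The gas with palette `P` over `U`. -/
noncomputable def MQ (a : ℕ) (P : Finset G) (U : G → ℝ≥0∞) : G → ℝ≥0∞ :=
  FF (fun _ => tern (wp a)) P U

/-- The hypotheses on one level: palette `P`, Gaussian part `E`, everything else `U`. -/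
structure Lev (a k : ℕ) (P : Finset G) (E U : G → ℝ≥0∞) : Prop where
  gi : GI E
  epd : PD E
  e0 : Fin0 E
  ext : Ext E U
  pd : PD U
  u0 : Fin0 U
  light : ∀ F ⊆ P, F.Nonempty → F.card ≤ 2 ^ k →
    FF (fun _ => tern (wb a)) F (MQ a (P \ F) U) 0 ≤
      ENNReal.ofReal (Real.exp (F.card / 2 ^ (20 * k))) * MQ a P U 0
  shut : ∀ x, kap (MQ a P U) x ≤ 1 / (2 ^ 28 * (k : ℝ) ^ 3) →
    Real.exp (-(1 / (100 * (k : ℝ)))) * (E 0).toReal ≤ (E x).toReal

/-- Layers of Gaussian digits: layer `s` sits on `W (i + 2 + s)`. -/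
noncomputable def LL (k : ℕ) (W : ℕ → Finset G) (i : ℕ) (B : G → ℝ≥0∞) : ℕ → G → ℝ≥0∞
  | 0 => B
  | (n + 1) => FF (fun _ => gw (xl k n)) (W (i + 2 + n)) (LL k W i B n)

/-- The Gaussian part of a level. -/
noncomputable def EE (k N : ℕ) (S : St G) (i : ℕ) : G → ℝ≥0∞ :=
  LL k S.W i (VV (yb k) (S.l i)) N

/-- Everything except the palette. -/
noncomputable def UU (a k N : ℕ) (S : St G) (i : ℕ) : G → ℝ≥0∞ :=
  FF (fun _ => tern (wb a)) (S.P (i + 1)) (EE k N S i)

/-- The gas of a level. -/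
noncomputable def MM (a k N : ℕ) (S : St G) (i : ℕ) : G → ℝ≥0∞ := MQ a (S.P i) (UU a k N S i)

/-- Ternary pressure at weight `2 ^ (-a)`. -/
def Press (a k : ℕ) (V : Finset G) : Prop := ∀ Y ⊆ V,
  FF (fun _ => tern (wq a)) Y dlt 0 ≤ ENNReal.ofReal (Real.exp (Y.card / 2 ^ (60 * k)))

/-- The cost of the layers. -/
noncomputable def cst (k N : ℕ) (S : St G) (i : ℕ) : ℝ :=
  ∑ s ∈ range N, (15 * (k : ℝ) + 2 * s) * (S.W (i + 2 + s)).card

/-- The invariants of the closure process. -/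
structure Inv (a k N : ℕ) (V : Finset G) (S : St G) : Prop where
  w0 : S.W 0 = V
  anti : Antitone S.W
  fin : ∃ m, S.W m = ∅
  invX : ∀ i, (S.l i).length * (Real.log (thg (yb k)).toReal - 600 / (2 ^ 28 * (k : ℝ) ^ 2)) +
    (S.W (i + 1)).card / 2 ^ (20 * k) ≤ Real.log (MM a k N S i 0).toReal
  invB : ∀ i, (S.l i).length * (1 / (2400 * (k : ℝ))) - cst k N S i ≤
    Real.log (MM a k N S i 0).toReal - Real.log (EE k N S i 0).toReal

/-- The constant of the own size thresholds. -/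
noncomputable def cfa (a : ℕ) : ℝ := 1 / (2 ^ 37 * ((a : ℝ) + 4) ^ 3)

/-- The index of the level of `v`. -/
noncomputable def lvl (W : ℕ → Finset G) (v : G) : ℕ := sInf {i | v ∉ W (i + 1)}

/-- The base at distance `s`. -/
noncomputable def xd (k s : ℕ) : ℝ := 1 - 1 / 2 ^ (20 * k + 2 * (s - 2))

end Pool.Agent.SPG
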