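import Pool.Agent.SPG.Wts
import Pool.Agent.SP.Moves

/-!
The moves of the closure process preserve the invariants (general weights, layers).
-/

set_option autoImplicit false

namespace Pool.Agent.SPG

open Finset
open scoped ENNReal
open Pool.Agent.Helper36.LL (conv dlt FF gw tern)
open Pool.Agent.SP (VV sg kap PD GI Ext Fin0 thg yb St SS virt_up virt_down yb_lt thg_ne_top
  one_le_thg)
open Pool.Agent.SP.Mv (FF_union FF_comm FF_mono log_mono FF_gw_le)

variable {G : Type*} [AddCommGroup G] [DecidableEq G]

omit [AddCommGroup G] [DecidableEq G] in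
theorem cst_congr {k N : ℕ} {S T : St G} {i : ℕ} (h : ∀ s < N, T.W (i + 2 + s) = S.W (i + 2 + s)) :
    cst k N T i = cst k N S i := by
  unfold cst
  refine Finset.sum_congr rfl fun s hs => ?_
  rw [h s (Finset.mem_range.1 hs)]

omit [AddCommGroup G] [DecidableEq G] in
/-- One layer gets more elements. -/
theorem cst_insert {k N : ℕ} {S T : St G} {i s : ℕ} (hs : s < N)
    (h : ∀ t < N, t ≠ s → T.W (i + 2 + t) = S.W (i + 2 + t)) {n : ℕ}
    (hc : (T.W (i + 2 + s)).card = (S.W (i + 2 + s)).card + n) :
    cst k N T i = cst k N S i + (15 * (k : ℝ) + 2 * s) * n := by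
  unfold cst
  have e : ∀ t ∈ range N, (15 * (k : ℝ) + 2 * t) * ((T.W (i + 2 + t)).card : ℝ) =
      (15 * (k : ℝ) + 2 * t) * ((S.W (i + 2 + t)).card : ℝ) +
        if t = s then (15 * (k : ℝ) + 2 * s) * n else 0 := by
    intro t ht
    split_ifs with h1
    · subst h1
      rw [hc]
      push_cast
      ring
    · rw [h t (Finset.mem_range.1 ht) h1, add_zero]
  rw [Finset.sum_congr rfl e, Finset.sum_add_distrib, Finset.sum_ite_eq' (range N) s,
    if_pos (Finset.mem_range.2 hs)]

omit [DecidableEq G] in
theorem LL_empty (k : ℕ) {W : ℕ → Finset G} {i : ℕ} (h : ∀ s, W (i + 2 + s) = ∅) (B : G → ℝ≥0∞)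
    (n : ℕ) : LL k W i B n = B := by
  induction n with
  | zero => rfl
  | succ n ih =>
    show FF (fun _ => gw (xl k n)) (W (i + 2 + n)) (LL k W i B n) = B
    rw [h n, ih]
    simp

theorem inv_init {a k : ℕ} (ha : 2 ≤ a) (hk : 1 ≤ k) (N : ℕ) (V : Finset G) :
    Inv a k N V ⟨fun i => if i = 0 then V else ∅, fun _ => []⟩ := by
  set S : St G := ⟨fun i => if i = 0 then V else ∅, fun _ => []⟩ with hS
  have hW : ∀ j, S.W (j + 1) = ∅ := fun j => by simp [hS]
  have hE : ∀ i, EE k N S i = dlt := by
    intro i
    unfold EE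
    rw [LL_empty k (fun s => by
      have : i + 2 + s = (i + 1 + s) + 1 := by omega
      rw [this]; exact hW _)]
    have h2 : S.l i = [] := rfl
    rw [h2]
    simp [VV]
  have hU : ∀ i, UU a k N S i = dlt := by
    intro i
    unfold UU St.P
    rw [hW i, hE]
    simp
  have hM : ∀ i, 0 ≤ Real.log (MM a k N S i 0).toReal := by
    intro i
    have h1 : 1 ≤ MM a k N S i 0 := by
      unfold MM MQ
      rw [hU]
      exact Helper36.LL.F_zero_ge (fun b _ => by simp)
    have h2 : MM a k N S i 0 ≠ ⊤ := (MM_Fin0 ha hk N S i).2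
    apply Real.log_nonneg
    have := ENNReal.toReal_mono h2 h1
    simpa using this
  have hcst : ∀ i, cst k N S i = 0 := by
    intro i
    unfold cst
    refine Finset.sum_eq_zero fun s _ => ?_
    have : i + 2 + s = (i + 1 + s) + 1 := by omega
    rw [this, hW]
    simp
  refine ⟨by simp [hS], ?_, ⟨1, by simp [hS]⟩, ?_, ?_⟩
  · apply antitone_nat_of_succ_le
    intro n
    simp [hS]
  · intro i
    have h2 : (S.l i).length = 0 := rfl
    rw [hW i, h2]
    simpa using hM i
  · intro i
    have h2 : (S.l i).length = 0 := rfl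
    rw [h2, hE, hcst]
    have : (dlt (0 : G) : ℝ≥0∞) = 1 := by simp [dlt]
    rw [this]
    simpa using hM i

theorem move_a {a k : ℕ} (ha : 2 ≤ a) (hk : 100 ≤ k) {N : ℕ} {V : Finset G} {S : St G}
    (h : Inv a k N V S) (i : ℕ) {x : G}
    (hx : kap (MM a k N S i) x ≤ 1 / (2 ^ 28 * (k : ℝ) ^ 3))
    (hb : (EE k N S i x).toReal <
      Real.exp (-(1 / (100 * (k : ℝ)))) * (EE k N S i 0).toReal) :
    Inv a k N V ⟨S.W, Function.update S.l i (x :: S.l i)⟩ := by
  have hk1 : 1 ≤ k := by omega
  have hkR : (100 : ℝ) ≤ k := by exact_mod_cast hk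
  have hk0 : (0 : ℝ) < k := by linarith
  set T : St G := ⟨S.W, Function.update S.l i (x :: S.l i)⟩ with hT
  have hli : T.l i = x :: S.l i := Function.update_self ..
  have hlj : ∀ j, j ≠ i → T.l j = S.l j := fun j hj => Function.update_of_ne hj _ _
  have hEi : EE k N T i = conv (gw (yb k)) x (EE k N S i) := by
    unfold EE
    rw [hli]
    change LL k S.W i (conv (gw (yb k)) x (VV (yb k) (S.l i))) N = _
    rw [LL_conv]
  have hUi : UU a k N T i = conv (gw (yb k)) x (UU a k N S i) := by
    unfold UU
    rw [hEi, Helper36.LL.FF_conv]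
    rfl
  have hMi : MM a k N T i = conv (gw (yb k)) x (MM a k N S i) := by
    unfold MM MQ
    rw [hUi, Helper36.LL.FF_conv]
    rfl
  have hEj : ∀ j, j ≠ i → EE k N T j = EE k N S j := by
    intro j hj
    unfold EE
    rw [hlj j hj]
  have hUj : ∀ j, j ≠ i → UU a k N T j = UU a k N S j := by
    intro j hj
    unfold UU
    rw [hEj j hj]
    rfl
  have hMj : ∀ j, j ≠ i → MM a k N T j = MM a k N S j := by
    intro j hj
    unfold MM
    rw [hUj j hj]
    rfl
  have hcst : ∀ j, cst k N T j = cst k N S j := fun j => cst_congr (fun _ _ => rfl)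
  -- numbers
  set z : ℝ := 1 / (100 * (k : ℝ)) with hz
  have hz0 : 0 < z := by positivity
  have hz4 : z ≤ 1 / 10000 := by
    rw [hz]
    apply one_div_le_one_div_of_le (by norm_num)
    linarith
  set e : ℝ := 600 / (2 ^ 28 * (k : ℝ) ^ 2) with he
  have hs6 : 6 * (1 / (2 ^ 28 * (k : ℝ) ^ 3)) / z = e := by
    rw [hz, he]
    field_simp
    norm_num
  have he1 : e ≤ z / 100000 := by
    rw [he, hz, div_div, div_le_div_iff₀ (by positivity) (by positivity)]
    have : (k : ℝ) ≤ k ^ 2 / 100 := by
      rw [sq, le_div_iff₀ (by norm_num)]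
      nlinarith
    nlinarith
  have h6 : 6 * (1 / (2 ^ 28 * (k : ℝ) ^ 3)) ≤ z := by
    have h1 : 6 * (1 / (2 ^ 28 * (k : ℝ) ^ 3)) = e * z := by
      rw [← hs6]; field_simp
    rw [h1]
    nlinarith
  have hyb : yb k = ENNReal.ofReal (Real.exp (-z)) := rfl
  -- the two estimates
  have hM := MM_Fin0 ha hk1 N S i
  have hE := EE_Fin0 hk1 N S i
  have hM' := MM_Fin0 ha hk1 N T i
  have hE' := EE_Fin0 hk1 N T i
  have hM0 : 0 < (MM a k N S i 0).toReal := ENNReal.toReal_pos hM.1 hM.2
  have hE0 : 0 < (EE k N S i 0).toReal := ENNReal.toReal_pos hE.1 hE.2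
  have hM0' : 0 < (MM a k N T i 0).toReal := ENNReal.toReal_pos hM'.1 hM'.2
  have hE0' : 0 < (EE k N T i 0).toReal := ENNReal.toReal_pos hE'.1 hE'.2
  have hth : 1 ≤ (thg (yb k)).toReal := by
    have := ENNReal.toReal_mono (thg_ne_top (yb_lt hk1)) (one_le_thg (yb k))
    simpa using this
  have hth0 : 0 < (thg (yb k)).toReal := by linarith
  have up := virt_up (MM_PD ha hk1 N S i) hM hz0 (by linarith) hx h6
  rw [hs6, ← hyb, ← hMi] at up
  have down := virt_down (EE_PD hk1 N S i) hE hz0 (by linarith) x
  rw [← hyb, ← hEi] at down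
  have up' : Real.log (MM a k N S i 0).toReal + Real.log (thg (yb k)).toReal - e
      ≤ Real.log (MM a k N T i 0).toReal := by
    have h1 := Real.log_le_log (by positivity) up
    rw [Real.log_mul (by positivity) (by positivity), Real.log_mul (by positivity)
      (by positivity), Real.log_exp] at h1
    linarith
  have hkap : 995 / 1000 * z ≤ kap (EE k N S i) x := by
    unfold kap
    have h1 : (EE k N S i x).toReal / (EE k N S i 0).toReal ≤ Real.exp (-z) := by
      rw [div_le_iff₀ hE0]
      exact hb.le
    have h2 : Real.exp (-z) ≤ 1 - 995 / 1000 * z := by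
      have h3 : Real.exp (-z) ≤ 1 / (1 + z) := by
        rw [Real.exp_neg, ← one_div]
        apply one_div_le_one_div_of_le (by linarith)
        have := Real.add_one_le_exp z
        linarith
      refine h3.trans ?_
      rw [div_le_iff₀ (by linarith)]
      nlinarith
    linarith
  have down' : Real.log (EE k N T i 0).toReal
      ≤ Real.log (EE k N S i 0).toReal + Real.log (thg (yb k)).toReal -
        kap (EE k N S i) x / 6 := by
    have h1 := Real.log_le_log hE0' down
    rw [Real.log_mul (by positivity) (by positivity), Real.log_mul (by positivity)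
      (by positivity), Real.log_exp] at h1
    linarith
  refine ⟨h.w0, h.anti, h.fin, ?_, ?_⟩
  · intro j
    by_cases hj : j = i
    · subst hj
      have h1 := h.invX j
      change ((T.l j).length : ℝ) * _ + ((S.W (j + 1)).card : ℝ) / _ ≤ _
      rw [hli, List.length_cons]
      push_cast
      linarith
    · rw [hMj j hj, hlj j hj]
      exact h.invX j
  · intro j
    rw [hcst j]
    by_cases hj : j = i
    · subst hj
      have h1 := h.invB j
      rw [hli, List.length_cons]
      have h2 : 1 / (2400 * (k : ℝ)) = z / 24 := by rw [hz]; field_simp; norm_num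
      rw [h2] at h1 ⊢
      push_cast
      linarith
    · rw [hMj j hj, hEj j hj, hlj j hj]
      exact h.invB j

theorem move_b {a k : ℕ} (ha : 2 ≤ a) (hk : 100 ≤ k) {N : ℕ} (hN : 0 < N) {V : Finset G}
    {S : St G} (h : Inv a k N V S) (i : ℕ) {F : Finset G} (hF : F ⊆ S.P i)
    (hb : ENNReal.ofReal (Real.exp (F.card / 2 ^ (20 * k))) * MQ a (S.P i) (UU a k N S i) 0 <
      FF (fun _ => tern (wb a)) F (MQ a (S.P i \ F) (UU a k N S i)) 0) :
    Inv a k N V ⟨Function.update S.W (i + 1) (S.W (i + 1) ∪ F), S.l⟩ := by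
  have hk1 : 1 ≤ k := by omega
  set T : St G := ⟨Function.update S.W (i + 1) (S.W (i + 1) ∪ F), S.l⟩ with hT
  have hWi : T.W (i + 1) = S.W (i + 1) ∪ F := Function.update_self ..
  have hWj : ∀ j, j ≠ i + 1 → T.W j = S.W j := fun j hj => Function.update_of_ne hj _ _
  have hPF : F ⊆ S.W i := hF.trans Finset.sdiff_subset
  have hd1 : Disjoint F (S.W (i + 1)) := by
    have : Disjoint (S.P i) (S.W (i + 1)) := Finset.sdiff_disjoint
    exact this.mono_left hF
  have hsub : S.W (i + 2) ⊆ S.W (i + 1) := h.anti (by omega)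
  have hd2 : Disjoint F (S.W (i + 2)) := hd1.mono_right hsub
  have hcard : (T.W (i + 1)).card = (S.W (i + 1)).card + F.card := by
    rw [hWi, Finset.card_union_of_disjoint hd1.symm]
  -- palettes
  have hPi : T.P i = S.P i \ F := by
    unfold St.P
    rw [hWi, hWj i (by omega)]
    ext v
    simp only [Finset.mem_sdiff, Finset.mem_union]
    tauto
  have hPi1 : T.P (i + 1) = F ∪ S.P (i + 1) := by
    unfold St.P
    rw [hWi, hWj (i + 1 + 1) (by omega)]
    ext v
    have hv : v ∈ F → v ∉ S.W (i + 1 + 1) := fun h1 h2 => (Finset.disjoint_left.1 hd2) h1 h2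
    simp only [Finset.mem_sdiff, Finset.mem_union]
    tauto
  have hPj : ∀ j, j ≠ i → j ≠ i + 1 → T.P j = S.P j := by
    intro j h1 h2
    unfold St.P
    rw [hWj j h2, hWj (j + 1) (by omega)]
  -- Gaussian parts
  have hEj : ∀ j, (∀ s < N, j + 1 + s ≠ i) → EE k N T j = EE k N S j := by
    intro j h1
    unfold EE
    exact LL_congr k j _ N (fun s hs => hWj _ (by have := h1 s hs; omega))
  have hcj : ∀ j, (∀ s < N, j + 1 + s ≠ i) → cst k N T j = cst k N S j := by
    intro j h1
    exact cst_congr (fun s hs => hWj _ (by have := h1 s hs; omega))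
  have hEi : ∀ j s, s < N → j + 1 + s = i →
      EE k N T j = FF (fun _ => gw (xl k s)) F (EE k N S j) := by
    intro j s hs h1
    have e : j + 2 + s = i + 1 := by omega
    unfold EE
    exact LL_insert k j _ N s hs (fun t _ ht => (hWj _ (by omega)).symm)
      (by rw [e]; exact hd1) (by rw [e, hWi, Finset.union_comm])
  have hci : ∀ j s, s < N → j + 1 + s = i →
      cst k N T j = cst k N S j + (15 * (k : ℝ) + 2 * s) * F.card := by
    intro j s hs h1
    have e : j + 2 + s = i + 1 := by omega
    exact cst_insert hs (fun t _ ht => hWj _ (by omega)) (by rw [e]; exact hcard)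
  -- everything else
  have hUi : UU a k N T i = FF (fun _ => tern (wb a)) F (UU a k N S i) := by
    have h1 : Disjoint F (S.P (i + 1)) := hd1.mono_right Finset.sdiff_subset
    unfold UU
    rw [hPi1, hEj i (fun s _ => by omega), FF_union _ h1]
  have hUi1 : UU a k N T (i + 1) = UU a k N S (i + 1) := by
    unfold UU
    rw [hPj (i + 1 + 1) (by omega) (by omega), hEj (i + 1) (fun s _ => by omega)]
  -- the gases
  have hM : ∀ j, MM a k N S j 0 ≤ MM a k N T j 0 := by
    intro j
    by_cases h1 : j = i
    · subst h1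
      have h2 : MM a k N T j 0 = FF (fun _ => tern (wb a)) F (MQ a (S.P j \ F) (UU a k N S j)) 0 := by
        unfold MM MQ
        rw [hPi, hUi, FF_comm]
      rw [h2]
      refine le_trans ?_ hb.le
      unfold MM
      have h3 : (1 : ℝ≥0∞) ≤ ENNReal.ofReal (Real.exp (F.card / 2 ^ (20 * k))) := by
        rw [← ENNReal.ofReal_one]
        apply ENNReal.ofReal_le_ofReal
        exact Real.one_le_exp (by positivity)
      calc MQ a (S.P j) (UU a k N S j) 0 = 1 * MQ a (S.P j) (UU a k N S j) 0 := (one_mul _).symm
        _ ≤ _ := mul_le_mul_left h3 _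
    · by_cases h2 : j = i + 1
      · subst h2
        have h3 : Disjoint F (S.P (i + 1)) := hd1.mono_right Finset.sdiff_subset
        unfold MM MQ
        rw [hPi1, hUi1, FF_union _ h3]
        exact Helper36.LL.FF_zero_le (fun b _ => by simp) _ _
      · -- the palette of the level does not change
        have hPjj := hPj j h1 h2
        suffices hU : ∀ x, UU a k N S j x ≤ UU a k N T j x by
          unfold MM MQ
          rw [hPjj]
          exact FF_mono (fun _ _ _ => le_rfl) hU 0
        by_cases h3 : j + 1 = i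
        · subst h3
          intro x
          have h4 : UU a k N T j = FF (fun _ => tern (wb a)) (S.P (j + 1) \ F)
              (FF (fun _ => gw (xl k 0)) F (EE k N S j)) := by
            unfold UU
            rw [hPi, hEi j 0 hN (by omega)]
          have h5 : UU a k N S j = FF (fun _ => tern (wb a)) (S.P (j + 1) \ F)
              (FF (fun _ => tern (wb a)) F (EE k N S j)) := by
            unfold UU
            conv_lhs => rw [← Finset.sdiff_union_of_subset hF]
            rw [FF_union _ Finset.sdiff_disjoint]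
          rw [h4, h5]
          refine FF_mono (fun _ _ _ => le_rfl) (fun y => ?_) x
          exact FF_mono (fun _ _ m => tern_wb_le_gw ha hk1 0 m) (fun _ => le_rfl) y
        · -- the buffer does not change
          have h4 : T.P (j + 1) = S.P (j + 1) := hPj (j + 1) h3 (by omega)
          intro x
          unfold UU
          rw [h4]
          refine FF_mono (fun _ _ _ => le_rfl) (fun y => ?_) x
          by_cases h5 : ∃ s < N, j + 1 + s = i
          · obtain ⟨s, hs, h6⟩ := h5
            rw [hEi j s hs h6]
            exact Helper36.LL.FF_zero_le (fun b _ => by simp) _ _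
          · push Not at h5
            rw [hEj j h5]
  have hlogM : ∀ j, Real.log (MM a k N S j 0).toReal ≤ Real.log (MM a k N T j 0).toReal :=
    fun j => log_mono (MM_Fin0 ha hk1 N S j) (MM_Fin0 ha hk1 N T j) (hM j)
  refine ⟨?_, ?_, ?_, ?_, ?_⟩
  · rw [hWj 0 (by omega)]
    exact h.w0
  · apply antitone_nat_of_succ_le
    intro n
    by_cases h1 : n = i
    · subst h1
      rw [hWi, hWj n (by omega)]
      exact Finset.union_subset (h.anti (by omega)) hPF
    · by_cases h2 : n = i + 1
      · subst h2
        rw [hWi, hWj (i + 1 + 1) (by omega)]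
        exact hsub.trans Finset.subset_union_left
      · rw [hWj n h2, hWj (n + 1) (by omega)]
        exact h.anti (by omega)
  · obtain ⟨m, hm⟩ := h.fin
    refine ⟨max m (i + 2), ?_⟩
    rw [hWj _ (by omega)]
    have := h.anti (le_max_left m (i + 2))
    rw [hm] at this
    exact Finset.subset_empty.1 this
  · intro j
    by_cases h1 : j = i
    · subst h1
      have h2 : MM a k N T j 0 = FF (fun _ => tern (wb a)) F
          (MQ a (S.P j \ F) (UU a k N S j)) 0 := by
        unfold MM MQ
        rw [hPi, hUi, FF_comm]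
      have h3 : Real.exp (F.card / 2 ^ (20 * k)) * (MM a k N S j 0).toReal ≤
          (MM a k N T j 0).toReal := by
        have h4 := ENNReal.toReal_mono (MM_Fin0 ha hk1 N T j).2 (h2 ▸ hb.le)
        rwa [ENNReal.toReal_mul, ENNReal.toReal_ofReal (Real.exp_pos _).le] at h4
      have h5 : 0 < (MM a k N S j 0).toReal :=
        ENNReal.toReal_pos (MM_Fin0 ha hk1 N S j).1 (MM_Fin0 ha hk1 N S j).2
      have h6 := Real.log_le_log (by positivity) h3
      rw [Real.log_mul (by positivity) (by positivity), Real.log_exp] at h6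
      have h7 := h.invX j
      rw [hcard]
      push_cast
      rw [add_div]
      change ((S.l j).length : ℝ) * _ + _ ≤ _
      linarith
    · rw [hWj (j + 1) (by omega)]
      exact (h.invX j).trans (hlogM j)
  · intro j
    change ((S.l j).length : ℝ) * _ - _ ≤ _
    by_cases h5 : ∃ s < N, j + 1 + s = i
    · obtain ⟨s, hs, h6⟩ := h5
      have h3 : EE k N T j 0 ≤ thg (xl k s) ^ F.card * EE k N S j 0 := by
        rw [hEi j s hs h6]
        exact FF_gw_le (EE_PD hk1 N S j) (xl_lt k s) F
      have hE := EE_Fin0 hk1 N S j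
      have hE' := EE_Fin0 hk1 N T j
      have ht := thg_ne_top (xl_lt k s)
      have ht0 : 0 < (thg (xl k s)).toReal := by
        have h4 := ENNReal.toReal_mono ht (one_le_thg (xl k s))
        have : (0 : ℝ) < 1 := one_pos
        simp at h4
        linarith
      have hE0 : 0 < (EE k N S j 0).toReal := ENNReal.toReal_pos hE.1 hE.2
      have hE0' : 0 < (EE k N T j 0).toReal := ENNReal.toReal_pos hE'.1 hE'.2
      have h4 := ENNReal.toReal_mono (ENNReal.mul_ne_top (ENNReal.pow_ne_top ht) hE.2) h3
      rw [ENNReal.toReal_mul, ENNReal.toReal_pow] at h4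
      have h5 := Real.log_le_log hE0' h4
      rw [Real.log_mul (by positivity) (by positivity), Real.log_pow] at h5
      have h6' := log_thg_xl hk1 s
      have h7 : (F.card : ℝ) * Real.log (thg (xl k s)).toReal ≤
          F.card * (15 * k + 2 * s) := mul_le_mul_of_nonneg_left h6' (by positivity)
      have h8 := h.invB j
      have h9 := hlogM j
      rw [hci j s hs h6]
      linarith
    · push Not at h5
      rw [hcj j h5, hEj j h5]
      have h2 := h.invB j
      have h3 := hlogM j
      linarith

end Pool.Agent.SPG
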