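import Pool.Agent.SPG.Cvx
import Pool.Agent.SP.Sizes

/-!
Sizes from the invariants of the closure process (general weights, layers).
-/

set_option autoImplicit false

namespace Pool.Agent.SPG

open Finset
open scoped ENNReal
open Pool.Agent.Helper36.LL (conv dlt FF gw tern)
open Pool.Agent.SP (VV sg kap PD GI Ext Fin0 thg yb St SS)
open Pool.Agent.SP.Sz (toReal_pos coef)

variable {G : Type*} [AddCommGroup G] [DecidableEq G]

namespace Sz

/-- The main inequality. -/
theorem key {a k : ℕ} (ha : 2 ≤ a) (hk : 1 ≤ k) {N : ℕ} {V : Finset G} (hV : Press a k V)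
    {S : St G} (h : Inv a k N V S) (i : ℕ) :
    60 * (k : ℝ) * ((S.W (i + 1)).card / 2 ^ (20 * k)) +
      (S.l i).length * (1 / (2400 * (k : ℝ)) - 60 * k * (600 / (2 ^ 28 * (k : ℝ) ^ 2))) ≤
    (60 * (k : ℝ) + 1) * ((S.W i).card / 2 ^ (60 * k) + cst k N S i) := by
  have hk0 : (0 : ℝ) ≤ k := Nat.cast_nonneg k
  have hPE : PD (EE k N S i) := EE_PD hk N S i
  have hFE : Fin0 (EE k N S i) := EE_Fin0 hk N S i
  have hFM : Fin0 (MM a k N S i) := MM_Fin0 ha hk N S i
  have hdis : Disjoint (S.P i) (S.P (i + 1)) := by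
    rw [Finset.disjoint_left]
    intro x hx hx'
    exact (Finset.mem_sdiff.1 hx).2 (Finset.mem_sdiff.1 hx').1
  have hYi : S.P i ∪ S.P (i + 1) ⊆ S.W i := by
    apply Finset.union_subset Finset.sdiff_subset
    exact Finset.sdiff_subset.trans (h.anti (Nat.le_succ i))
  have hYV : S.P i ∪ S.P (i + 1) ⊆ V := by
    rw [← h.w0]
    exact hYi.trans (h.anti (Nat.zero_le i))
  have hFT : Fin0 (FF (fun _ => tern (wq a)) (S.P i ∪ S.P (i + 1)) (EE k N S i)) :=
    Fin0.FF_tern hPE hFE (wq_half ha) _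
  have hcY : (((S.P i ∪ S.P (i + 1)).card : ℕ) : ℝ) ≤ (S.W i).card := by
    exact_mod_cast Finset.card_le_card hYi
  have hH := holder_scale ha hPE hFE (S.P i) (S.P (i + 1)) hdis (60 * k)
  have hlD := press_dom ha hk hV N S i hYV
  have hX := h.invX i
  have hB := h.invB i
  have hMeq : FF (fun _ => tern (wp a)) (S.P i) (FF (fun _ => tern (wb a)) (S.P (i + 1))
      (EE k N S i)) = MM a k N S i := rfl
  rw [hMeq] at hH
  have hM0 := toReal_pos hFM
  have hE0 := toReal_pos hFE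
  have hT0 := toReal_pos hFT
  set m := (MM a k N S i 0).toReal with hm
  set e := (EE k N S i 0).toReal with he
  set T := (FF (fun _ => tern (wq a)) (S.P i ∪ S.P (i + 1)) (EE k N S i) 0).toReal with hT
  set Y := (((S.P i ∪ S.P (i + 1)).card : ℕ) : ℝ) with hYdef
  set r := (((S.l i).length : ℕ) : ℝ) with hr
  set x1 := (((S.W (i + 1)).card : ℕ) : ℝ) with hx1
  have hY0 : 0 ≤ Y := Nat.cast_nonneg _
  have hr0 : 0 ≤ r := Nat.cast_nonneg _
  -- logarithms
  have hlH : ((60 * k : ℕ) + 1 : ℝ) * Real.log m ≤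
      (60 * k : ℕ) * Real.log T + (Real.log e + Y / 2 ^ (60 * k + 2)) := by
    have h1 := Real.log_le_log (pow_pos hM0 _) hH
    rw [Real.log_pow, Real.log_mul (pow_pos hT0 _).ne' (mul_pos hE0 (Real.exp_pos _)).ne',
      Real.log_pow, Real.log_mul hE0.ne' (Real.exp_pos _).ne', Real.log_exp] at h1
    push_cast at h1 ⊢
    linarith
  have hq : (2 : ℝ) ^ (60 * k + 2) = 4 * 2 ^ (60 * k) := by rw [pow_add]; ring
  rw [hq] at hlH
  have hτ : 0 < (2 : ℝ) ^ (60 * k) := by positivity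
  have hY4 : Y / (4 * 2 ^ (60 * k)) = Y / 2 ^ (60 * k) / 4 := by
    field_simp
  rw [hY4] at hlH
  have hYx : Y / 2 ^ (60 * k) ≤ ((S.W i).card : ℝ) / 2 ^ (60 * k) :=
    div_le_div_of_nonneg_right hcY hτ.le
  have hYn : 0 ≤ Y / 2 ^ (60 * k) := by positivity
  push_cast at hlH
  have hlD' := mul_le_mul_of_nonneg_left hlD (by positivity : (0 : ℝ) ≤ 60 * k)
  have hX' := mul_le_mul_of_nonneg_left hX (by positivity : (0 : ℝ) ≤ 60 * k)
  have hYx' := mul_le_mul_of_nonneg_left hYx (by positivity : (0 : ℝ) ≤ 60 * k + 1)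
  generalize Real.log m = X at *
  generalize Real.log e = Z at *
  generalize Real.log T = L at *
  generalize Real.log (thg (yb k)).toReal = b at *
  generalize Y / 2 ^ (60 * k) = y at *
  generalize ((S.W i).card : ℝ) / 2 ^ (60 * k) = y' at *
  generalize x1 / 2 ^ (20 * k) = u at *
  generalize (600 : ℝ) / (2 ^ 28 * (k : ℝ) ^ 2) = ε at *
  generalize 1 / (2400 * (k : ℝ)) = δ at *
  generalize cst k N S i = c at *
  nlinarith

theorem sum_geom (x : ℕ → ℝ) (hx : ∀ s, 0 ≤ x s) (h : ∀ s, 4 * x (s + 1) ≤ x s) :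
    ∀ (n : ℕ) (A : ℝ), 0 ≤ A → ∑ s ∈ range n, (A + 2 * s) * x s ≤ (4 / 3 * A + 2) * x 0 := by
  intro n
  induction n generalizing x with
  | zero =>
    intro A hA
    have := hx 0
    simp only [Finset.range_zero, Finset.sum_empty]
    positivity
  | succ n ih =>
    intro A hA
    rw [Finset.sum_range_succ']
    have h1 := ih (fun s => x (s + 1)) (fun s => hx _) (fun s => h _) (A + 2) (by linarith)
    have e : ∑ s ∈ range n, (A + 2 * ((s + 1 : ℕ) : ℝ)) * x (s + 1) =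
        ∑ s ∈ range n, (A + 2 + 2 * (s : ℝ)) * x (s + 1) := by
      refine Finset.sum_congr rfl fun s _ => ?_
      push_cast
      ring
    rw [e]
    have h2 := h 0
    have h3 := hx 1
    have h4 := hx 0
    simp only [zero_add] at h1 h2
    have h5 : (4 / 3 * (A + 2) + 2) * x 1 ≤ (4 / 3 * (A + 2) + 2) * (x 0 / 4) :=
      mul_le_mul_of_nonneg_left (by linarith) (by positivity)
    have h6 : (A + 2 * ((0 : ℕ) : ℝ)) * x 0 = A * x 0 := by simp
    rw [h6]
    nlinarith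

omit [AddCommGroup G] [DecidableEq G] in
theorem cst_le {k : ℕ} (hk : 2 ≤ k) (N : ℕ) {S : St G} {i : ℕ}
    (h : ∀ j, i + 2 ≤ j → 4 * ((S.W (j + 1)).card : ℝ) ≤ (S.W j).card) :
    cst k N S i ≤ 21 * k * (S.W (i + 2)).card := by
  have h1 := sum_geom (fun s => ((S.W (i + 2 + s)).card : ℝ)) (fun s => Nat.cast_nonneg _)
    (fun s => h (i + 2 + s) (by omega)) N (15 * k) (by positivity)
  have hk0 : (2 : ℝ) ≤ k := by exact_mod_cast hk
  refine h1.trans ?_
  simp only [add_zero]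
  exact mul_le_mul_of_nonneg_right (by linarith) (Nat.cast_nonneg _)

theorem two_pow_ge (k : ℕ) : 400 * (k : ℝ) ≤ 2 ^ (20 * k) := by
  have h1 : k < 2 ^ k := Nat.lt_two_pow_self
  have h1' : (k : ℝ) ≤ 2 ^ k := by exact_mod_cast h1.le
  rcases Nat.eq_zero_or_pos k with h0 | h0
  · subst h0
    norm_num
  have h2 : (2 : ℝ) ^ (20 * k) = 2 ^ (19 * k) * 2 ^ k := by rw [← pow_add]; congr 1; ring
  have h3 : (400 : ℝ) ≤ 2 ^ (19 * k) := by
    calc (400 : ℝ) ≤ 2 ^ 19 := by norm_num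
      _ ≤ 2 ^ (19 * k) := pow_le_pow_right₀ (by norm_num) (by omega)
  rw [h2]
  exact mul_le_mul h3 h1' (Nat.cast_nonneg _) (by positivity)

theorem quarter {k : ℕ} (hk : 1 ≤ k) {x y : ℝ} (hx : 0 ≤ x) (h : 2 ^ (40 * k) * x ≤ 4 * y) :
    4 * x ≤ y := by
  have h2 : (16 : ℝ) ≤ 2 ^ (40 * k) := by
    calc (16 : ℝ) ≤ 2 ^ 4 := by norm_num
      _ ≤ 2 ^ (40 * k) := pow_le_pow_right₀ (by norm_num) (by omega)
  nlinarith

theorem step {a k : ℕ} (ha : 2 ≤ a) (hk : 2 ≤ k) {N : ℕ} {V : Finset G} (hV : Press a k V)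
    {S : St G} (h : Inv a k N V S) (m : ℕ) (hm : S.W m = ∅) : ∀ n i : ℕ, m ≤ i + n →
    2 ^ (40 * k) * ((S.W (i + 1)).card : ℝ) ≤ 4 * (S.W i).card := by
  intro n
  induction n with
  | zero =>
    intro i hi
    have h1 : S.W (i + 1) = ∅ := by
      apply Finset.subset_empty.1
      rw [← hm]
      exact h.anti (by omega)
    rw [h1, Finset.card_empty]
    push_cast
    have : (0 : ℝ) ≤ ((S.W i).card : ℝ) := Nat.cast_nonneg _
    linarith
  | succ n ih =>
    intro i hi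
    have h2 := ih (i + 1) (by omega)
    have h3 := key ha (by omega) hV h i
    have hcst := cst_le hk N (S := S) (i := i)
      (fun j hj => quarter (by omega) (Nat.cast_nonneg _) (ih j (by omega)))
    have hk0 : (1 : ℝ) ≤ k := by exact_mod_cast (by omega : 1 ≤ k)
    have h4 := coef (by omega : 1 ≤ k)
    have h5 : 0 ≤ ((S.l i).length : ℝ) *
        (1 / (2400 * (k : ℝ)) - 60 * k * (600 / (2 ^ 28 * (k : ℝ) ^ 2))) := by
      apply mul_nonneg (Nat.cast_nonneg _)
      exact le_trans (by positivity) h4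
    have h3' : 60 * (k : ℝ) * ((S.W (i + 1)).card / 2 ^ (20 * k)) ≤
        (60 * (k : ℝ) + 1) * ((S.W i).card / 2 ^ (60 * k) + 21 * k * (S.W (i + 2)).card) := by
      have := mul_le_mul_of_nonneg_left hcst (by positivity : (0 : ℝ) ≤ 60 * (k : ℝ) + 1)
      linarith
    have e1 : (2 : ℝ) ^ (60 * k) = 2 ^ (20 * k) * (2 ^ (20 * k) * 2 ^ (20 * k)) := by
      rw [← pow_add, ← pow_add]; congr 1; ring
    have e2 : (2 : ℝ) ^ (40 * k) = 2 ^ (20 * k) * 2 ^ (20 * k) := by
      rw [← pow_add]; congr 1; ring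
    have hp := two_pow_ge k
    have hp0 : (0 : ℝ) < 2 ^ (20 * k) := by positivity
    have a0 : (0 : ℝ) ≤ ((S.W i).card : ℝ) := Nat.cast_nonneg _
    have a1 : (0 : ℝ) ≤ ((S.W (i + 1)).card : ℝ) := Nat.cast_nonneg _
    have a2 : (0 : ℝ) ≤ ((S.W (i + 2)).card : ℝ) := Nat.cast_nonneg _
    rw [e1] at h3'
    rw [e2] at h2 ⊢
    have h6 : i + 1 + 1 = i + 2 := rfl
    rw [h6] at h2
    clear h3 hcst ih
    generalize (2 : ℝ) ^ (20 * k) = p at *
    generalize ((S.W i).card : ℝ) = x0 at *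
    generalize ((S.W (i + 1)).card : ℝ) = x1 at *
    generalize ((S.W (i + 2)).card : ℝ) = x2 at *
    have hn : 0 ≤ x0 / (p * (p * p)) + 21 * k * x2 := by positivity
    have h8 : x1 / p ≤ 2 * (x0 / (p * (p * p)) + 21 * k * x2) := by
      have : 60 * (k : ℝ) * (x1 / p) ≤ 60 * k * (2 * (x0 / (p * (p * p)) + 21 * k * x2)) := by
        nlinarith
      exact le_of_mul_le_mul_left this (by positivity)
    have h9 : x1 * (p * p) ≤ 2 * x0 + 42 * k * (p * p * x2) * p := by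
      have := mul_le_mul_of_nonneg_right h8 (by positivity : 0 ≤ p * (p * p))
      have e3 : x1 / p * (p * (p * p)) = x1 * (p * p) := by field_simp
      have e4 : 2 * (x0 / (p * (p * p)) + 21 * k * x2) * (p * (p * p)) =
          2 * x0 + 42 * k * (p * p * x2) * p := by field_simp; ring
      rw [e3, e4] at this
      exact this
    have h10 : 42 * k * (p * p * x2) * p ≤ 42 * k * (4 * x1) * p := by
      apply mul_le_mul_of_nonneg_right _ hp0.le
      apply mul_le_mul_of_nonneg_left h2 (by positivity)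
    have h11 : 42 * k * (4 * x1) * p ≤ x1 * (p * p) / 2 := by
      have := mul_le_mul_of_nonneg_right hp (by positivity : 0 ≤ x1 * p / 2)
      nlinarith
    nlinarith

end Sz

theorem inv_half {a k : ℕ} (ha : 2 ≤ a) (hk : 100 ≤ k) {N : ℕ} {V : Finset G}
    (hV : Press a k V) {S : St G} (h : Inv a k N V S) (i : ℕ) :
    2 * (S.W (i + 1)).card ≤ (S.W i).card := by
  obtain ⟨m, hm⟩ := h.fin
  have h1 := Sz.quarter (by omega) (Nat.cast_nonneg _)
    (Sz.step ha (by omega : 2 ≤ k) hV h m hm m i (by omega))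
  have h4 : 4 * (S.W (i + 1)).card ≤ (S.W i).card := by exact_mod_cast h1
  omega

theorem inv_len {a k : ℕ} (ha : 2 ≤ a) (hk : 100 ≤ k) {N : ℕ} {V : Finset G}
    (hV : Press a k V) {S : St G} (h : Inv a k N V S) (i : ℕ) :
    (S.l i).length ≤ 10 ^ 8 * k ^ 3 * (S.W i).card := by
  have hk1 : 1 ≤ k := by omega
  have hk0 : (1 : ℝ) ≤ k := by exact_mod_cast hk1
  obtain ⟨m, hm⟩ := h.fin
  have hcst := Sz.cst_le (by omega : 2 ≤ k) N (S := S) (i := i)
    (fun j _ => Sz.quarter (by omega) (Nat.cast_nonneg _)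
      (Sz.step ha (by omega : 2 ≤ k) hV h m hm m j (by omega)))
  have h3 := Sz.key ha hk1 hV h i
  have h4 := coef hk1
  have hc : ((S.W (i + 2)).card : ℝ) ≤ (S.W i).card := by
    exact_mod_cast Finset.card_le_card (h.anti (by omega : i ≤ i + 2))
  have a0 : (0 : ℝ) ≤ ((S.W i).card : ℝ) := Nat.cast_nonneg _
  have h5 : ((S.l i).length : ℝ) * (2 / 10 ^ 4 / (k : ℝ)) ≤
      ((S.l i).length : ℝ) *
        (1 / (2400 * (k : ℝ)) - 60 * k * (600 / (2 ^ 28 * (k : ℝ) ^ 2))) :=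
    mul_le_mul_of_nonneg_left h4 (Nat.cast_nonneg _)
  have h6 : 0 ≤ 60 * (k : ℝ) * (((S.W (i + 1)).card : ℝ) / 2 ^ (20 * k)) := by positivity
  have h7 : ((S.W i).card : ℝ) / 2 ^ (60 * k) ≤ (S.W i).card :=
    div_le_self a0 (one_le_pow₀ (by norm_num))
  have h8 : ((S.W i).card : ℝ) / 2 ^ (60 * k) + cst k N S i ≤ 22 * k * (S.W i).card := by
    have : 21 * (k : ℝ) * (S.W (i + 2)).card ≤ 21 * k * (S.W i).card :=
      mul_le_mul_of_nonneg_left hc (by positivity)
    nlinarith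
  have h9 : ((S.l i).length : ℝ) * (2 / 10 ^ 4 / (k : ℝ)) ≤
      61 * k * (22 * k * (S.W i).card) := by
    have h10 : (60 * (k : ℝ) + 1) * (((S.W i).card : ℝ) / 2 ^ (60 * k) + cst k N S i) ≤
        61 * k * (22 * k * (S.W i).card) := by
      have h11 := mul_le_mul_of_nonneg_left h8 (by positivity : (0 : ℝ) ≤ 60 * (k : ℝ) + 1)
      have h12 : (60 * (k : ℝ) + 1) * (22 * k * (S.W i).card) ≤ 61 * k * (22 * k * (S.W i).card) :=
        mul_le_mul_of_nonneg_right (by linarith) (by positivity)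
      exact h11.trans h12
    linarith
  have h11 : ((S.l i).length : ℝ) ≤ 61 * k * (22 * k * (S.W i).card) * (5000 * k) := by
    have := mul_le_mul_of_nonneg_right h9 (by positivity : 0 ≤ 5000 * (k : ℝ))
    have e : ((S.l i).length : ℝ) * (2 / 10 ^ 4 / (k : ℝ)) * (5000 * k) = (S.l i).length := by
      have : (k : ℝ) ≠ 0 := by positivity
      field_simp
      ring
    rw [e] at this
    exact this
  have h12 : ((S.l i).length : ℝ) ≤ 10 ^ 8 * k ^ 3 * (S.W i).card := by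
    have : 0 ≤ (k : ℝ) ^ 3 * (S.W i).card := by positivity
    nlinarith
  exact_mod_cast h12

end Pool.Agent.SPG
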