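import Pool.Agent.SP.Closure
import Pool.Agent.SPG.Moves
import Pool.Agent.SPG.Sizes

/-!
The terminal state of the closure process.
-/

set_option autoImplicit false

namespace Pool.Agent.SPG

open Finset
open scoped ENNReal
open Pool.Agent.Helper36.LL (conv dlt FF gw tern)
open Pool.Agent.SP (VV sg kap PD GI Ext Fin0 thg yb St SS)
open Pool.Agent.SP.Cl (Φ kap_dlt)

variable {G : Type*} [AddCommGroup G] [DecidableEq G]

namespace Cl

theorem card_W {a k : ℕ} (ha : 2 ≤ a) (hk : 100 ≤ k) {N : ℕ} {V : Finset G} (hV : Press a k V) {S : St G}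
    (h : Inv a k N V S) (i : ℕ) : 2 ^ i * (S.W i).card ≤ V.card := by
  induction i with
  | zero => rw [h.w0]; simp
  | succ i ih =>
    have h1 := inv_half ha hk hV h i
    calc 2 ^ (i + 1) * (S.W (i + 1)).card = 2 ^ i * (2 * (S.W (i + 1)).card) := by ring
      _ ≤ 2 ^ i * (S.W i).card := Nat.mul_le_mul_left _ h1
      _ ≤ _ := ih

theorem W_empty {a k : ℕ} (ha : 2 ≤ a) (hk : 100 ≤ k) {N : ℕ} {V : Finset G} (hV : Press a k V) {S : St G}
    (h : Inv a k N V S) {i : ℕ} (hi : V.card ≤ i) : S.W i = ∅ := by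
  have h1 := card_W ha hk hV h i
  rw [← card_eq_zero]
  by_contra h0
  have h2 : 2 ^ i * 1 ≤ 2 ^ i * (S.W i).card := Nat.mul_le_mul_left _ (Nat.one_le_iff_ne_zero.2 h0)
  have h3 : i < 2 ^ i := Nat.lt_two_pow_self
  omega

theorem Φ_le {a k : ℕ} (ha : 2 ≤ a) (hk : 100 ≤ k) {N : ℕ} {V : Finset G} (hV : Press a k V) {S : St G}
    (h : Inv a k N V S) (n : ℕ) : Φ n S ≤ n * ((1 + 10 ^ 8 * k ^ 3) * V.card) := by
  unfold Φ
  have h1 : ∀ i ∈ range n, (S.W i).card + (S.l i).length ≤ (1 + 10 ^ 8 * k ^ 3) * V.card := by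
    intro i _
    have h2 := inv_len ha hk hV h i
    have h3 : (S.W i).card ≤ V.card := by
      have := card_W ha hk hV h i
      have h4 : 1 * (S.W i).card ≤ 2 ^ i * (S.W i).card :=
        Nat.mul_le_mul_right _ Nat.one_le_two_pow
      omega
    calc (S.W i).card + (S.l i).length ≤ (S.W i).card + 10 ^ 8 * k ^ 3 * (S.W i).card := by omega
      _ = (1 + 10 ^ 8 * k ^ 3) * (S.W i).card := by ring
      _ ≤ _ := Nat.mul_le_mul_left _ h3
  refine (Finset.sum_le_card_nsmul _ _ _ h1).trans ?_
  simp

end Cl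

open Cl in
theorem closure {a k : ℕ} (ha : 2 ≤ a) (hk : 100 ≤ k) {V : Finset G} (hV : Press a k V) :
    ∃ (N : ℕ) (S : St G), S.W 0 = V ∧ Antitone S.W ∧ S.W N = ∅ ∧
      ∀ i, Lev a k (S.P i) (EE k N S i) (UU a k N S i) := by
  classical
  set n := V.card + 2 with hn
  have hn0 : 0 < n := by omega
  -- a state with maximal potential
  obtain ⟨S, hS, hmax⟩ : ∃ S : St G, Inv a k n V S ∧ ∀ S' : St G, Inv a k n V S' → Φ n S' ≤ Φ n S := by
    have hne : ∃ m, ∃ S : St G, Inv a k n V S ∧ Φ n S = m := ⟨_, _, inv_init ha (by omega) n V, rfl⟩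
    have hb : ∀ m, (∃ S : St G, Inv a k n V S ∧ Φ n S = m) → m ≤ n * ((1 + 10 ^ 8 * k ^ 3) * V.card) := by
      rintro m ⟨S, hS, rfl⟩
      exact Φ_le ha hk hV hS n
    obtain ⟨S, hS, hSm⟩ := Nat.findGreatest_spec (P := fun m => ∃ S : St G, Inv a k n V S ∧ Φ n S = m)
      (hb _ hne.choose_spec) hne.choose_spec
    refine ⟨S, hS, fun S' hS' => ?_⟩
    rw [hSm]
    exact Nat.le_findGreatest (hb _ ⟨S', hS', rfl⟩) ⟨S', hS', rfl⟩
  have hk1 : 1 ≤ k := by omega
  have hkR : (100 : ℝ) ≤ k := by exact_mod_cast hk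
  refine ⟨n, S, hS.w0, hS.anti, W_empty ha hk hV hS (by omega), fun i => ?_⟩
  refine ⟨EE_GI k n S i, EE_PD hk1 n S i, EE_Fin0 hk1 n S i, (Ext.refl _).FF _ _, UU_PD ha hk1 n S i,
    UU_Fin0 ha hk1 n S i, ?_, ?_⟩
  · intro F hF hFne _
    by_contra hcon
    push Not at hcon
    have hinv := move_b ha hk hn0 hS i hF hcon
    have hi : i + 1 < n := by
      by_contra hlt
      have h1 : S.W i = ∅ := W_empty ha hk hV hS (by omega)
      obtain ⟨x, hx⟩ := hFne
      have h2 := (mem_sdiff.1 (hF hx)).1
      rw [h1] at h2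
      exact absurd h2 (notMem_empty x)
    have h3 := hmax _ hinv
    have h4 : Φ n S < Φ n ⟨Function.update S.W (i + 1) (S.W (i + 1) ∪ F), S.l⟩ := by
      unfold Φ
      have hcard : (S.W (i + 1)).card < (S.W (i + 1) ∪ F).card := by
        apply card_lt_card
        rw [ssubset_iff_of_subset subset_union_left]
        obtain ⟨x, hx⟩ := hFne
        exact ⟨x, mem_union_right _ hx, (mem_sdiff.1 (hF hx)).2⟩
      refine Finset.sum_lt_sum (fun j _ => ?_) ⟨i + 1, mem_range.2 hi, ?_⟩
      · by_cases hj : j = i + 1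
        · subst hj
          simp only [Function.update_self]
          omega
        · simp only [Function.update_of_ne hj]
          exact le_rfl
      · simp only [Function.update_self]
        omega
    exact absurd h3 (not_le.2 h4)
  · intro x hx
    by_contra hcon
    push Not at hcon
    have hinv := move_a ha hk hS i hx hcon
    by_cases hi : i < n
    · have h3 := hmax _ hinv
      have h4 : Φ n S < Φ n ⟨S.W, Function.update S.l i (x :: S.l i)⟩ := by
        unfold Φ
        refine Finset.sum_lt_sum (fun j _ => ?_) ⟨i, mem_range.2 hi, ?_⟩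
        · by_cases hj : j = i
          · subst hj
            simp only [Function.update_self, List.length_cons]
            omega
          · simp only [Function.update_of_ne hj]
            exact le_rfl
        · simp only [Function.update_self, List.length_cons]
          omega
      exact absurd h3 (not_le.2 h4)
    · have hW : ∀ j, V.card ≤ j → S.W j = ∅ := fun j hj => W_empty ha hk hV hS hj
      have hl : S.l i = [] := by
        have h1 := inv_len ha hk hV hS i
        rw [hW i (by omega), card_empty, mul_zero] at h1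
        exact List.eq_nil_of_length_eq_zero (by omega)
      have hE : EE k n S i = dlt := by
        unfold EE
        rw [LL_empty k (fun s => hW (i + 2 + s) (by omega)), hl]
        simp [VV]
      have hU : UU a k n S i = dlt := by
        unfold UU St.P
        rw [hW (i + 1) (by omega), hE]
        simp
      have hM : MQ a (S.P i) (UU a k n S i) = dlt := by
        unfold MQ St.P
        rw [hW i (by omega), hU]
        simp
      rw [hM] at hx
      have h5 : kap (dlt : G → ℝ≥0∞) x < 1 := by
        refine lt_of_le_of_lt hx ?_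
        rw [div_lt_one (by positivity)]
        have h6 : (1 : ℝ) ≤ (k : ℝ) ^ 3 := one_le_pow₀ (by linarith)
        nlinarith
      have h7 := kap_dlt h5
      rw [h7] at hcon
      have h8 : Real.exp (-(1 / (100 * (k : ℝ)))) ≤ 1 := by
        rw [Real.exp_le_one_iff]
        have : (0 : ℝ) ≤ 1 / (100 * (k : ℝ)) := by positivity
        linarith
      have h9 := mul_le_mul_of_nonneg_right h8
        (ENNReal.toReal_nonneg : 0 ≤ (EE k n S i 0).toReal)
      linarith

end Pool.Agent.SPG
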