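import Pool.Agent.SPG.Wts
import Pool.Agent.SP.Gauss
import Pool.Agent.SP.Virt

/-!
Planting a signed set of deep elements into the Gaussian part of a level.
-/

set_option autoImplicit false

namespace Pool.Agent.SPG

open Finset
open scoped ENNReal
open Pool.Agent.Helper36.LL (conv dlt FF gw tern FF_insert FF_conv FF_empty)
open Pool.Agent.SP (VV sg kap PD GI Ext Fin0 thg yb St SS gau_sq_tsum_le)

variable {G : Type*} [AddCommGroup G]

/-- The planting inequality with constant `c` and shift `σ`. -/
def PL (E : G → ℝ≥0∞) (c : ℝ≥0∞) (σ : G) : Prop :=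
  ∀ h, (c * E h) ^ 2 ≤ E (h + σ) * E (h - σ)

theorem PL.one (E : G → ℝ≥0∞) : PL E 1 0 := by
  intro h
  rw [add_zero, sub_zero, one_mul, sq]

theorem PL.neg {E : G → ℝ≥0∞} {c : ℝ≥0∞} {σ : G} (h : PL E c σ) : PL E c (-σ) := by
  intro g
  have := h g
  rw [sub_neg_eq_add, ← sub_eq_add_neg, mul_comm (E (g - σ))]
  exact this

theorem PL.conv {E : G → ℝ≥0∞} {c : ℝ≥0∞} {σ : G} (h : PL E c σ) (w : ℤ → ℝ≥0∞) (v : G) :
    PL (conv w v E) c σ := by
  intro g
  have key := gau_sq_tsum_le w (fun j : ℤ => c * E (g - j • v))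
    (fun j : ℤ => E (g - j • v + σ)) (fun j : ℤ => E (g - j • v - σ)) (fun j => h _)
  have e1 : c * Helper36.LL.conv w v E g = ∑' j : ℤ, w j * (c * E (g - j • v)) := by
    unfold Helper36.LL.conv
    rw [← ENNReal.tsum_mul_left]
    exact tsum_congr fun j => by ring
  have e2 : Helper36.LL.conv w v E (g + σ) = ∑' j : ℤ, w j * E (g - j • v + σ) := by
    unfold Helper36.LL.conv
    exact tsum_congr fun j => by rw [add_sub_right_comm]
  have e3 : Helper36.LL.conv w v E (g - σ) = ∑' j : ℤ, w j * E (g - j • v - σ) := by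
    unfold Helper36.LL.conv
    exact tsum_congr fun j => by rw [sub_right_comm]
  rw [e1, e2, e3]
  exact key

theorem gw_mul_gw (x : ℝ≥0∞) (m : ℤ) : gw x (m + 1) * gw x (m - 1) = (x * gw x m) ^ 2 := by
  unfold gw
  rw [← pow_add, ← pow_succ', ← pow_mul]
  congr 1
  zify
  rw [sq_abs, sq_abs, sq_abs]
  ring

theorem PL.plant {E : G → ℝ≥0∞} {c : ℝ≥0∞} {σ : G} (h : PL E c σ) (x : ℝ≥0∞) (v : G) :
    PL (Helper36.LL.conv (gw x) v E) (x * c) (σ + v) := by
  intro g
  have key := gau_sq_tsum_le (fun _ : ℤ => (1 : ℝ≥0∞))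
    (fun j : ℤ => x * gw x j * (c * E (g - j • v)))
    (fun j : ℤ => gw x (j + 1) * E (g - j • v + σ))
    (fun j : ℤ => gw x (j - 1) * E (g - j • v - σ)) (fun j => by
      calc (x * gw x j * (c * E (g - j • v))) ^ 2
          = (x * gw x j) ^ 2 * (c * E (g - j • v)) ^ 2 := by ring
        _ ≤ (x * gw x j) ^ 2 * (E (g - j • v + σ) * E (g - j • v - σ)) := by
            gcongr
            exact h _
        _ = gw x (j + 1) * E (g - j • v + σ) * (gw x (j - 1) * E (g - j • v - σ)) := by
            rw [← gw_mul_gw]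
            ring)
  simp only [one_mul] at key
  have e1 : x * c * Helper36.LL.conv (gw x) v E g =
      ∑' j : ℤ, x * gw x j * (c * E (g - j • v)) := by
    unfold Helper36.LL.conv
    rw [← ENNReal.tsum_mul_left]
    exact tsum_congr fun j => by ring
  have e2 : Helper36.LL.conv (gw x) v E (g + (σ + v)) =
      ∑' j : ℤ, gw x (j + 1) * E (g - j • v + σ) := by
    unfold Helper36.LL.conv
    rw [← (Equiv.addRight (1 : ℤ)).tsum_eq]
    refine tsum_congr fun j => ?_
    simp only [Equiv.coe_addRight]
    congr 2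
    rw [add_smul, one_smul]
    abel
  have e3 : Helper36.LL.conv (gw x) v E (g - (σ + v)) =
      ∑' j : ℤ, gw x (j - 1) * E (g - j • v - σ) := by
    unfold Helper36.LL.conv
    rw [← (Equiv.subRight (1 : ℤ)).tsum_eq]
    refine tsum_congr fun j => ?_
    simp only [Equiv.subRight_apply]
    congr 2
    rw [sub_smul, one_smul]
    abel
  rw [e1, e2, e3]
  exact key

theorem PL.plant' {E : G → ℝ≥0∞} {c : ℝ≥0∞} {σ : G} (h : PL E c σ) (x : ℝ≥0∞) (v : G) :
    PL (Helper36.LL.conv (gw x) v E) (x * c) (σ - v) := by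
  have := (h.neg.plant x v).neg
  rwa [neg_add, neg_neg, ← sub_eq_add_neg] at this

variable [DecidableEq G]

theorem PL.FF {E : G → ℝ≥0∞} {c : ℝ≥0∞} {σ : G} (h : PL E c σ) (x : ℝ≥0∞) (P : Finset G) :
    ∀ A B : Finset G, A ⊆ P → B ⊆ P → Disjoint A B →
      PL (FF (fun _ => gw x) P E) (x ^ (A ∪ B).card * c) (σ + sg A B) := by
  induction P using Finset.induction_on with
  | empty =>
    intro A B hA hB _
    rw [Finset.subset_empty.1 hA, Finset.subset_empty.1 hB]
    simpa [sg] using h
  | insert p P hp ih =>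
    intro A B hA hB hAB
    rw [FF_insert _ hp]
    by_cases hpA : p ∈ A
    · have hpB : p ∉ B := Finset.disjoint_left.1 hAB hpA
      have hA' : A.erase p ⊆ P := by
        intro y hy
        have h1 := Finset.mem_insert.1 (hA (Finset.mem_of_mem_erase hy))
        exact h1.resolve_left (Finset.ne_of_mem_erase hy)
      have hB' : B ⊆ P := by
        intro y hy
        have h1 := Finset.mem_insert.1 (hB hy)
        exact h1.resolve_left (fun e => hpB (e ▸ hy))
      have h1 := (ih (A.erase p) B hA' hB' (hAB.mono_left (Finset.erase_subset _ _))).plant x p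
      have e1 : A ∪ B = insert p (A.erase p ∪ B) := by
        rw [← Finset.insert_union, Finset.insert_erase hpA]
      have e2 : p ∉ A.erase p ∪ B := by
        simp [hpB]
      have e3 : sg A B = sg (A.erase p) B + p := by
        unfold sg
        rw [← Finset.sum_erase_add A _ hpA]
        abel
      rw [e1, Finset.card_insert_of_notMem e2, e3, pow_succ', mul_assoc, ← add_assoc]
      exact h1
    · by_cases hpB : p ∈ B
      · have hB' : B.erase p ⊆ P := by
          intro y hy
          have h1 := Finset.mem_insert.1 (hB (Finset.mem_of_mem_erase hy))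
          exact h1.resolve_left (Finset.ne_of_mem_erase hy)
        have hA' : A ⊆ P := by
          intro y hy
          have h1 := Finset.mem_insert.1 (hA hy)
          exact h1.resolve_left (fun e => hpA (e ▸ hy))
        have h1 := (ih A (B.erase p) hA' hB'
          (hAB.mono_right (Finset.erase_subset _ _))).plant' x p
        have e1 : A ∪ B = insert p (A ∪ B.erase p) := by
          rw [← Finset.union_insert, Finset.insert_erase hpB]
        have e2 : p ∉ A ∪ B.erase p := by
          simp [hpA]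
        have e3 : sg A B = sg A (B.erase p) - p := by
          unfold sg
          rw [← Finset.sum_erase_add B _ hpB]
          abel
        rw [e1, Finset.card_insert_of_notMem e2, e3, pow_succ', mul_assoc, ← add_sub_assoc]
        exact h1
      · have hA' : A ⊆ P := by
          intro y hy
          have h1 := Finset.mem_insert.1 (hA hy)
          exact h1.resolve_left (fun e => hpA (e ▸ hy))
        have hB' : B ⊆ P := by
          intro y hy
          have h1 := Finset.mem_insert.1 (hB hy)
          exact h1.resolve_left (fun e => hpB (e ▸ hy))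
        exact (ih A B hA' hB' hAB).conv _ p

omit [AddCommGroup G] [DecidableEq G] in
theorem filter_lt_succ (nn : G → ℕ) (A : Finset G) (m : ℕ) :
    Disjoint (A.filter fun v => nn v < m) (A.filter fun v => nn v = m) := by
  rw [Finset.disjoint_left]
  intro v h1 h2
  have h3 := (Finset.mem_filter.1 h1).2
  have h4 := (Finset.mem_filter.1 h2).2
  omega

omit [AddCommGroup G] in
theorem filter_lt_succ' (nn : G → ℕ) (A : Finset G) (m : ℕ) :
    A.filter (fun v => nn v < m + 1) =
      (A.filter fun v => nn v < m) ∪ (A.filter fun v => nn v = m) := by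
  ext v
  simp only [Finset.mem_union, Finset.mem_filter]
  constructor
  · rintro ⟨h1, h2⟩
    rcases Nat.lt_succ_iff_lt_or_eq.1 h2 with h | h
    · exact Or.inl ⟨h1, h⟩
    · exact Or.inr ⟨h1, h⟩
  · rintro (⟨h1, h2⟩ | ⟨h1, h2⟩)
    · exact ⟨h1, by omega⟩
    · exact ⟨h1, by omega⟩

theorem PL.LL (k : ℕ) {W : ℕ → Finset G} {i : ℕ} (B0 : G → ℝ≥0∞) {A B : Finset G}
    (hAB : Disjoint A B) (nn : G → ℕ) (hA : ∀ v ∈ A, v ∈ W (i + 2 + nn v))
    (hB : ∀ v ∈ B, v ∈ W (i + 2 + nn v)) (m : ℕ) :
    PL (LL k W i B0 m) (∏ v ∈ (A ∪ B).filter (fun v => nn v < m), xl k (nn v))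
      (sg (A.filter fun v => nn v < m) (B.filter fun v => nn v < m)) := by
  induction m with
  | zero =>
    simpa [sg, SPG.LL] using PL.one B0
  | succ m ih =>
    have h1 := ih.FF (xl k m) (W (i + 2 + m)) (A.filter fun v => nn v = m)
      (B.filter fun v => nn v = m) (by
        intro v hv
        obtain ⟨h2, h3⟩ := Finset.mem_filter.1 hv
        rw [← h3]
        exact hA v h2) (by
        intro v hv
        obtain ⟨h2, h3⟩ := Finset.mem_filter.1 hv
        rw [← h3]
        exact hB v h2) (hAB.mono (Finset.filter_subset _ _) (Finset.filter_subset _ _))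
    have e1 : ∏ v ∈ (A ∪ B).filter (fun v => nn v < m + 1), xl k (nn v) =
        xl k m ^ ((A.filter fun v => nn v = m) ∪ (B.filter fun v => nn v = m)).card *
          ∏ v ∈ (A ∪ B).filter (fun v => nn v < m), xl k (nn v) := by
      rw [filter_lt_succ', Finset.prod_union (filter_lt_succ nn _ m), mul_comm]
      congr 1
      rw [← Finset.filter_union, Finset.prod_congr rfl (g := fun _ => xl k m),
        Finset.prod_const]
      intro v hv
      rw [(Finset.mem_filter.1 hv).2]
    have e2 : sg (A.filter fun v => nn v < m + 1) (B.filter fun v => nn v < m + 1) =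
        sg (A.filter fun v => nn v < m) (B.filter fun v => nn v < m) +
          sg (A.filter fun v => nn v = m) (B.filter fun v => nn v = m) := by
      unfold sg
      rw [filter_lt_succ', filter_lt_succ', Finset.sum_union (filter_lt_succ nn _ m),
        Finset.sum_union (filter_lt_succ nn _ m)]
      abel
    rw [e1, e2]
    exact h1

omit [AddCommGroup G] [DecidableEq G] in
theorem lvl_spec {W : ℕ → Finset G} (hW : Antitone W) {N : ℕ} (hN : W N = ∅) {j : ℕ} {v : G}
    (hv : v ∈ W j) : j ≤ lvl W v ∧ v ∈ W (lvl W v) ∧ lvl W v < N := by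
  have hne : {i | v ∉ W (i + 1)}.Nonempty := by
    refine ⟨N, ?_⟩
    have h1 : W (N + 1) ⊆ W N := hW (by omega)
    rw [hN] at h1
    exact fun h => absurd (h1 h) (Finset.notMem_empty _)
  have h2 : v ∉ W (lvl W v + 1) := Nat.sInf_mem hne
  have h3 : j ≤ lvl W v := by
    by_contra hcon
    exact h2 (hW (by omega) hv)
  have h4 : v ∈ W (lvl W v) := by
    rcases Nat.eq_zero_or_pos (lvl W v) with h | h
    · rw [h]
      exact hW (by omega) hv
    · have h5 : lvl W v - 1 ∉ {i | v ∉ W (i + 1)} := by
        apply Nat.notMem_of_lt_sInf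
        show lvl W v - 1 < lvl W v
        omega
      have h6 : v ∈ W (lvl W v - 1 + 1) := by
        by_contra hcon
        exact h5 hcon
      rwa [Nat.sub_add_cancel h] at h6
  refine ⟨h3, h4, ?_⟩
  by_contra hcon
  have h7 : W (lvl W v) ⊆ W N := hW (by omega)
  rw [hN] at h7
  exact absurd (h7 h4) (Finset.notMem_empty _)

/-- Planting a signed set of deep elements costs the product of the bases. -/
theorem EE_shift {k : ℕ} (hk : 1 ≤ k) {N : ℕ} {S : St G} (hW : Antitone S.W)
    (hN : S.W N = ∅) (i : ℕ) {T : Finset G × Finset G} (hT : T ∈ SS (S.W (i + 2))) :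
    (EE k N S i 0).toReal * ∏ v ∈ T.1 ∪ T.2, xd k (lvl S.W v - i) ≤
      (EE k N S i (sg T.1 T.2)).toReal := by
  classical
  unfold SS at hT
  obtain ⟨hT1, hdis⟩ := Finset.mem_filter.1 hT
  obtain ⟨hTA, hTB⟩ := Finset.mem_product.1 hT1
  have hA := Finset.mem_powerset.1 hTA
  have hB := Finset.mem_powerset.1 hTB
  set nn : G → ℕ := fun v => lvl S.W v - i - 2 with hnn
  have hsp : ∀ v ∈ S.W (i + 2), v ∈ S.W (i + 2 + nn v) ∧ nn v < N := by
    intro v hv
    obtain ⟨h1, h2, h3⟩ := lvl_spec hW hN hv
    have e : i + 2 + nn v = lvl S.W v := by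
      simp only [hnn]
      omega
    rw [e]
    exact ⟨h2, by omega⟩
  have key := PL.LL k (VV (yb k) (S.l i)) hdis nn (fun v hv => (hsp v (hA hv)).1)
    (fun v hv => (hsp v (hB hv)).1) N 0
  have f1 : (T.1 ∪ T.2).filter (fun v => nn v < N) = T.1 ∪ T.2 := by
    apply Finset.filter_true_of_mem
    intro v hv
    rcases Finset.mem_union.1 hv with h | h
    · exact (hsp v (hA h)).2
    · exact (hsp v (hB h)).2
  have f2 : T.1.filter (fun v => nn v < N) = T.1 :=
    Finset.filter_true_of_mem fun v hv => (hsp v (hA hv)).2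
  have f3 : T.2.filter (fun v => nn v < N) = T.2 :=
    Finset.filter_true_of_mem fun v hv => (hsp v (hB hv)).2
  rw [f1, f2, f3, zero_add, zero_sub] at key
  have hE : SPG.LL k S.W i (VV (yb k) (S.l i)) N = EE k N S i := rfl
  rw [hE] at key
  have hpd := EE_PD hk N S i
  have hf0 := EE_Fin0 hk N S i
  have hneg : EE k N S i (-sg T.1 T.2) = EE k N S i (sg T.1 T.2) := hpd.neg _
  rw [hneg, ← sq] at key
  have key2 : (∏ v ∈ T.1 ∪ T.2, xl k (nn v)) * EE k N S i 0 ≤ EE k N S i (sg T.1 T.2) := by
    by_contra hcon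
    push Not at hcon
    exact absurd key (not_le.2 (ENNReal.pow_lt_pow_left (by norm_num) hcon))
  have key3 := ENNReal.toReal_mono (ne_top_of_le_ne_top hf0.2 (hpd.le_zero _)) key2
  rw [ENNReal.toReal_mul, ENNReal.toReal_prod, mul_comm] at key3
  refine le_trans (le_of_eq ?_) key3
  congr 1
  refine Finset.prod_congr rfl fun v _ => ?_
  unfold xl xd
  rw [ENNReal.toReal_ofReal]
  rw [sub_nonneg, div_le_one (by positivity)]
  exact one_le_pow₀ (by norm_num)

end Pool.Agent.SPG
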