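import Pool.Agent.SP.Level
import Pool.Agent.RR.Lll2

/-!
Colouring of one level with own size thresholds, from abstract hypotheses on the gas.
-/

set_option autoImplicit false

namespace Pool.Agent.SPG

open Finset
open scoped ENNReal
open Pool.Agent.SP

variable {G : Type*} [AddCommGroup G] [DecidableEq G]

/-- The hypotheses on the gas of one level: short sets are visible, and the count of free sets. -/
structure LA (k base Q : ℕ) (P : Finset G) (M : G → ℝ≥0∞) : Prop where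
  pd : PD M
  f0 : Fin0 M
  hk : 100 ≤ k
  b4 : 4 ≤ base
  hQ : 15 ≤ Q
  hb : 1280 * 2 ^ 10 * k ^ 3 * (2 * k + 1) ≤ 2 ^ base
  len : ∀ A B : Finset G, A ⊆ P → B ⊆ P → Disjoint A B → (A ∪ B).Nonempty →
    (A ∪ B).card ≤ 2 ^ k → kap M (sg A B) ≤ 1 / 8 → base ≤ (A ∪ B).card
  mu : ∀ (s : ℝ), 1 / 2 ^ (9 * k) ≤ s → 4 * s ≤ 1 / (2 ^ 28 * (k : ℝ) ^ 3) → ∀ g : G,
    ∑ T ∈ Fam M P (2 ^ k) s g, (1 / 2 ^ Q : ℝ) ^ (T.1 ∪ T.2).card ≤ 640 / 2 ^ 15 / s

/-- A signed set of defect at most `s_j` without good parts is long. -/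
theorem lv_long {k base Q : ℕ} {P : Finset G} {M : G → ℝ≥0∞} (h : LA k base Q P M) :
    ∀ j : ℕ, ∀ A B : Finset G, A ⊆ P → B ⊆ P → Disjoint A B → (A ∪ B).Nonempty →
      (A ∪ B).card ≤ 2 ^ k → kap M (sg A B) ≤ lc_sj k j →
      (∀ i ≤ j, ∀ A' ⊆ A, ∀ B' ⊆ B, (A' ∪ B').Nonempty → ¬ LcGood M (lc_sj k i) (A', B')) →
      base * Nat.fib (j + 2) ≤ (A ∪ B).card := by
  have hk := h.hk
  have hM := h.pd
  have h0 := h.f0
  have hk1 : 1 ≤ k := by omega
  -- the base: any set of defect at most `16 s_0`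
  have base : ∀ A B : Finset G, A ⊆ P → B ⊆ P → Disjoint A B → (A ∪ B).Nonempty →
      (A ∪ B).card ≤ 2 ^ k → kap M (sg A B) ≤ 16 * lc_sj k 0 → base ≤ (A ∪ B).card := by
    intro A B hA hB hAB hne hc hs
    exact h.len A B hA hB hAB hne hc (hs.trans (lc_sj_zero_le hk))
  intro j
  induction j using Nat.strong_induction_on with
  | _ j ih =>
    intro A B hA hB hAB hne hc hs hno
    have hng := hno j (le_refl _) A (Subset.refl _) B (Subset.refl _) hne
    unfold LcGood at hng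
    push Not at hng
    obtain ⟨A', hA', B', hB', hne', hneq, hs'⟩ := hng hs
    replace hA' : A' ⊆ A := hA'
    replace hB' : B' ⊆ B := hB'
    rw [Ne, Prod.mk.injEq] at hneq
    have hdis' : Disjoint A' B' := hAB.mono hA' hB'
    have hsub' : A' ∪ B' ⊆ A ∪ B := Finset.union_subset_union hA' hB'
    have hc' : (A' ∪ B').card ≤ 2 ^ k := (Finset.card_le_card hsub').trans hc
    have hdis'' : Disjoint (A \ A') (B \ B') :=
      hAB.mono Finset.sdiff_subset Finset.sdiff_subset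
    have hsub'' : (A \ A') ∪ (B \ B') ⊆ A ∪ B :=
      Finset.union_subset_union Finset.sdiff_subset Finset.sdiff_subset
    have hc'' : ((A \ A') ∪ (B \ B')).card ≤ 2 ^ k := (Finset.card_le_card hsub'').trans hc
    have hne'' : ((A \ A') ∪ (B \ B')).Nonempty := by
      by_contra hcon
      rw [Finset.not_nonempty_iff_eq_empty, Finset.union_eq_empty, Finset.sdiff_eq_empty_iff_subset,
        Finset.sdiff_eq_empty_iff_subset] at hcon
      exact hneq ⟨hA'.antisymm hcon.1, hB'.antisymm hcon.2⟩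
    have hcard : (A ∪ B).card = (A' ∪ B').card + ((A \ A') ∪ (B \ B')).card := by
      rw [Finset.card_union_of_disjoint hAB, Finset.card_union_of_disjoint hdis',
        Finset.card_union_of_disjoint hdis'', Finset.card_sdiff_of_subset hA',
        Finset.card_sdiff_of_subset hB']
      have := Finset.card_le_card hA'
      have := Finset.card_le_card hB'
      omega
    have hcompl := lc_kap_compl hM h0 hA' hB' (lc_sj_pos hk1 j).le hs hs'
    have hno' : ∀ i ≤ j, ∀ A₁ ⊆ A', ∀ B₁ ⊆ B', (A₁ ∪ B₁).Nonempty →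
        ¬ LcGood M (lc_sj k i) (A₁, B₁) := fun i hi A₁ h1 B₁ h2 h3 =>
      hno i hi A₁ (h1.trans hA') B₁ (h2.trans hB') h3
    have hno'' : ∀ i ≤ j, ∀ A₁ ⊆ A \ A', ∀ B₁ ⊆ B \ B', (A₁ ∪ B₁).Nonempty →
        ¬ LcGood M (lc_sj k i) (A₁, B₁) := fun i hi A₁ h1 B₁ h2 h3 =>
      hno i hi A₁ (h1.trans Finset.sdiff_subset) B₁ (h2.trans Finset.sdiff_subset) h3
    rcases j with _ | _ | j
    · -- level 0
      have := base A B hA hB hAB hne hc (by have := lc_sj_pos hk1 0; linarith)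
      simpa using this
    · -- level 1
      have h1 : kap M (sg A' B') ≤ lc_sj k 0 := by
        rw [← lc_sj_succ]; exact hs'
      have h2 : kap M (sg (A \ A') (B \ B')) ≤ 16 * lc_sj k 0 := by
        have e := lc_sj_succ k 0
        have := lc_sj_pos hk1 0
        refine hcompl.trans ?_
        rw [zero_add] at e ⊢
        linarith
      have b1 := base A' B' (hA'.trans hA) (hB'.trans hB) hdis' hne' hc' (by
        have := lc_sj_pos hk1 0; linarith)
      have b2 := base _ _ (Finset.sdiff_subset.trans hA) (Finset.sdiff_subset.trans hB) hdis''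
        hne'' hc'' h2
      have e3 : Nat.fib (0 + 1 + 2) = 2 := by decide
      rw [e3, hcard]
      omega
    · have h1 : kap M (sg A' B') ≤ lc_sj k (j + 1) := by
        rw [← lc_sj_succ]; exact hs'
      have h2 : kap M (sg (A \ A') (B \ B')) ≤ lc_sj k j := by
        have e1 := lc_sj_succ k j
        have e2 := lc_sj_succ k (j + 1)
        have e3 := lc_sj_pos hk1 (j + 1 + 1)
        refine hcompl.trans ?_
        linarith
      have b1 := ih (j + 1) (by omega) A' B' (hA'.trans hA) (hB'.trans hB) hdis' hne' hc' h1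
        (fun i hi => hno' i (by omega))
      have b2 := ih j (by omega) _ _ (Finset.sdiff_subset.trans hA) (Finset.sdiff_subset.trans hB)
        hdis'' hne'' hc'' h2 (fun i hi => hno'' i (by omega))
      have e3 : Nat.fib (j + 1 + 1 + 2) = Nat.fib (j + 2) + Nat.fib (j + 1 + 2) :=
        Nat.fib_add_two
      rw [e3, hcard, mul_add]
      omega

theorem lv_ng_len {k base Q : ℕ} {P : Finset G} {M : G → ℝ≥0∞} (h : LA k base Q P M)
    {j : ℕ} {A B : Finset G}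
    (hA : A ⊆ P) (hB : B ⊆ P) (hAB : Disjoint A B) (hne : (A ∪ B).Nonempty)
    (hc : (A ∪ B).card ≤ 2 ^ k) (hT : LcNG M k j (A, B)) :
    base * max 1 (Nat.fib j) ≤ (A ∪ B).card := by
  have hk := h.hk
  have hk1 : 1 ≤ k := by omega
  obtain ⟨hg, hlow, hpart⟩ := hT
  have hbase : base ≤ (A ∪ B).card := by
    refine h.len A B hA hB hAB hne hc ?_
    have h1 := lc_sj_le_zero hk1 j
    have h2 := lc_sj_zero_le hk
    have h3 := lc_sj_pos hk1 0
    have h4 : kap M (sg A B) ≤ lc_sj k j := hg.1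
    linarith
  rcases j with _ | _ | j
  · simpa using hbase
  · simpa using hbase
  · have hng := hlow (j + 1) (by omega)
    unfold LcGood at hng
    push Not at hng
    have h4 : kap M (sg A B) ≤ lc_sj k (j + 1 + 1) := hg.1
    have e1 := lc_sj_succ k (j + 1)
    have e2 := lc_sj_succ k j
    have e3 := lc_sj_pos hk1 (j + 1 + 1)
    obtain ⟨A', hA', B', hB', hne', hneq, hs'⟩ := hng (by
      show kap M (sg A B) ≤ lc_sj k (j + 1)
      linarith)
    replace hA' : A' ⊆ A := hA'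
    replace hB' : B' ⊆ B := hB'
    have hsub' : A' ∪ B' ⊆ A ∪ B := Finset.union_subset_union hA' hB'
    have hcl := Finset.card_le_card hsub'
    have b1 := lv_long h j A' B' (hA'.trans hA) (hB'.trans hB)
      (hAB.mono hA' hB') hne' (hcl.trans hc) (by rw [e2] at hs'; exact hs') (by
      intro i hi A₁ h1 B₁ h2 h3
      refine hpart i (by omega) A₁ (h1.trans hA') B₁ (h2.trans hB') h3 ?_
      intro hcon
      rw [Prod.mk.injEq] at hcon
      apply hneq
      rw [Prod.mk.injEq]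
      exact ⟨hA'.antisymm (hcon.1 ▸ h1), hB'.antisymm (hcon.2 ▸ h2)⟩)
    rcases le_total 1 (Nat.fib (j + 1 + 1)) with h5 | h5
    · rw [max_eq_right h5]
      exact b1.trans hcl
    · rw [max_eq_left h5, mul_one]
      exact hbase

/-- The weight of the minimal good sets of level `j` through `v`. -/
theorem lv_weight {k base Q : ℕ} {P : Finset G} {M : G → ℝ≥0∞} (h : LA k base Q P M)
    {j : ℕ} (hj : j ≤ 2 * k) (v : G) :
    ∑ T ∈ (LcNGs M P k j).filter (fun T => v ∈ T.1 ∪ T.2),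
      (1 / 2 ^ (Q + 1) : ℝ) ^ (T.1 ∪ T.2).card ≤ 1 / (4 * (2 * k + 1)) := by
  classical
  have hk := h.hk
  have hM := h.pd
  have hb4 := h.b4
  have hk1 : 1 ≤ k := by omega
  have hk' : (0 : ℝ) < k := by exact_mod_cast hk1
  have hsp := lc_sj_pos hk1 j
  set ℓ : ℕ := base * max 1 (Nat.fib j) with hℓ
  have hlen : ∀ T ∈ LcNGs M P k j, ℓ ≤ (T.1 ∪ T.2).card := by
    intro T hT
    obtain ⟨⟨hA, hB⟩, hd, hne, hc, hng⟩ := lc_mem_NGs.1 hT
    exact lv_ng_len h hA hB hd hne hc hng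
  have hℓ1 : base ≤ ℓ := by
    rw [hℓ]
    exact Nat.le_mul_of_pos_right _ (by positivity)
  have h2 : ∀ T ∈ LcNGs M P k j, 2 ≤ (T.1 ∪ T.2).card := fun T hT => by
    have := hlen T hT
    omega
  have hs' : 4 * lc_sj k j ≤ 1 / (2 ^ 28 * (k : ℝ) ^ 3) := by
    have h3 := lc_sj_le_zero hk1 j
    have e : 4 * lc_sj k 0 = 1 / (2 ^ 28 * (k : ℝ) ^ 3) := by
      unfold lc_sj
      rw [pow_zero]
      field_simp
      norm_num
    linarith
  have c1 := lc_count_pos hM P j v h2 (1 / 2 ^ Q) (by positivity)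
  have c2 := lc_count_neg hM P j v h2 (1 / 2 ^ Q) (by positivity)
  have m1 := h.mu _ (lc_sj_ge hk hj) hs' (-v)
  have m2 := h.mu _ (lc_sj_ge hk hj) hs' v
  set S := (LcNGs M P k j).filter (fun T => v ∈ T.1 ∪ T.2) with hS
  have hsplit : ∑ T ∈ S, (1 / 2 ^ Q : ℝ) ^ ((T.1 ∪ T.2).card - 1) ≤
      640 / 2 ^ 15 / lc_sj k j + 640 / 2 ^ 15 / lc_sj k j := by
    have hsub : S ⊆ (LcNGs M P k j).filter (fun T => v ∈ T.1) ∪
        (LcNGs M P k j).filter (fun T => v ∈ T.2) := by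
      intro T hT
      obtain ⟨hT1, hv⟩ := Finset.mem_filter.1 hT
      rw [Finset.mem_union, Finset.mem_filter, Finset.mem_filter]
      rcases Finset.mem_union.1 hv with hv | hv
      · exact Or.inl ⟨hT1, hv⟩
      · exact Or.inr ⟨hT1, hv⟩
    refine (Finset.sum_le_sum_of_subset_of_nonneg hsub (fun T _ _ => by positivity)).trans ?_
    have hui := Finset.sum_union_inter (f := fun T : Finset G × Finset G =>
      (1 / 2 ^ Q : ℝ) ^ ((T.1 ∪ T.2).card - 1))
      (s₁ := (LcNGs M P k j).filter (fun T => v ∈ T.1))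
      (s₂ := (LcNGs M P k j).filter (fun T => v ∈ T.2))
    have hin : 0 ≤ ∑ T ∈ (LcNGs M P k j).filter (fun T => v ∈ T.1) ∩
        (LcNGs M P k j).filter (fun T => v ∈ T.2),
        (1 / 2 ^ Q : ℝ) ^ ((T.1 ∪ T.2).card - 1) := Finset.sum_nonneg fun T _ => by positivity
    have := add_le_add (c1.trans m1) (c2.trans m2)
    linarith
  have hterm : ∀ T ∈ S, (1 / 2 ^ (Q + 1) : ℝ) ^ (T.1 ∪ T.2).card ≤
      (1 / 2) ^ ℓ * (1 / 2 ^ Q) * (1 / 2 ^ Q : ℝ) ^ ((T.1 ∪ T.2).card - 1) := by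
    intro T hT
    have hT1 := (Finset.mem_filter.1 hT).1
    have h3 := hlen T hT1
    obtain ⟨m, hm⟩ : ∃ m, (T.1 ∪ T.2).card = m + 1 := ⟨(T.1 ∪ T.2).card - 1, by omega⟩
    have h4 : (1 / 2 : ℝ) ^ (T.1 ∪ T.2).card ≤ (1 / 2) ^ ℓ :=
      pow_le_pow_of_le_one (by norm_num) (by norm_num) h3
    calc (1 / 2 ^ (Q + 1) : ℝ) ^ (T.1 ∪ T.2).card
        = (1 / 2) ^ (T.1 ∪ T.2).card * (1 / 2 ^ Q) ^ (T.1 ∪ T.2).card := by
          rw [← mul_pow]
          congr 1
          rw [pow_succ]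
          field_simp
      _ ≤ (1 / 2) ^ ℓ * (1 / 2 ^ Q) ^ (T.1 ∪ T.2).card :=
          mul_le_mul_of_nonneg_right h4 (by positivity)
      _ = (1 / 2) ^ ℓ * (1 / 2 ^ Q) * (1 / 2 ^ Q : ℝ) ^ ((T.1 ∪ T.2).card - 1) := by
          rw [hm, Nat.add_sub_cancel, pow_succ (1 / 2 ^ Q : ℝ) m]
          ring
  have hsum : ∑ T ∈ S, (1 / 2 ^ (Q + 1) : ℝ) ^ (T.1 ∪ T.2).card ≤
      (1 / 2) ^ ℓ * (1 / 2 ^ 15) * (640 / 2 ^ 15 / lc_sj k j + 640 / 2 ^ 15 / lc_sj k j) := by
    refine (Finset.sum_le_sum hterm).trans ?_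
    rw [← Finset.mul_sum]
    have hQ15 : (1 / 2 ^ Q : ℝ) ≤ 1 / 2 ^ 15 :=
      one_div_le_one_div_of_le (by norm_num) (pow_le_pow_right₀ (by norm_num) h.hQ)
    refine mul_le_mul ?_ hsplit ?_ (by positivity)
    · exact mul_le_mul_of_nonneg_left hQ15 (by positivity)
    · exact Finset.sum_nonneg fun T _ => by positivity
  refine hsum.trans ?_
  -- the numbers
  have hfib := Nat.le_fib_add_one j
  have hpow : (16 : ℝ) ^ j * (1 / 2) ^ ℓ ≤ 2 ^ 8 / 2 ^ base := by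
    have h5 : 4 * j + base ≤ ℓ + 8 := by
      have h6 : Nat.fib j ≤ max 1 (Nat.fib j) := le_max_right _ _
      have h7 : 1 ≤ max 1 (Nat.fib j) := le_max_left _ _
      obtain ⟨t, ht⟩ : ∃ t, max 1 (Nat.fib j) = t + 1 := ⟨max 1 (Nat.fib j) - 1, by omega⟩
      have h8 : j ≤ t + 2 := by omega
      have h9 : 4 * t ≤ base * t := Nat.mul_le_mul_right _ (by omega)
      rw [hℓ, ht, mul_add, mul_one]
      omega
    have h6 : (2 : ℝ) ^ (4 * j + base) ≤ 2 ^ (ℓ + 8) :=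
      pow_le_pow_right₀ (by norm_num) h5
    rw [one_div, inv_pow, ← div_eq_mul_inv, div_le_div_iff₀ (by positivity) (by positivity)]
    have e16 : (16 : ℝ) = 2 ^ 4 := by norm_num
    rw [e16, ← pow_mul, ← pow_add, ← pow_add, add_comm 8 ℓ]
    exact h6
  have e1 : (1 / 2 : ℝ) ^ ℓ * (1 / 2 ^ 15) * (640 / 2 ^ 15 / lc_sj k j + 640 / 2 ^ 15 / lc_sj k j) =
      1280 * (k : ℝ) ^ 3 * (16 ^ j * (1 / 2) ^ ℓ) := by
    unfold lc_sj
    field_simp
    norm_num
  rw [e1]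
  have hb : (1280 * 2 ^ 10 * (k : ℝ) ^ 3 * (2 * (k : ℝ) + 1)) ≤ 2 ^ base := by
    exact_mod_cast h.hb
  calc 1280 * (k : ℝ) ^ 3 * ((16 : ℝ) ^ j * (1 / 2) ^ ℓ)
      ≤ 1280 * (k : ℝ) ^ 3 * ((2 : ℝ) ^ 8 / 2 ^ base) :=
        mul_le_mul_of_nonneg_left hpow (by positivity)
    _ ≤ 1 / (4 * (2 * (k : ℝ) + 1)) := by
        rw [← mul_div_assoc, div_le_div_iff₀ (by positivity) (by positivity), one_mul]
        calc 1280 * (k : ℝ) ^ 3 * 2 ^ 8 * (4 * (2 * (k : ℝ) + 1))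
            = 1280 * 2 ^ 10 * (k : ℝ) ^ 3 * (2 * (k : ℝ) + 1) := by ring
          _ ≤ 2 ^ base := hb

theorem lv_fib (m : ℕ) : 2 ^ m ≤ Nat.fib (2 * m + 2) := by
  induction m with
  | zero => decide
  | succ m ih =>
    have e1 : Nat.fib (2 * (m + 1) + 2) = Nat.fib (2 * m + 2) + Nat.fib (2 * m + 3) := by
      rw [show 2 * (m + 1) + 2 = (2 * m + 2) + 2 by ring, Nat.fib_add_two]
    have e2 : Nat.fib (2 * m + 2) ≤ Nat.fib (2 * m + 3) := Nat.fib_le_fib_succ
    rw [e1, pow_succ]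
    omega

/-- The grid form: sets without the defect of their size. -/
theorem lv_grid {k base Q : ℕ} {P : Finset G} {M : G → ℝ≥0∞} (h : LA k base Q P M) :
    ∃ f : G → Fin (2 ^ (2 * (Q + 1) + 2)), ∀ A B : Finset G, A ⊆ P → B ⊆ P →
      Disjoint A B → (A ∪ B).Nonempty → (A ∪ B).card ≤ 2 ^ k →
      (∀ x ∈ A ∪ B, ∀ y ∈ A ∪ B, f x = f y) →
      ∀ j ≤ 2 * k, (A ∪ B).card < base * Nat.fib (j + 2) → lc_sj k j < kap M (sg A B) := by
  classical
  have hk := h.hk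
  have hb4 := h.b4
  set R := (Finset.range (2 * k + 1)).biUnion (fun j => LcNGs M P k j) with hR
  set 𝒢 : Finset (Finset G) := R.image (fun T => T.1 ∪ T.2) with h𝒢
  have hlen : ∀ T ∈ R, 2 ≤ (T.1 ∪ T.2).card := by
    intro T hT
    obtain ⟨j, _, hT1⟩ := Finset.mem_biUnion.1 hT
    obtain ⟨⟨hA, hB⟩, hd, hne, hc, hng⟩ := lc_mem_NGs.1 hT1
    have h1 := lv_ng_len h hA hB hd hne hc hng
    have h2 : base ≤ base * max 1 (Nat.fib j) :=
      Nat.le_mul_of_pos_right _ (by positivity)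
    omega
  obtain ⟨f, hf⟩ := RR.lll_hyper2 (R := Q + 1) (by omega) 𝒢 (by
    intro D hD
    obtain ⟨T, hT, rfl⟩ := Finset.mem_image.1 hD
    exact hlen T hT) (by
    intro v
    have s1 : ∑ D ∈ 𝒢.filter (fun D => v ∈ D), (1 / 2 ^ (Q + 1) : ℝ) ^ D.card ≤
        ∑ T ∈ R.filter (fun T => v ∈ T.1 ∪ T.2), (1 / 2 ^ (Q + 1) : ℝ) ^ (T.1 ∪ T.2).card := by
      have e : 𝒢.filter (fun D => v ∈ D) =
          (R.filter (fun T => v ∈ T.1 ∪ T.2)).image (fun T => T.1 ∪ T.2) := by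
        rw [h𝒢, Finset.filter_image]
      rw [e]
      exact Finset.sum_image_le_of_nonneg (fun T _ => by positivity)
    refine s1.trans ?_
    have e2 : R.filter (fun T => v ∈ T.1 ∪ T.2) = (Finset.range (2 * k + 1)).biUnion
        (fun j => (LcNGs M P k j).filter (fun T => v ∈ T.1 ∪ T.2)) := by
      rw [hR, Finset.filter_biUnion]
    rw [e2]
    have s2 : ∑ T ∈ (Finset.range (2 * k + 1)).biUnion
        (fun j => (LcNGs M P k j).filter (fun T => v ∈ T.1 ∪ T.2)),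
        (1 / 2 ^ (Q + 1) : ℝ) ^ (T.1 ∪ T.2).card ≤ ∑ j ∈ Finset.range (2 * k + 1),
          ∑ T ∈ (LcNGs M P k j).filter (fun T => v ∈ T.1 ∪ T.2),
            (1 / 2 ^ (Q + 1) : ℝ) ^ (T.1 ∪ T.2).card := by
      refine le_of_eq (Finset.sum_biUnion ?_)
      intro i _ j _ hij
      rw [Function.onFun, Finset.disjoint_left]
      intro T hT hT'
      have g1 := (lc_mem_NGs.1 (Finset.mem_filter.1 hT).1).2.2.2.2
      have g2 := (lc_mem_NGs.1 (Finset.mem_filter.1 hT').1).2.2.2.2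
      rcases lt_or_gt_of_ne hij with hlt | hlt
      · exact g2.2.1 i hlt g1.1
      · exact g1.2.1 j hlt g2.1
    refine s2.trans ?_
    calc ∑ j ∈ Finset.range (2 * k + 1),
          ∑ T ∈ (LcNGs M P k j).filter (fun T => v ∈ T.1 ∪ T.2),
            (1 / 2 ^ (Q + 1) : ℝ) ^ (T.1 ∪ T.2).card
        ≤ ∑ _j ∈ Finset.range (2 * k + 1), (1 / (4 * (2 * k + 1)) : ℝ) := by
          refine Finset.sum_le_sum fun j hj => ?_
          exact lv_weight h (by have := Finset.mem_range.1 hj; omega) v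
      _ = 1 / 4 := by
          rw [Finset.sum_const, Finset.card_range, nsmul_eq_mul]
          push_cast
          field_simp)
  refine ⟨f, ?_⟩
  intro A B hA hB hAB hne hc hmono j hj hcard
  by_contra hcon
  rw [not_lt] at hcon
  -- a good part exists
  have hex : ∃ n : ℕ, ∃ i ≤ 2 * k, ∃ A' ⊆ A, ∃ B' ⊆ B, (A' ∪ B').Nonempty ∧
      LcGood M (lc_sj k i) (A', B') ∧ (A' ∪ B').card = n := by
    by_contra hno
    push Not at hno
    have h1 := lv_long h j A B hA hB hAB hne hc hcon (by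
      intro i hi A' h1 B' h2 h3 h4
      exact hno _ i (hi.trans hj) A' h1 B' h2 h3 h4 rfl)
    omega
  obtain ⟨i₀, hi₀, A', hA', B', hB', hne', hg', hcard'⟩ := Nat.find_spec hex
  have hmin := fun m => Nat.find_min hex (m := m)
  have hex2 : ∃ i, LcGood M (lc_sj k i) (A', B') := ⟨i₀, hg'⟩
  have hi1 : Nat.find hex2 ≤ i₀ := Nat.find_min' hex2 hg'
  have hmem : (A', B') ∈ LcNGs M P k (Nat.find hex2) := by
    rw [lc_mem_NGs]
    refine ⟨⟨hA'.trans hA, hB'.trans hB⟩, hAB.mono hA' hB', hne', ?_, Nat.find_spec hex2,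
      fun i hi => Nat.find_min hex2 hi, ?_⟩
    · exact (Finset.card_le_card (Finset.union_subset_union hA' hB')).trans hc
    · intro i hi A₁ h1 B₁ h2 h3 h4 h5
      replace h1 : A₁ ⊆ A' := h1
      replace h2 : B₁ ⊆ B' := h2
      have h6 : (A₁ ∪ B₁).card < Nat.find hex := by
        rw [← hcard']
        have hd' : Disjoint A' B' := hAB.mono hA' hB'
        rw [Finset.card_union_of_disjoint (hd'.mono h1 h2), Finset.card_union_of_disjoint hd']
        have c1 := Finset.card_le_card h1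
        have c2 := Finset.card_le_card h2
        by_contra hcon2
        have c3 : A₁ = A' := Finset.eq_of_subset_of_card_le h1 (by omega)
        have c4 : B₁ = B' := Finset.eq_of_subset_of_card_le h2 (by omega)
        exact h4 (by rw [c3, c4])
      exact hmin _ h6 ⟨i, by omega, A₁, h1.trans hA', B₁, h2.trans hB', h3, h5, rfl⟩
  have hmem2 : A' ∪ B' ∈ 𝒢 := by
    rw [h𝒢]
    refine Finset.mem_image.2 ⟨(A', B'), ?_, rfl⟩
    exact Finset.mem_biUnion.2 ⟨Nat.find hex2, Finset.mem_range.2 (by omega), hmem⟩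
  obtain ⟨x, hx, y, hy, hxy⟩ := hf _ hmem2
  have hsub := Finset.union_subset_union hA' hB'
  exact hxy (hmono x (hsub hx) y (hsub hy))

theorem lv_ratio (j : ℕ) (hj : 1 ≤ j) : 3 * Nat.fib (j + 1) ≤ 2 * Nat.fib (j + 2) := by
  rcases j with _ | j
  · omega
  · have e1 : Nat.fib (j + 1 + 2) = Nat.fib (j + 1) + Nat.fib (j + 1 + 1) := Nat.fib_add_two
    have e2 : Nat.fib (j + 2) = Nat.fib j + Nat.fib (j + 1) := Nat.fib_add_two
    have e3 : Nat.fib j ≤ Nat.fib (j + 1) := Nat.fib_le_fib_succ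
    have e4 : j + 1 + 1 = j + 2 := rfl
    rw [e4] at e1 ⊢
    omega

theorem lv_pow (j : ℕ) : 16 ^ j ≤ Nat.fib (j + 1) ^ 8 * 16 := by
  induction j with
  | zero => simp
  | succ j ih =>
    rcases Nat.eq_zero_or_pos j with h0 | h0
    · subst h0
      decide
    have h1 := lv_ratio j h0
    have h2 : (3 * Nat.fib (j + 1)) ^ 8 ≤ (2 * Nat.fib (j + 2)) ^ 8 := Nat.pow_le_pow_left h1 8
    rw [mul_pow, mul_pow] at h2
    have e : j + 1 + 1 = j + 2 := rfl
    rw [pow_succ, e]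
    generalize Nat.fib (j + 1) ^ 8 = x at *
    generalize Nat.fib (j + 2) ^ 8 = y at *
    norm_num at h2
    omega

/-- **Own size thresholds.** -/
theorem lv_own {k base Q r : ℕ} {P : Finset G} {M : G → ℝ≥0∞} (h : LA k base Q P M)
    (hr : 18 * k ≤ r * base) (hr2 : 1 ≤ r) :
    ∃ f : G → Fin (2 ^ (2 * (Q + 1) + 2)), ∀ A B : Finset G, A ⊆ P → B ⊆ P →
      Disjoint A B → (A ∪ B).Nonempty → (A ∪ B).card ≤ 2 ^ k →
      (∀ x ∈ A ∪ B, ∀ y ∈ A ∪ B, f x = f y) →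
      1 / (2 ^ 37 * (r : ℝ) ^ 3) / ((A ∪ B).card : ℝ) ^ 11 ≤ kap M (sg A B) ∧
        1 / 2 ^ (9 * k) < kap M (sg A B) := by
  have hk := h.hk
  have hb4 := h.b4
  have hkR : (0 : ℝ) < k := by exact_mod_cast (by omega : 0 < k)
  have hrR : (1 : ℝ) ≤ r := by exact_mod_cast hr2
  obtain ⟨f, hf⟩ := lv_grid h
  refine ⟨f, fun A B hA hB hAB hne hc hmono => ?_⟩
  have hg := hf A B hA hB hAB hne hc hmono
  have hfib := lv_fib k
  have hn1 : 1 ≤ (A ∪ B).card := Finset.card_pos.2 hne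
  set n := (A ∪ B).card with hn
  have hnR : (1 : ℝ) ≤ n := by exact_mod_cast hn1
  have hlast : n < base * Nat.fib (2 * k + 2) := by
    have h1 : 0 < 2 ^ k := by positivity
    calc n ≤ 2 ^ k := hc
      _ < 4 * 2 ^ k := by omega
      _ ≤ base * Nat.fib (2 * k + 2) := Nat.mul_le_mul hb4 hfib
  refine ⟨?_, lt_of_le_of_lt (lc_sj_ge hk le_rfl) (hg (2 * k) le_rfl hlast)⟩
  by_cases hsmall : n < base
  · -- short sets
    have h1 : 1 / 8 < kap M (sg A B) := by
      by_contra hcon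
      rw [not_lt] at hcon
      have := h.len A B hA hB hAB hne hc hcon
      omega
    refine le_trans ?_ h1.le
    have h2 : (8 : ℝ) ≤ 2 ^ 37 * (r : ℝ) ^ 3 := by
      have : (1 : ℝ) ≤ (r : ℝ) ^ 3 := one_le_pow₀ hrR
      nlinarith
    have h3 : (1 : ℝ) ≤ (n : ℝ) ^ 11 := one_le_pow₀ hnR
    calc 1 / (2 ^ 37 * (r : ℝ) ^ 3) / (n : ℝ) ^ 11 ≤ 1 / (2 ^ 37 * (r : ℝ) ^ 3) :=
          div_le_self (by positivity) h3
      _ ≤ 1 / 8 := one_div_le_one_div_of_le (by norm_num) h2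
  · rw [not_lt] at hsmall
    -- the right level
    have hex : ∃ j, n < base * Nat.fib (j + 2) := ⟨2 * k, hlast⟩
    set j := Nat.find hex with hj
    have h1 : n < base * Nat.fib (j + 2) := Nat.find_spec hex
    have h2 : j ≤ 2 * k := Nat.find_min' hex hlast
    have h3 : base * Nat.fib (j + 1) ≤ n := by
      rcases Nat.eq_zero_or_pos j with h0 | h0
      · rw [h0]
        simpa using hsmall
      · have := Nat.find_min hex (m := j - 1) (by omega)
        rw [not_lt] at this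
        have e : j - 1 + 2 = j + 1 := by omega
        rwa [e] at this
    have h4 := hg j h2 h1
    refine le_trans ?_ h4.le
    have h5 : Nat.fib (j + 1) ≤ n := by
      refine le_trans ?_ h3
      exact Nat.le_mul_of_pos_left _ (by omega)
    have h6 : 18 * k ≤ r * n := hr.trans (Nat.mul_le_mul_left _ hsmall)
    have h7 := lv_pow j
    have h5R : ((Nat.fib (j + 1) : ℕ) : ℝ) ≤ n := by exact_mod_cast h5
    have h6R : 18 * (k : ℝ) ≤ r * n := by exact_mod_cast h6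
    have h7R : (16 : ℝ) ^ j ≤ ((Nat.fib (j + 1) : ℕ) : ℝ) ^ 8 * 16 := by exact_mod_cast h7
    have h8 : (16 : ℝ) ^ j ≤ (n : ℝ) ^ 8 * 16 := h7R.trans (by gcongr)
    have h9 : (k : ℝ) ^ 3 ≤ (r : ℝ) ^ 3 * (n : ℝ) ^ 3 := by
      rw [← mul_pow]
      exact pow_le_pow_left₀ hkR.le (by linarith) 3
    unfold lc_sj
    rw [div_div, div_div]
    refine one_div_le_one_div_of_le (by positivity) ?_
    calc 2 ^ 30 * (k : ℝ) ^ 3 * 16 ^ j
        ≤ 2 ^ 30 * ((r : ℝ) ^ 3 * (n : ℝ) ^ 3) * ((n : ℝ) ^ 8 * 16) := by gcongr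
      _ = 2 ^ 34 * ((r : ℝ) ^ 3 * (n : ℝ) ^ 11) := by ring
      _ ≤ 2 ^ 37 * ((r : ℝ) ^ 3 * (n : ℝ) ^ 11) := by gcongr <;> norm_num
      _ = 2 ^ 37 * (r : ℝ) ^ 3 * (n : ℝ) ^ 11 := by ring

end Pool.Agent.SPG
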