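import Pool.Agent.SPG.Defs
import Pool.Agent.SPG.LevelA

/-!
Colouring of one level: the numbers, and the statement from the length and counting rows.
-/

set_option autoImplicit false

namespace Pool.Agent.SPG

open Finset
open scoped ENNReal
open Pool.Agent.Helper36.LL (conv dlt FF gw tern)
open Pool.Agent.SP (VV sg kap PD GI Ext Fin0 thg yb St SS Fam Free)

variable {G : Type*} [AddCommGroup G] [DecidableEq G]

theorem sq_le_two_pow (n : ℕ) (hn : 4 ≤ n) : n ^ 2 ≤ 2 ^ n := by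
  induction n, hn using Nat.le_induction with
  | base => norm_num
  | succ n hn ih =>
    have h1 : (n + 1) ^ 2 ≤ 2 * n ^ 2 := by nlinarith
    calc (n + 1) ^ 2 ≤ 2 * n ^ 2 := h1
      _ ≤ 2 * 2 ^ n := Nat.mul_le_mul_left _ ih
      _ = 2 ^ (n + 1) := by ring

/-- The numbers of the level colouring. -/
theorem lc_num {a k base : ℕ} (hk : 2 ^ (a + 20) ≤ k)
    (hb : 18 * k ≤ (a + 4) * base) : 1280 * 2 ^ 10 * k ^ 3 * (2 * k + 1) ≤ 2 ^ base := by
  have hk0 : k ≠ 0 := by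
    have : 0 < 2 ^ (a + 20) := by positivity
    omega
  obtain ⟨l, h1, h2⟩ : ∃ l, 2 ^ l ≤ k ∧ k < 2 ^ (l + 1) :=
    ⟨Nat.log 2 k, Nat.pow_log_le_self 2 hk0, Nat.lt_pow_succ_log_self (by norm_num) k⟩
  have h3 : a + 20 ≤ l := by
    by_contra hc
    have : 2 ^ (l + 1) ≤ 2 ^ (a + 20) := Nat.pow_le_pow_right (by norm_num) (by omega)
    omega
  have h4 : 23 + 4 * (l + 1) ≤ base := by
    by_contra hc
    have h5 : (a + 4) * base ≤ l * (26 + 4 * l) := Nat.mul_le_mul (by omega) (by omega)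
    have h6 := sq_le_two_pow l (by omega)
    have h7 : 18 * l ^ 2 ≤ l * (26 + 4 * l) := by omega
    have h8 : 20 * l ≤ l ^ 2 := by nlinarith
    nlinarith
  have h9 : k ^ 4 ≤ (2 ^ (l + 1)) ^ 4 := Nat.pow_le_pow_left h2.le 4
  have h10 : 2 ^ (23 + 4 * (l + 1)) ≤ 2 ^ base := Nat.pow_le_pow_right (by norm_num) h4
  have h11 : 2 ^ (23 + 4 * (l + 1)) = 2 ^ 23 * (2 ^ (l + 1)) ^ 4 := by
    rw [pow_add, ← pow_mul]
    congr 2
    ring
  have h12 : k ^ 3 * (2 * k + 1) ≤ 3 * k ^ 4 := by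
    have : k ^ 3 * (2 * k + 1) ≤ k ^ 3 * (3 * k) := Nat.mul_le_mul_left _ (by omega)
    calc _ ≤ k ^ 3 * (3 * k) := this
      _ = 3 * k ^ 4 := by ring
  calc 1280 * 2 ^ 10 * k ^ 3 * (2 * k + 1) = 1280 * 2 ^ 10 * (k ^ 3 * (2 * k + 1)) := by ring
    _ ≤ 1280 * 2 ^ 10 * (3 * k ^ 4) := Nat.mul_le_mul_left _ h12
    _ = 3932160 * k ^ 4 := by ring
    _ ≤ 2 ^ 23 * k ^ 4 := Nat.mul_le_mul_right _ (by norm_num)
    _ ≤ 2 ^ 23 * (2 ^ (l + 1)) ^ 4 := Nat.mul_le_mul_left _ h9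
    _ ≤ 2 ^ base := h11 ▸ h10

/-- The colouring of one level from the length of invisible sets and the count of free sets. -/
theorem level_colour_of {a k : ℕ} (ha : 2 ≤ a) (hk : 2 ^ (a + 20) ≤ k) {P : Finset G}
    {E U : G → ℝ≥0∞} (h : Lev a k P E U)
    (hlen : ∀ A B : Finset G, A ⊆ P → B ⊆ P → Disjoint A B → (A ∪ B).Nonempty →
      (A ∪ B).card ≤ 2 ^ k → kap (MQ a P U) (sg A B) ≤ 1 / 8 →
        18 * k ≤ (a + 4) * (A ∪ B).card)
    (hmu : ∀ s : ℝ, 1 / 2 ^ (9 * k) ≤ s → 4 * s ≤ 1 / (2 ^ 28 * (k : ℝ) ^ 3) → ∀ g : G,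
      ∑ T ∈ Fam (MQ a P U) P (2 ^ k) s g, (1 / 2 ^ (2 * a + 11) : ℝ) ^ (T.1 ∪ T.2).card ≤
        640 / 2 ^ 15 / s) :
    ∃ f : G → Fin (2 ^ (4 * a + 26)), ∀ A B : Finset G, A ⊆ P → B ⊆ P →
      Disjoint A B → (A ∪ B).Nonempty → (A ∪ B).card ≤ 2 ^ k →
      (∀ x ∈ A ∪ B, ∀ y ∈ A ∪ B, f x = f y) →
      cfa a / ((A ∪ B).card : ℝ) ^ 11 ≤ kap (MQ a P U) (sg A B) ∧
        1 / 2 ^ (9 * k) < kap (MQ a P U) (sg A B) := by
  have hw : wp a ≤ 2⁻¹ := by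
    unfold wp
    rw [ENNReal.inv_le_inv]
    calc (2 : ℝ≥0∞) = 2 ^ 1 := (pow_one _).symm
      _ ≤ 2 ^ (a + 4) := pow_le_pow_right₀ (by norm_num) (by omega)
  have hk20 : 2 ^ 20 ≤ 2 ^ (a + 20) := Nat.pow_le_pow_right (by norm_num) (by omega)
  have hk' : a + 20 < k := lt_of_lt_of_le Nat.lt_two_pow_self hk
  set base := (18 * k + (a + 3)) / (a + 4) with hbase
  have hb : 18 * k ≤ (a + 4) * base := by
    have h1 := Nat.div_add_mod (18 * k + (a + 3)) (a + 4)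
    have h2 := Nat.mod_lt (18 * k + (a + 3)) (by omega : 0 < a + 4)
    rw [← hbase] at h1
    omega
  have hb4 : 4 ≤ base := by
    by_contra hc
    have : (a + 4) * base ≤ (a + 4) * 3 := Nat.mul_le_mul_left _ (by omega)
    omega
  have hLA : LA k base (2 * a + 11) P (MQ a P U) := by
    refine ⟨SP.PD.FF_tern h.pd hw P, SP.Fin0.FF_tern h.pd h.u0 hw P, by omega, hb4, by omega,
      lc_num hk hb, ?_, hmu⟩
    intro A B hA hB hAB hne hc hs
    have h1 := hlen A B hA hB hAB hne hc hs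
    rw [hbase]
    have h2 : 18 * k + (a + 3) < (a + 4) * ((A ∪ B).card + 1) := by
      rw [mul_add, mul_one]
      omega
    have h3 := Nat.div_lt_of_lt_mul h2
    omega
  obtain ⟨f, hf⟩ := lv_own (r := a + 4) hLA hb (by omega)
  have e : 2 * (2 * a + 11 + 1) + 2 = 4 * a + 26 := by ring
  refine ⟨fun v => Fin.cast (by rw [e]) (f v), fun A B hA hB hAB hne hc hmono => ?_⟩
  have h1 := hf A B hA hB hAB hne hc (by
    intro x hx y hy
    have h2 := hmono x hx y hy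
    exact Fin.cast_injective _ h2)
  unfold cfa
  push_cast at h1
  exact h1

end Pool.Agent.SPG
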