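import Pool.Agent.SPG.Defs
import Pool.Agent.SP.Virt
import Pool.Agent.SP.Gauss

/-!
Row SQ.W: weights and layers (port of the corresponding lemmas of `Pool/Agent/SP/`).
-/

set_option autoImplicit false

namespace Pool.Agent.SPG

open Finset
open scoped ENNReal
open Pool.Agent.Helper36.LL (conv dlt FF gw tern)
open Pool.Agent.SP (VV sg kap PD GI Ext Fin0 thg yb St SS RG)

variable {G : Type*} [AddCommGroup G]

theorem Wt.inv_pow_add (m n : ℕ) : (2 : ℝ≥0∞) ^ m * (2 ^ (n + m))⁻¹ = (2 ^ n)⁻¹ := by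
  rw [pow_add, ENNReal.mul_inv (Or.inl (by simp)) (Or.inl (by simp)), mul_comm, mul_assoc,
    ENNReal.inv_mul_cancel (by simp) (by simp), mul_one]

theorem eight_wp (a : ℕ) : 8 * wp a = wb a := by
  have := Wt.inv_pow_add 3 (a + 1)
  unfold wp wb
  have e : (2 : ℝ≥0∞) ^ 3 = 8 := by norm_num
  rw [e] at this
  exact this

theorem two_wb (a : ℕ) : 2 * wb a = wq a := by
  have := Wt.inv_pow_add 1 a
  unfold wb wq
  rw [pow_one] at this
  exact this

theorem Wt.inv_le {a m : ℕ} (h : m ≤ a) {c : ℝ≥0∞} (hc : c = 2 ^ m) :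
    ((2 : ℝ≥0∞) ^ a)⁻¹ ≤ c⁻¹ := by
  rw [hc, ENNReal.inv_le_inv]
  exact pow_le_pow_right₀ (by norm_num) h

theorem wq_le {a : ℕ} (ha : 2 ≤ a) : wq a ≤ 4⁻¹ := Wt.inv_le (m := 2) ha (by norm_num)

theorem wb_le {a : ℕ} (ha : 2 ≤ a) : wb a ≤ 8⁻¹ :=
  Wt.inv_le (m := 3) (by omega) (by norm_num)

theorem wp_le {a : ℕ} (ha : 2 ≤ a) : wp a ≤ 64⁻¹ :=
  Wt.inv_le (m := 6) (by omega) (by norm_num)

theorem wq_half {a : ℕ} (ha : 2 ≤ a) : wq a ≤ 2⁻¹ :=
  Wt.inv_le (m := 1) (by omega) (by norm_num)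

theorem wb_half {a : ℕ} (ha : 2 ≤ a) : wb a ≤ 2⁻¹ :=
  Wt.inv_le (m := 1) (by omega) (by norm_num)

theorem wp_half {a : ℕ} (ha : 2 ≤ a) : wp a ≤ 2⁻¹ :=
  Wt.inv_le (m := 1) (by omega) (by norm_num)

theorem xl_lt (k s : ℕ) : xl k s < 1 := by
  unfold xl
  rw [ENNReal.ofReal_lt_one]
  have : (0 : ℝ) < 1 / 2 ^ (20 * k + 2 * s) := by positivity
  linarith

theorem thg_xl (k s : ℕ) : thg (xl k s) ≤ 2 ^ (20 * k + 2 * s + 1) := by
  refine (SP.thg_le (xl_lt k s).le).trans ?_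
  unfold xl
  have h1 : (0 : ℝ) < 1 / 2 ^ (20 * k + 2 * s) := by positivity
  have h2 : (1 : ℝ≥0∞) - ENNReal.ofReal (1 - 1 / 2 ^ (20 * k + 2 * s)) =
      ENNReal.ofReal (1 / 2 ^ (20 * k + 2 * s)) := by
    rw [← ENNReal.ofReal_one, ← ENNReal.ofReal_sub]
    · congr 1
      ring
    · have : (1 : ℝ) / 2 ^ (20 * k + 2 * s) ≤ 1 := by
        rw [div_le_one (by positivity)]
        exact one_le_pow₀ (by norm_num)
      linarith
  rw [h2, ← ENNReal.ofReal_inv_of_pos h1, one_div, inv_inv, ENNReal.ofReal_pow (by norm_num),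
    pow_succ, mul_comm]
  simp

theorem log_thg_xl {k : ℕ} (hk : 1 ≤ k) (s : ℕ) :
    Real.log (thg (xl k s)).toReal ≤ 15 * k + 2 * s := by
  have h1 : (thg (xl k s)).toReal ≤ 2 ^ (20 * k + 2 * s + 1) := by
    have := ENNReal.toReal_mono (by finiteness) (thg_xl k s)
    simpa using this
  have h0 : 0 < (thg (xl k s)).toReal := by
    apply ENNReal.toReal_pos
    · exact (lt_of_lt_of_le zero_lt_one (SP.one_le_thg _)).ne'
    · exact SP.thg_ne_top (xl_lt k s)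
  refine (Real.log_le_log h0 h1).trans ?_
  rw [Real.log_pow]
  have h2 := Real.log_two_lt_d9
  have h3 : (1 : ℝ) ≤ k := by exact_mod_cast hk
  have h4 : (0 : ℝ) ≤ s := Nat.cast_nonneg s
  push_cast
  nlinarith

theorem tern_wb_le_gw {a k : ℕ} (ha : 2 ≤ a) (hk : 1 ≤ k) (s : ℕ) (j : ℤ) :
    tern (wb a) j ≤ gw (xl k s) j := by
  have h1 : wb a ≤ xl k s := by
    refine (wb_le ha).trans ?_
    unfold xl
    have h2 : (8 : ℝ≥0∞)⁻¹ = ENNReal.ofReal (1 / 8) := by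
      rw [one_div, ENNReal.ofReal_inv_of_pos (by norm_num)]; simp
    rw [h2]
    apply ENNReal.ofReal_le_ofReal
    have h3 : (1 : ℝ) / 2 ^ (20 * k + 2 * s) ≤ 1 / 2 ^ 1 := by
      apply one_div_le_one_div_of_le (by norm_num)
      exact pow_le_pow_right₀ (by norm_num) (by omega)
    linarith
  unfold tern gw
  split_ifs with h2 h3
  · rw [h2]; simp
  · have : j.natAbs = 1 := by omega
    rw [this]; simpa using h1
  · exact bot_le

section dec

variable [DecidableEq G]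

theorem LL_PD (k : ℕ) (W : ℕ → Finset G) (i : ℕ) {B : G → ℝ≥0∞} (hB : PD B) (n : ℕ) :
    PD (LL k W i B n) := by
  induction n with
  | zero => exact hB
  | succ n ih => exact SP.PD.FF_gw ih (xl_lt k n) _

theorem LL_Fin0 (k : ℕ) (W : ℕ → Finset G) (i : ℕ) {B : G → ℝ≥0∞} (hB : PD B) (h0 : Fin0 B)
    (n : ℕ) : Fin0 (LL k W i B n) := by
  induction n with
  | zero => exact h0
  | succ n ih => exact SP.Fin0.FF_gw (LL_PD k W i hB n) ih (xl_lt k n) _

theorem Wt.FF_conv (w : G → ℤ → ℝ≥0∞) (B : Finset G) (w' : ℤ → ℝ≥0∞) (a : G) (p : G → ℝ≥0∞) :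
    FF w B (conv w' a p) = conv w' a (FF w B p) := by
  induction B using Finset.induction_on with
  | empty => simp
  | insert b B hb ih =>
    rw [Helper36.LL.FF_insert _ hb, Helper36.LL.FF_insert _ hb, ih, Helper36.LL.conv_comm]

theorem LL_conv (k : ℕ) (W : ℕ → Finset G) (i : ℕ) (w : ℤ → ℝ≥0∞) (a : G) (B : G → ℝ≥0∞)
    (n : ℕ) : LL k W i (conv w a B) n = conv w a (LL k W i B n) := by
  induction n with
  | zero => rfl
  | succ n ih =>
    simp only [LL]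
    rw [ih, Wt.FF_conv]

theorem LL_congr (k : ℕ) {W W' : ℕ → Finset G} (i : ℕ) (B : G → ℝ≥0∞) (n : ℕ)
    (h : ∀ s < n, W (i + 2 + s) = W' (i + 2 + s)) : LL k W i B n = LL k W' i B n := by
  induction n with
  | zero => rfl
  | succ n ih =>
    simp only [LL]
    rw [ih (fun s hs => h s (by omega)), h n (by omega)]

theorem Wt.FF_FF (w : G → ℤ → ℝ≥0∞) (A : Finset G) (w' : G → ℤ → ℝ≥0∞) (B : Finset G)
    (p : G → ℝ≥0∞) : FF w A (FF w' B p) = FF w' B (FF w A p) := by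
  induction A using Finset.induction_on with
  | empty => simp
  | insert b A hb ih =>
    rw [Helper36.LL.FF_insert _ hb, Helper36.LL.FF_insert _ hb, ih, Wt.FF_conv]

theorem Wt.FF_union (w : G → ℤ → ℝ≥0∞) {A B : Finset G} (h : Disjoint A B) (p : G → ℝ≥0∞) :
    FF w (A ∪ B) p = FF w A (FF w B p) := by
  induction A using Finset.induction_on with
  | empty => simp
  | insert b A hb ih =>
    rw [Finset.disjoint_insert_left] at h
    rw [Finset.insert_union, Helper36.LL.FF_insert _ hb, Helper36.LL.FF_insert _ (by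
      rw [Finset.mem_union]; rintro (h1 | h1)
      · exact hb h1
      · exact h.1 h1), ih h.2]

/-- One layer gets more elements. -/
theorem LL_insert (k : ℕ) {W W' : ℕ → Finset G} (i : ℕ) (B : G → ℝ≥0∞) (n s : ℕ) (hs : s < n)
    (h : ∀ t < n, t ≠ s → W (i + 2 + t) = W' (i + 2 + t)) {F : Finset G}
    (hF : Disjoint F (W (i + 2 + s))) (hW' : W' (i + 2 + s) = F ∪ W (i + 2 + s)) :
    LL k W' i B n = FF (fun _ => gw (xl k s)) F (LL k W i B n) := by
  induction n with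
  | zero => omega
  | succ n ih =>
    simp only [LL]
    by_cases hsn : s = n
    · subst hsn
      rw [hW', Wt.FF_union _ hF, LL_congr k i B s (fun t ht => (h t (by omega) (by omega)).symm)]
    · rw [ih (by omega) (fun t ht ht' => h t (by omega) ht'), Wt.FF_FF,
        h n (by omega) (fun e => hsn e.symm)]

theorem Wt.LL_RG (k : ℕ) (W : ℕ → Finset G) (i : ℕ) {B : G → ℝ≥0∞} (hB : RG B) (n : ℕ) :
    RG (LL k W i B n) := by
  induction n with
  | zero => exact hB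
  | succ n ih => exact SP.RG.FF ih _ _

theorem EE_GI (k N : ℕ) (S : St G) (i : ℕ) : GI (EE k N S i) :=
  (Wt.LL_RG k S.W i (SP.RG.VV (yb k) (S.l i)) N).gi

theorem EE_PD {k : ℕ} (hk : 1 ≤ k) (N : ℕ) (S : St G) (i : ℕ) : PD (EE k N S i) :=
  LL_PD k S.W i (SP.PD.VV (SP.yb_lt hk) _) N

theorem EE_Fin0 {k : ℕ} (hk : 1 ≤ k) (N : ℕ) (S : St G) (i : ℕ) : Fin0 (EE k N S i) :=
  LL_Fin0 k S.W i (SP.PD.VV (SP.yb_lt hk) _) (SP.Fin0.VV (SP.yb_lt hk) _) N

theorem UU_PD {a k : ℕ} (ha : 2 ≤ a) (hk : 1 ≤ k) (N : ℕ) (S : St G) (i : ℕ) :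
    PD (UU a k N S i) := SP.PD.FF_tern (EE_PD hk N S i) (wb_half ha) _

theorem UU_Fin0 {a k : ℕ} (ha : 2 ≤ a) (hk : 1 ≤ k) (N : ℕ) (S : St G) (i : ℕ) :
    Fin0 (UU a k N S i) := SP.Fin0.FF_tern (EE_PD hk N S i) (EE_Fin0 hk N S i) (wb_half ha) _

theorem MM_PD {a k : ℕ} (ha : 2 ≤ a) (hk : 1 ≤ k) (N : ℕ) (S : St G) (i : ℕ) :
    PD (MM a k N S i) := SP.PD.FF_tern (UU_PD ha hk N S i) (wp_half ha) _

theorem MM_Fin0 {a k : ℕ} (ha : 2 ≤ a) (hk : 1 ≤ k) (N : ℕ) (S : St G) (i : ℕ) :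
    Fin0 (MM a k N S i) := SP.Fin0.FF_tern (UU_PD ha hk N S i) (UU_Fin0 ha hk N S i) (wp_half ha) _

end dec

end Pool.Agent.SPG
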