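import Pool.Agent.SPG.Own
import Pool.Agent.SPG.Wts
import Pool.Agent.SP.Mu

/-!
The second moment claim.
-/

set_option autoImplicit false

namespace Pool.Agent.SPG

open Finset
open scoped ENNReal
open Pool.Agent.Helper36.LL (conv dlt FF gw tern FF_insert FF_empty tern_zero)
open Pool.Agent.SP (VV sg kap PD GI Ext Fin0 thg yb St SS Fam Free mem_Fam fam_sup fam_step mem_SS
  second_moment second_case_sum shift FF_union_own mu_num sg_inter_union Fam_sub_SS)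

variable {G : Type*} [AddCommGroup G] [DecidableEq G]

theorem mu_q (a : ℕ) : (1 / 2 ^ (2 * a + 11) : ℝ) * 2 ^ (a + 4) = 1 / 2 ^ (a + 7) := by
  have e : (2 : ℝ) ^ (2 * a + 11) = 2 ^ (a + 7) * 2 ^ (a + 4) := by
    rw [← pow_add]
    congr 1
    omega
  rw [e]
  field_simp

theorem mu_r9 {a : ℕ} (ha : 2 ≤ a) : (1 / 2 ^ (a + 7) : ℝ) ≤ 1 / 2 ^ 9 :=
  one_div_le_one_div_of_le (by positivity) (pow_le_pow_right₀ (by norm_num) (by omega))

/-- The kernel of the second moment. -/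
noncomputable def KR (a : ℕ) (P : Finset G) (U : G → ℝ≥0∞) (g : G) (T T' : Finset G × Finset G) : ℝ :=
  if Disjoint T.1 T'.2 ∧ Disjoint T.2 T'.1 then
    (2 ^ (a + 4)) ^ ((T.1 ∩ T'.1).card + (T.2 ∩ T'.2).card) *
      (MQ a (P \ (T.1 ∪ T.2 ∪ (T'.1 ∪ T'.2))) U (g - sg (T.1 ∪ T'.1) (T.2 ∪ T'.2))).toReal else 0

theorem second_real {a : ℕ} (ha : 2 ≤ a) (P : Finset G) {U : G → ℝ≥0∞} (hU : PD U) (hU0 : Fin0 U)
    (ℱ : Finset (Finset G × Finset G)) (hℱ : ℱ ⊆ SS P) (n : Finset G × Finset G → ℝ)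
    (hn : ∀ T, 0 ≤ n T) (g : G) :
    (∑ T ∈ ℱ, n T * (MQ a (P \ (T.1 ∪ T.2)) U (g - sg T.1 T.2)).toReal) ^ 2 ≤
      (MQ a P U g).toReal * ∑ T ∈ ℱ, ∑ T' ∈ ℱ, n T * n T' * KR a P U g T T' := by
  classical
  have h64 : wp a ≤ 2⁻¹ := wp_half ha
  have hfin : ∀ (Q : Finset G) (x : G), MQ a Q U x ≠ ⊤ := fun Q x =>
    ne_top_of_le_ne_top (SP.Fin0.FF_tern hU hU0 h64 Q).2 ((SP.PD.FF_tern hU h64 Q).le_zero x)
  have key := second_moment P U (p := wp a) (by unfold wp; simp) (by unfold wp; simp)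
    (fun T => if T ∈ ℱ then ENNReal.ofReal (n T) else 0) g
  have h1 : ∑ T ∈ SS P, (if T ∈ ℱ then ENNReal.ofReal (n T) else 0) *
      FF (fun _ => tern (wp a)) (P \ (T.1 ∪ T.2)) U (g - sg T.1 T.2) =
      ∑ T ∈ ℱ, ENNReal.ofReal (n T) * MQ a (P \ (T.1 ∪ T.2)) U (g - sg T.1 T.2) := by
    rw [← Finset.sum_subset hℱ]
    · refine Finset.sum_congr rfl fun T hT => ?_
      rw [if_pos hT]
      rfl
    · intro T _ hT
      rw [if_neg hT, zero_mul]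
  have h2 : ∑ T ∈ SS P, ∑ T' ∈ SS P, (if T ∈ ℱ then ENNReal.ofReal (n T) else 0) *
      (if T' ∈ ℱ then ENNReal.ofReal (n T') else 0) *
        (if Disjoint T.1 T'.2 ∧ Disjoint T.2 T'.1 then
          (wp a)⁻¹ ^ ((T.1 ∩ T'.1).card + (T.2 ∩ T'.2).card) *
            FF (fun _ => tern (wp a)) (P \ (T.1 ∪ T.2 ∪ (T'.1 ∪ T'.2))) U
              (g - sg (T.1 ∪ T'.1) (T.2 ∪ T'.2)) else 0) =
      ∑ T ∈ ℱ, ∑ T' ∈ ℱ, ENNReal.ofReal (n T * n T' * KR a P U g T T') := by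
    rw [← Finset.sum_subset hℱ]
    · refine Finset.sum_congr rfl fun T hT => ?_
      rw [← Finset.sum_subset hℱ]
      · refine Finset.sum_congr rfl fun T' hT' => ?_
        rw [if_pos hT, if_pos hT', ENNReal.ofReal_mul (mul_nonneg (hn T) (hn T')),
          ENNReal.ofReal_mul (hn T)]
        congr 1
        unfold KR
        split_ifs
        · have e2 : ENNReal.ofReal (2 ^ (a + 4)) = (wp a)⁻¹ := by
            rw [ENNReal.ofReal_pow (by norm_num), ENNReal.ofReal_ofNat]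
            unfold wp
            rw [inv_inv]
          rw [ENNReal.ofReal_mul (by positivity), ENNReal.ofReal_toReal (hfin _ _),
            ENNReal.ofReal_pow (by positivity), e2]
          rfl
        · simp
      · intro T' _ hT'
        rw [if_neg hT', mul_zero, zero_mul]
    · intro T _ hT
      refine Finset.sum_eq_zero fun T' _ => ?_
      rw [if_neg hT, zero_mul, zero_mul]
  rw [h1, h2] at key
  have hK : ∀ T T', 0 ≤ n T * n T' * KR a P U g T T' := by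
    intro T T'
    unfold KR
    split_ifs
    · have := hn T
      have := hn T'
      have := (ENNReal.toReal_nonneg :
        0 ≤ (MQ a (P \ (T.1 ∪ T.2 ∪ (T'.1 ∪ T'.2))) U (g - sg (T.1 ∪ T'.1) (T.2 ∪ T'.2))).toReal)
      positivity
    · simp
  have h3 : ∑ T ∈ ℱ, ∑ T' ∈ ℱ, ENNReal.ofReal (n T * n T' * KR a P U g T T') =
      ENNReal.ofReal (∑ T ∈ ℱ, ∑ T' ∈ ℱ, n T * n T' * KR a P U g T T') := by
    rw [ENNReal.ofReal_sum_of_nonneg fun T _ => Finset.sum_nonneg fun T' _ => hK T T']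
    refine Finset.sum_congr rfl fun T _ => ?_
    rw [ENNReal.ofReal_sum_of_nonneg fun T' _ => hK T T']
  rw [h3] at key
  have h4 := ENNReal.toReal_mono (ENNReal.mul_ne_top (hfin P g) ENNReal.ofReal_ne_top) key
  rw [ENNReal.toReal_mul, ENNReal.toReal_ofReal (Finset.sum_nonneg fun T _ =>
    Finset.sum_nonneg fun T' _ => hK T T'), ENNReal.toReal_pow, ENNReal.toReal_sum (fun T _ =>
      ENNReal.mul_ne_top ENNReal.ofReal_ne_top (hfin _ _))] at h4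
  refine le_trans (le_of_eq ?_) h4
  congr 1
  refine Finset.sum_congr rfl fun T _ => ?_
  rw [ENNReal.toReal_mul, ENNReal.toReal_ofReal (hn T)]

/-- The bound for the terms with intersection `I`. -/
noncomputable def BB (a k : ℕ) (P : Finset G) (U : G → ℝ≥0∞) (g : G) (T I : Finset G × Finset G) : ℝ :=
  Real.exp ((I.1.card + I.2.card : ℕ) : ℝ) * (MQ a (P \ (T.1 ∪ T.2)) U (g - sg I.1 I.2)).toReal +
    Real.exp (-(((I.1.card + I.2.card : ℕ) : ℝ) ^ 2 / (8 * (1 / (100 * (k : ℝ)))))) *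
      (MQ a (P \ (T.1 ∪ T.2)) U 0).toReal

theorem MQ_anti {a : ℕ} {U : G → ℝ≥0∞} {Q R : Finset G} (h : Q ⊆ R) (x : G) : MQ a Q U x ≤ MQ a R U x := by
  have h1 : MQ a R U = FF (fun _ => tern (wp a)) (R \ Q) (MQ a (R \ (R \ Q)) U) := by
    unfold MQ
    rw [← FF_union_own (fun _ => tern (wp a)) disjoint_sdiff,
      Finset.union_sdiff_of_subset sdiff_subset]
  rw [Finset.sdiff_sdiff_eq_self h] at h1
  rw [h1]
  exact Pool.Agent.Helper36.LL.FF_zero_le (fun _ _ => tern_zero _) _ _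

theorem fin_MQ {a : ℕ} (ha : 2 ≤ a) {U : G → ℝ≥0∞} (hU : PD U) (hU0 : Fin0 U) (Q : Finset G) :
    PD (MQ a Q U) ∧ Fin0 (MQ a Q U) ∧ ∀ x, MQ a Q U x ≠ ⊤ := by
  have h64 : wp a ≤ 2⁻¹ := wp_half ha
  have h1 : PD (MQ a Q U) := SP.PD.FF_tern hU h64 Q
  have h2 : Fin0 (MQ a Q U) := SP.Fin0.FF_tern hU hU0 h64 Q
  exact ⟨h1, h2, fun x => ne_top_of_le_ne_top h2.2 (h1.le_zero x)⟩

theorem MQ_real_le {a : ℕ} (ha : 2 ≤ a) {U : G → ℝ≥0∞} (hU : PD U) (hU0 : Fin0 U) {Q R : Finset G} (h : Q ⊆ R) (x : G) :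
    (MQ a Q U x).toReal ≤ (MQ a R U x).toReal :=
  ENNReal.toReal_mono ((fin_MQ ha hU hU0 R).2.2 x) (MQ_anti h x)

theorem MQ_real_zero {a : ℕ} (ha : 2 ≤ a) {U : G → ℝ≥0∞} (hU : PD U) (hU0 : Fin0 U) (Q : Finset G) (x : G) :
    (MQ a Q U x).toReal ≤ (MQ a Q U 0).toReal :=
  ENNReal.toReal_mono ((fin_MQ ha hU hU0 Q).2.2 0) ((fin_MQ ha hU hU0 Q).1.le_zero x)

/-- The trivial bound for the kernel. -/
theorem KR_le_zero {a : ℕ} (ha : 2 ≤ a) (P : Finset G) {U : G → ℝ≥0∞} (hU : PD U) (hU0 : Fin0 U) (g : G)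
    (T T' : Finset G × Finset G) :
    KR a P U g T T' ≤ (2 ^ (a + 4)) ^ ((T.1 ∩ T'.1).card + (T.2 ∩ T'.2).card) * (MQ a P U 0).toReal := by
  unfold KR
  split_ifs
  · refine mul_le_mul_of_nonneg_left ?_ (by positivity)
    exact (MQ_real_zero ha hU hU0 _ _).trans (MQ_real_le ha hU hU0 sdiff_subset 0)
  · have : 0 ≤ (MQ a P U 0).toReal := ENNReal.toReal_nonneg
    positivity

theorem KR_nonneg (a : ℕ) (P : Finset G) (U : G → ℝ≥0∞) (g : G)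
    (T T' : Finset G × Finset G) : 0 ≤ KR a P U g T T' := by
  unfold KR
  split_ifs
  · exact mul_nonneg (by positivity) ENNReal.toReal_nonneg
  · exact le_rfl

theorem BB_nonneg (a k : ℕ) (P : Finset G) (U : G → ℝ≥0∞) (g : G) (T I : Finset G × Finset G) :
    0 ≤ BB a k P U g T I := by
  unfold BB
  have h1 : 0 ≤ (MQ a (P \ (T.1 ∪ T.2)) U (g - sg I.1 I.2)).toReal := ENNReal.toReal_nonneg
  have h2 : 0 ≤ (MQ a (P \ (T.1 ∪ T.2)) U 0).toReal := ENNReal.toReal_nonneg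
  have := Real.exp_pos ((I.1.card + I.2.card : ℕ) : ℝ)
  have := Real.exp_pos (-(((I.1.card + I.2.card : ℕ) : ℝ) ^ 2 / (8 * (1 / (100 * (k : ℝ))))))
  positivity

/-- The bound for the kernel from the shift inequality. -/
theorem KR_le {a k : ℕ} (ha : 2 ≤ a) (hk : 100 ≤ k) {P : Finset G} {E U : G → ℝ≥0∞} (h : Lev a k P E U)
    {s : ℝ} (hs0 : 0 ≤ s) (hs' : 4 * s ≤ 1 / (2 ^ 28 * (k : ℝ) ^ 3)) {g : G}
    {T T' : Finset G × Finset G} (hT : T ∈ Fam (MQ a P U) P (2 ^ k) s g)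
    (hT' : T' ∈ Fam (MQ a P U) P (2 ^ k) s g)
    (hne : 1 ≤ (T.1 ∩ T'.1).card + (T.2 ∩ T'.2).card) :
    KR a P U g T T' ≤ (2 ^ (a + 4)) ^ ((T.1 ∩ T'.1).card + (T.2 ∩ T'.2).card) *
      BB a k P U g T (T.1 ∩ T'.1, T.2 ∩ T'.2) := by
  have hB := BB_nonneg a k P U g T (T.1 ∩ T'.1, T.2 ∩ T'.2)
  obtain ⟨a1, a2, a3⟩ := fin_MQ ha h.pd h.u0 (P \ (T.1 ∪ T.2))
  obtain ⟨b1, b2, b3⟩ := fin_MQ ha h.pd h.u0 P
  unfold KR
  split_ifs
  swap
  · positivity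
  refine mul_le_mul_of_nonneg_left ?_ (by positivity)
  refine (MQ_real_le ha h.pd h.u0 (R := P \ (T.1 ∪ T.2))
    (sdiff_subset_sdiff (Finset.Subset.refl _) subset_union_left) _).trans ?_
  set I : Finset G × Finset G := (T.1 ∩ T'.1, T.2 ∩ T'.2) with hI
  set f : G := (g - sg T.1 T.2) + (g - sg T'.1 T'.2) with hf
  have e1 : g - sg (T.1 ∪ T'.1) (T.2 ∪ T'.2) = -((g - sg I.1 I.2) - f) := by
    rw [sg_inter_union, hf, hI]
    abel
  rw [e1, a1.neg]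
  have hkf : kap (MQ a P U) f ≤ 1 / (2 ^ 28 * (k : ℝ) ^ 3) := by
    have h1 := (mem_Fam.1 hT).2.2.2.2.2
    have h2 := (mem_Fam.1 hT').2.2.2.2.2
    have h3 := b1.kap_add b2 (Real.sqrt_nonneg s) (Real.sqrt_nonneg s)
      (by rw [Real.sq_sqrt hs0]; exact h1) (by rw [Real.sq_sqrt hs0]; exact h2)
    have h4 : (Real.sqrt s + Real.sqrt s) ^ 2 = 4 * s := by
      have := Real.sq_sqrt hs0
      nlinarith
    rw [h4] at h3
    exact h3.trans hs'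
  have hk0 : (0 : ℝ) < k := by
    have : (100 : ℝ) ≤ k := by exact_mod_cast hk
    linarith
  have hne' : (1 : ℝ) ≤ ((I.1.card + I.2.card : ℕ) : ℝ) := by exact_mod_cast hne
  have hsh := shift h.gi h.e0 (h.ext.FF (fun _ => tern (wp a)) (P \ (T.1 ∪ T.2))) a2
    (fun x => a1.le_zero x) (s := 1 / (100 * (k : ℝ))) (by positivity) (f := f)
    (h.shut f hkf) (g - sg I.1 I.2) (t := ((I.1.card + I.2.card : ℕ) : ℝ)) (by
      have h100 : (100 : ℝ) ≤ k := by exact_mod_cast hk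
      have : 8 * (1 / (100 * (k : ℝ))) ≤ 1 := by
        rw [mul_one_div, div_le_one (by positivity)]
        linarith
      linarith)
  unfold BB
  have g1 : 0 ≤ (MQ a (P \ (T.1 ∪ T.2)) U (g - sg I.1 I.2)).toReal := ENNReal.toReal_nonneg
  have g2 : 0 ≤ (MQ a (P \ (T.1 ∪ T.2)) U 0).toReal := ENNReal.toReal_nonneg
  have g3 := mul_nonneg (Real.exp_pos ((I.1.card + I.2.card : ℕ) : ℝ)).le g1
  have g4 := mul_nonneg (Real.exp_pos (-(((I.1.card + I.2.card : ℕ) : ℝ) ^ 2 /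
    (8 * (1 / (100 * (k : ℝ))))))).le g2
  rcases hsh with h1 | h1
  · exact h1.trans (le_add_of_nonneg_right g4)
  · exact h1.trans (le_add_of_nonneg_left g3)

/-- The weight of the members other than `T` which contain a part of `T`. -/
theorem fam_inner {a : ℕ} (ha : 2 ≤ a) {P : Finset G} {U : G → ℝ≥0∞} (hU : PD U) (hU0 : Fin0 U) {n : ℕ}
    {s : ℝ} {g : G} {T : Finset G × Finset G} (hT : T ∈ Fam (MQ a P U) P n s g) {q : ℝ} (hq : 0 ≤ q)
    {N : ℝ} (hN : ∀ g', ∑ T' ∈ Fam (MQ a P U) P n s g', q ^ (T'.1 ∪ T'.2).card ≤ N)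
    {I : Finset G × Finset G} (hI1 : I.1 ⊆ T.1) (hI2 : I.2 ⊆ T.2) :
    ∑ T' ∈ ((Fam (MQ a P U) P n s g).erase T).filter (fun T' => I.1 ⊆ T'.1 ∧ I.2 ⊆ T'.2),
        q ^ (T'.1 ∪ T'.2).card ≤ q ^ (I.1 ∪ I.2).card * N := by
  classical
  obtain ⟨b1, b2, b3⟩ := fin_MQ ha hU hU0 P
  have hstep := fam_step (M := MQ a P U) (fun x y a b ha hb hx hy => b1.kap_sub b2 ha hb hx hy)
    (fun x => b1.kap_nonneg b2 x) hT hI1 hI2 hq
  have hqI : 0 ≤ q ^ (I.1 ∪ I.2).card := by positivity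
  rw [Finset.filter_erase]
  by_cases hIT : I = T
  · subst hIT
    rw [if_pos rfl] at hstep
    have hmem : I ∈ (Fam (MQ a P U) P n s g).filter (fun T' => I.1 ⊆ T'.1 ∧ I.2 ⊆ T'.2) :=
      Finset.mem_filter.2 ⟨hT, Finset.Subset.refl _, Finset.Subset.refl _⟩
    have h1 := Finset.sum_erase_add _ (fun T' : Finset G × Finset G =>
      q ^ (T'.1 ∪ T'.2).card) hmem
    have h2 := mul_le_mul_of_nonneg_left (hN (g - sg I.1 I.2)) hqI
    linarith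
  · rw [if_neg hIT, add_zero] at hstep
    refine le_trans ?_ (hstep.trans (mul_le_mul_of_nonneg_left (hN _) hqI))
    exact Finset.sum_le_sum_of_subset_of_nonneg (Finset.erase_subset _ _)
      (fun T' _ _ => by positivity)

/-- One row of the second moment. -/
theorem row_sum {a k : ℕ} (ha : 2 ≤ a) (hk : 100 ≤ k) {P : Finset G} {E U : G → ℝ≥0∞} (h : Lev a k P E U)
    {s : ℝ} (hs0 : 0 ≤ s) (hs' : 4 * s ≤ 1 / (2 ^ 28 * (k : ℝ) ^ 3)) {g : G}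
    {T : Finset G × Finset G} (hT : T ∈ Fam (MQ a P U) P (2 ^ k) s g)
    {N : ℝ} (hN0 : 0 ≤ N) (hN : ∀ g', ∑ T' ∈ Fam (MQ a P U) P (2 ^ k) s g',
      (1 / 2 ^ (2 * a + 11) : ℝ) ^ (T'.1 ∪ T'.2).card ≤ N) :
    ∑ T' ∈ Fam (MQ a P U) P (2 ^ k) s g, (1 / 2 ^ (2 * a + 11) : ℝ) ^ (T'.1 ∪ T'.2).card * KR a P U g T T' ≤
      (MQ a P U 0).toReal * (N * (1 + 1 / 23 * (8 / 7 * kap (MQ a P U) g + 4 / 2 ^ (19 * k)) +
        2 / 2 ^ (17 * k)) + 1 / 2 ^ 9) := by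
  classical
  obtain ⟨b1, b2, b3⟩ := fin_MQ ha h.pd h.u0 P
  have hm0 : 0 < (MQ a P U 0).toReal := ENNReal.toReal_pos b2.1 b2.2
  obtain ⟨⟨hT1, hT2⟩, hTd, hTne, hTc, hTf, hTk⟩ := mem_Fam.1 hT
  obtain ⟨a1, a2, a3⟩ := fin_MQ ha h.pd h.u0 (P \ (T.1 ∪ T.2))
  have hmT : 0 < (MQ a (P \ (T.1 ∪ T.2)) U 0).toReal := ENNReal.toReal_pos a2.1 a2.2
  have hmTle : (MQ a (P \ (T.1 ∪ T.2)) U 0).toReal ≤ (MQ a P U 0).toReal :=
    MQ_real_le ha h.pd h.u0 sdiff_subset 0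
  set ℱ := Fam (MQ a P U) P (2 ^ k) s g with hℱ
  set q : ℝ := 1 / 2 ^ (2 * a + 11) with hq
  have hq0 : 0 < q := by rw [hq]; positivity
  have hcardI : ∀ I : Finset G × Finset G, I.1 ⊆ T.1 → I.2 ⊆ T.2 →
      (I.1 ∪ I.2).card = I.1.card + I.2.card := fun I h1 h2 =>
    card_union_of_disjoint (disjoint_of_subset_left h1 (disjoint_of_subset_right h2 hTd))
  -- the diagonal term
  have hdiag : q ^ (T.1 ∪ T.2).card * KR a P U g T T ≤ 1 / 2 ^ 9 * (MQ a P U 0).toReal := by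
    have h1 := KR_le_zero ha P h.pd h.u0 g T T
    rw [inter_self, inter_self] at h1
    have h2 := mul_le_mul_of_nonneg_left h1 (show 0 ≤ q ^ (T.1 ∪ T.2).card by positivity)
    refine h2.trans ?_
    rw [hcardI T (Finset.Subset.refl _) (Finset.Subset.refl _), ← mul_assoc, ← mul_pow]
    refine mul_le_mul_of_nonneg_right ?_ hm0.le
    have e1 : q * 2 ^ (a + 4) = 1 / 2 ^ (a + 7) := by rw [hq]; exact mu_q a
    rw [e1]
    have h3 : 1 ≤ T.1.card + T.2.card := by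
      rw [← hcardI T (Finset.Subset.refl _) (Finset.Subset.refl _)]
      exact card_pos.2 hTne
    calc (1 / 2 ^ (a + 7) : ℝ) ^ (T.1.card + T.2.card) ≤ (1 / 2 ^ (a + 7) : ℝ) ^ 1 :=
          pow_le_pow_of_le_one (by positivity) ((mu_r9 ha).trans (by norm_num)) h3
      _ = 1 / 2 ^ (a + 7) := pow_one _
      _ ≤ 1 / 2 ^ 9 := mu_r9 ha
  -- the other terms
  set 𝒥 := (T.1.powerset ×ˢ T.2.powerset).erase (∅, ∅) with h𝒥
  have hBnn : ∀ I, 0 ≤ BB a k P U g T I := fun I => BB_nonneg a k P U g T I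
  have hterm : ∀ T' ∈ ℱ.erase T, q ^ (T'.1 ∪ T'.2).card * KR a P U g T T' ≤
      q ^ (T'.1 ∪ T'.2).card * (MQ a P U 0).toReal +
      ∑ I ∈ 𝒥, (if I.1 ⊆ T'.1 ∧ I.2 ⊆ T'.2 then
        q ^ (T'.1 ∪ T'.2).card * ((2 ^ (a + 4)) ^ (I.1.card + I.2.card) * BB a k P U g T I) else 0) := by
    intro T' hT'
    have hT'ℱ : T' ∈ ℱ := Finset.mem_of_mem_erase hT'
    have hnn : ∀ I ∈ 𝒥, 0 ≤ (if I.1 ⊆ T'.1 ∧ I.2 ⊆ T'.2 then
        q ^ (T'.1 ∪ T'.2).card * ((2 ^ (a + 4)) ^ (I.1.card + I.2.card) * BB a k P U g T I) else 0) := by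
      intro I _
      split_ifs
      · have := hBnn I
        positivity
      · exact le_rfl
    by_cases h0 : (T.1 ∩ T'.1).card + (T.2 ∩ T'.2).card = 0
    · have h1 := KR_le_zero ha P h.pd h.u0 g T T'
      rw [h0, pow_zero, one_mul] at h1
      have h2 := mul_le_mul_of_nonneg_left h1 (show 0 ≤ q ^ (T'.1 ∪ T'.2).card by positivity)
      exact h2.trans (le_add_of_nonneg_right (Finset.sum_nonneg hnn))
    · have h1 := KR_le ha hk h hs0 hs' hT hT'ℱ (Nat.one_le_iff_ne_zero.2 h0)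
      have h2 := mul_le_mul_of_nonneg_left h1 (show 0 ≤ q ^ (T'.1 ∪ T'.2).card by positivity)
      have hmem : (T.1 ∩ T'.1, T.2 ∩ T'.2) ∈ 𝒥 := by
        rw [h𝒥, mem_erase, mem_product, mem_powerset, mem_powerset]
        refine ⟨fun he => h0 ?_, inter_subset_left, inter_subset_left⟩
        rw [Prod.mk.injEq] at he
        rw [he.1, he.2]
        simp
      have h3 := Finset.single_le_sum hnn hmem
      rw [if_pos ⟨inter_subset_right, inter_subset_right⟩] at h3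
      have h4 : 0 ≤ q ^ (T'.1 ∪ T'.2).card * (MQ a P U 0).toReal := by positivity
      exact (h2.trans h3).trans (le_add_of_nonneg_left h4)
  have hsum1 : ∑ T' ∈ ℱ.erase T, q ^ (T'.1 ∪ T'.2).card ≤ N :=
    (Finset.sum_le_sum_of_subset_of_nonneg (Finset.erase_subset _ _)
      (fun T' _ _ => by positivity)).trans (hN g)
  have hsum2 : ∑ T' ∈ ℱ.erase T, ∑ I ∈ 𝒥, (if I.1 ⊆ T'.1 ∧ I.2 ⊆ T'.2 then
        q ^ (T'.1 ∪ T'.2).card * ((2 ^ (a + 4)) ^ (I.1.card + I.2.card) * BB a k P U g T I) else 0) ≤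
      N * ∑ I ∈ 𝒥, (1 / 2 ^ (a + 7) : ℝ) ^ (I.1.card + I.2.card) * BB a k P U g T I := by
    rw [Finset.sum_comm, Finset.mul_sum]
    refine Finset.sum_le_sum fun I hI => ?_
    rw [h𝒥, mem_erase, mem_product, mem_powerset, mem_powerset] at hI
    have h1 := fam_inner ha h.pd h.u0 hT hq0.le hN hI.2.1 hI.2.2
    rw [← Finset.sum_filter, ← Finset.sum_mul]
    have h2 := mul_le_mul_of_nonneg_right h1 (show 0 ≤ (2 ^ (a + 4)) ^ (I.1.card + I.2.card) *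
      BB a k P U g T I from mul_nonneg (by positivity) (hBnn I))
    refine h2.trans (le_of_eq ?_)
    rw [hcardI I hI.2.1 hI.2.2]
    have e1 : (1 / 2 ^ (a + 7) : ℝ) = q * 2 ^ (a + 4) := by rw [hq]; exact (mu_q a).symm
    rw [e1, mul_pow]
    ring
  -- the sum over the patterns
  have hpat : ∑ I ∈ 𝒥, (1 / 2 ^ (a + 7) : ℝ) ^ (I.1.card + I.2.card) * BB a k P U g T I ≤
      (1 / 23 * (kap (MQ a (P \ (T.1 ∪ T.2)) U) g + 3 / 2 ^ (19 * k)) + 2 / 2 ^ (17 * k)) *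
        (MQ a (P \ (T.1 ∪ T.2)) U 0).toReal := by
    have e7 : (2 : ℝ) ^ (a + 7) = 2 ^ (a + 1) * 64 := by
      rw [show a + 7 = (a + 1) + 6 by omega, pow_add]
      norm_num
    have h2a : (0 : ℝ) < 2 ^ (a + 1) := by positivity
    have hw : Real.exp 1 / 2 ^ (a + 7) ≤ 1 / 2 ^ (a + 1) := by
      rw [e7, div_le_div_iff₀ (by positivity) h2a]
      have := Real.exp_one_lt_d9
      nlinarith
    have h1 := Lev.patterns ha hk h hT1 hT2 hTd hTc (w := Real.exp 1 / 2 ^ (a + 7))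
      (by positivity) hw g
    have h2 := second_case_sum hk T.1 T.2 hTd hTc
    have h2' : ∑ I ∈ 𝒥, (1 / 2 ^ (a + 7) : ℝ) ^ (I.1.card + I.2.card) *
        Real.exp (-(((I.1.card + I.2.card : ℕ) : ℝ) ^ 2 / (8 * (1 / (100 * (k : ℝ)))))) ≤
        2 / 2 ^ (17 * k) := by
      refine le_trans (Finset.sum_le_sum fun I _ => ?_) h2
      refine mul_le_mul_of_nonneg_right ?_ (Real.exp_pos _).le
      exact pow_le_pow_left₀ (by positivity) (mu_r9 ha) _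
    have h3 : ∑ I ∈ 𝒥, (1 / 2 ^ (a + 7) : ℝ) ^ (I.1.card + I.2.card) * BB a k P U g T I =
        ∑ I ∈ 𝒥, (Real.exp 1 / 2 ^ (a + 7)) ^ (I.1.card + I.2.card) *
          (MQ a (P \ (T.1 ∪ T.2)) U (g - sg I.1 I.2)).toReal +
        (∑ I ∈ 𝒥, (1 / 2 ^ (a + 7) : ℝ) ^ (I.1.card + I.2.card) *
          Real.exp (-(((I.1.card + I.2.card : ℕ) : ℝ) ^ 2 / (8 * (1 / (100 * (k : ℝ))))))) *
          (MQ a (P \ (T.1 ∪ T.2)) U 0).toReal := by
      rw [Finset.sum_mul, ← Finset.sum_add_distrib]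
      refine Finset.sum_congr rfl fun I _ => ?_
      unfold BB
      have e1 : Real.exp ((I.1.card + I.2.card : ℕ) : ℝ) =
          Real.exp 1 ^ (I.1.card + I.2.card) := by
        rw [← Real.exp_nat_mul, mul_one]
      rw [e1, div_pow, div_pow]
      ring
    rw [h3, add_mul]
    have hkT : 0 ≤ kap (MQ a (P \ (T.1 ∪ T.2)) U) g := a1.kap_nonneg a2 g
    refine add_le_add (h1.trans ?_) (mul_le_mul_of_nonneg_right h2' hmT.le)
    refine mul_le_mul_of_nonneg_right ?_ hmT.le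
    refine mul_le_mul_of_nonneg_right ?_ (by positivity)
    have e8 : 2 ^ (a + 1) * (Real.exp 1 / 2 ^ (a + 7)) = Real.exp 1 / 64 := by
      rw [e7]
      field_simp
    rw [e8]
    have := Real.exp_one_lt_d9
    linarith
  have hown := Lev.own ha hk h (union_subset hT1 hT2) hTc g
  have hkT : 0 ≤ kap (MQ a (P \ (T.1 ∪ T.2)) U) g := a1.kap_nonneg a2 g
  have hpat2 : ∑ I ∈ 𝒥, (1 / 2 ^ (a + 7) : ℝ) ^ (I.1.card + I.2.card) * BB a k P U g T I ≤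
      (1 / 23 * (8 / 7 * kap (MQ a P U) g + 4 / 2 ^ (19 * k)) + 2 / 2 ^ (17 * k)) *
        (MQ a P U 0).toReal := by
    refine hpat.trans ?_
    have e4 : (4 : ℝ) / 2 ^ (19 * k) = 1 / 2 ^ (19 * k) + 3 / 2 ^ (19 * k) := by ring
    refine mul_le_mul ?_ hmTle hmT.le ?_
    · rw [e4]
      linarith
    · have := b1.kap_nonneg b2 g
      positivity
  rw [← Finset.sum_erase_add _ _ hT]
  have hA : ∑ T' ∈ ℱ.erase T, q ^ (T'.1 ∪ T'.2).card * KR a P U g T T' ≤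
      N * (MQ a P U 0).toReal + N * ((1 / 23 * (8 / 7 * kap (MQ a P U) g + 4 / 2 ^ (19 * k)) +
        2 / 2 ^ (17 * k)) * (MQ a P U 0).toReal) := by
    refine (Finset.sum_le_sum hterm).trans ?_
    rw [Finset.sum_add_distrib, ← Finset.sum_mul]
    exact add_le_add (mul_le_mul_of_nonneg_right hsum1 hm0.le)
      (hsum2.trans (mul_le_mul_of_nonneg_left hpat2 hN0))
  linarith

theorem mu_claim {a k : ℕ} (ha : 2 ≤ a) (hk : 100 ≤ k) {P : Finset G} {E U : G → ℝ≥0∞} (h : Lev a k P E U)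
    {s : ℝ} (hs : 1 / 2 ^ (9 * k) ≤ s) (hs' : 4 * s ≤ 1 / (2 ^ 28 * (k : ℝ) ^ 3)) (g : G) :
    ∑ T ∈ Fam (MQ a P U) P (2 ^ k) s g, (1 / 2 ^ (2 * a + 11) : ℝ) ^ (T.1 ∪ T.2).card ≤
      640 / 2 ^ 15 / s := by
  obtain ⟨g₀, hg₀⟩ := fam_sup (MQ a P U) P (2 ^ k) s
    (fun 𝒮 => ∑ T ∈ 𝒮, (1 / 2 ^ (2 * a + 11) : ℝ) ^ (T.1 ∪ T.2).card)
  refine (hg₀ g).trans ?_
  clear g
  by_contra hcon
  push Not at hcon
  have hs0 : 0 < s := lt_of_lt_of_le (by positivity) hs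
  obtain ⟨b1, b2, b3⟩ := fin_MQ ha h.pd h.u0 P
  have hm0 : 0 < (MQ a P U 0).toReal := ENNReal.toReal_pos b2.1 b2.2
  set N := ∑ T ∈ Fam (MQ a P U) P (2 ^ k) s g₀, (1 / 2 ^ (2 * a + 11) : ℝ) ^ (T.1 ∪ T.2).card with hN
  have hN0 : 0 < N := lt_trans (by positivity) hcon
  have hd0 : (0 : ℝ) ≤ 1 / 2 ^ (19 * k) := by positivity
  have hk1 : (1 : ℝ) ≤ k := by exact_mod_cast (by omega : 1 ≤ k)
  have hs1 : s ≤ 1 / 1000 := by
    have h1 : (1 : ℝ) / (2 ^ 28 * (k : ℝ) ^ 3) ≤ 1 / 2 ^ 28 := by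
      apply one_div_le_one_div_of_le (by positivity)
      have : (1 : ℝ) ≤ (k : ℝ) ^ 3 := one_le_pow₀ hk1
      nlinarith
    have h2 : (1 : ℝ) / 2 ^ 28 ≤ 1 / 1000 := by norm_num
    linarith
  have hbig : ∀ j : ℕ, 10 * k ≤ j → (1 : ℝ) / 2 ^ j ≤ 1 / 1000 / 2 * s := by
    intro j hj
    have e1 : (2 : ℝ) ^ 11 * 2 ^ (9 * k) ≤ 2 ^ j := by
      rw [← pow_add]
      exact pow_le_pow_right₀ (by norm_num) (by omega)
    have e2 : (1 : ℝ) / 2 ^ j ≤ 1 / (2 ^ 11 * 2 ^ (9 * k)) :=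
      one_div_le_one_div_of_le (by positivity) e1
    have e3 : (1 : ℝ) / (2 ^ 11 * 2 ^ (9 * k)) = 1 / 2 ^ 11 * (1 / 2 ^ (9 * k)) := by
      rw [one_div_mul_one_div]
    rw [e3] at e2
    have e4 : (1 : ℝ) / 2 ^ 11 * (1 / 2 ^ (9 * k)) ≤ 1 / 2 ^ 11 * s :=
      mul_le_mul_of_nonneg_left hs (by positivity)
    have e5 : (1 : ℝ) / 2 ^ 11 * s ≤ 1 / 1000 / 2 * s :=
      mul_le_mul_of_nonneg_right (by norm_num) hs0.le
    linarith
  have hd : (1 : ℝ) / 2 ^ (19 * k) ≤ s / 1000 := by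
    have := hbig (19 * k) (by omega)
    linarith
  have hz : (2 : ℝ) / 2 ^ (17 * k) ≤ s / 1000 := by
    have := hbig (17 * k) (by omega)
    have e : (2 : ℝ) / 2 ^ (17 * k) = 2 * (1 / 2 ^ (17 * k)) := by ring
    rw [e]
    linarith
  -- the first moment
  have hfirst : N * ((1 - 8 / 7 * s - 2 * (1 / 2 ^ (19 * k))) * (MQ a P U 0).toReal) ≤
      ∑ T ∈ Fam (MQ a P U) P (2 ^ k) s g₀, (1 / 2 ^ (2 * a + 11) : ℝ) ^ (T.1 ∪ T.2).card *
        (MQ a (P \ (T.1 ∪ T.2)) U (g₀ - sg T.1 T.2)).toReal := by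
    rw [hN, Finset.sum_mul]
    refine Finset.sum_le_sum fun T hT => ?_
    refine mul_le_mul_of_nonneg_left ?_ (by positivity)
    obtain ⟨⟨hT1, hT2⟩, hTd, hTne, hTc, hTf, hTk⟩ := mem_Fam.1 hT
    obtain ⟨a1, a2, a3⟩ := fin_MQ ha h.pd h.u0 (P \ (T.1 ∪ T.2))
    have hmT : 0 < (MQ a (P \ (T.1 ∪ T.2)) U 0).toReal := ENNReal.toReal_pos a2.1 a2.2
    have hown := Lev.own ha hk h (union_subset hT1 hT2) hTc (g₀ - sg T.1 T.2)
    have hmass := Lev.mass ha hk h (union_subset hT1 hT2) hTc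
    set mT := (MQ a (P \ (T.1 ∪ T.2)) U 0).toReal with hmTdef
    have h1 : (1 - 8 / 7 * s - 1 / 2 ^ (19 * k)) * mT ≤
        (MQ a (P \ (T.1 ∪ T.2)) U (g₀ - sg T.1 T.2)).toReal := by
      have h2 : kap (MQ a (P \ (T.1 ∪ T.2)) U) (g₀ - sg T.1 T.2) ≤
          8 / 7 * s + 1 / 2 ^ (19 * k) := by linarith
      unfold kap at h2
      have h3 : 1 - 8 / 7 * s - 1 / 2 ^ (19 * k) ≤
          (MQ a (P \ (T.1 ∪ T.2)) U (g₀ - sg T.1 T.2)).toReal / mT := by linarith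
      rwa [le_div_iff₀ hmT] at h3
    have h4 : (1 - 1 / 2 ^ (19 * k)) * (MQ a P U 0).toReal ≤ mT := by
      have h5 := mul_le_mul_of_nonneg_left hmass (Real.exp_pos (-(1 / 2 ^ (19 * k)))).le
      rw [← mul_assoc, ← Real.exp_add, neg_add_cancel, Real.exp_zero, one_mul] at h5
      have h6 := Real.add_one_le_exp (-(1 / 2 ^ (19 * k) : ℝ))
      have h7 : (1 - 1 / 2 ^ (19 * k)) * (MQ a P U 0).toReal ≤
          Real.exp (-(1 / 2 ^ (19 * k))) * (MQ a P U 0).toReal :=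
        mul_le_mul_of_nonneg_right (by linarith) hm0.le
      exact h7.trans h5
    have h8 : 0 ≤ 1 - 8 / 7 * s - 1 / 2 ^ (19 * k) := by linarith
    have h9 := mul_le_mul_of_nonneg_left h4 h8
    set d : ℝ := 1 / 2 ^ (19 * k)
    set m0 := (MQ a P U 0).toReal
    have h10 : (1 - 8 / 7 * s - 2 * d) * m0 ≤ (1 - 8 / 7 * s - d) * ((1 - d) * m0) := by
      have : (1 - 8 / 7 * s - d) * ((1 - d) * m0) - (1 - 8 / 7 * s - 2 * d) * m0 =
          (8 / 7 * s * d + d * d) * m0 := by ring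
      have h11 : 0 ≤ (8 / 7 * s * d + d * d) * m0 := by positivity
      linarith
    linarith
  have hsecond := second_real ha P h.pd h.u0 (Fam (MQ a P U) P (2 ^ k) s g₀) Fam_sub_SS
    (fun T => (1 / 2 ^ (2 * a + 11) : ℝ) ^ (T.1 ∪ T.2).card) (fun T => by positivity) g₀
  have hrows : ∑ T ∈ Fam (MQ a P U) P (2 ^ k) s g₀, ∑ T' ∈ Fam (MQ a P U) P (2 ^ k) s g₀,
      (1 / 2 ^ (2 * a + 11) : ℝ) ^ (T.1 ∪ T.2).card * (1 / 2 ^ (2 * a + 11) : ℝ) ^ (T'.1 ∪ T'.2).card *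
        KR a P U g₀ T T' ≤
      N * ((MQ a P U 0).toReal * (N * (1 + 1 / 23 * (8 / 7 * kap (MQ a P U) g₀ +
        4 * (1 / 2 ^ (19 * k))) + 2 / 2 ^ (17 * k)) + 1 / 2 ^ 9)) := by
    conv_rhs => rw [hN, Finset.sum_mul]
    refine Finset.sum_le_sum fun T hT => ?_
    have h1 := row_sum ha hk h hs0.le hs' hT hN0.le hg₀
    have e1 : (4 : ℝ) / 2 ^ (19 * k) = 4 * (1 / 2 ^ (19 * k)) := by ring
    rw [e1] at h1
    simp only [mul_assoc]
    rw [← Finset.mul_sum]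
    exact mul_le_mul_of_nonneg_left h1 (by positivity)
  have hkap0 := b1.kap_nonneg b2 g₀
  have hkap1 : kap (MQ a P U) g₀ ≤ 1 := by
    unfold kap
    have : 0 ≤ (MQ a P U g₀).toReal / (MQ a P U 0).toReal :=
      div_nonneg ENNReal.toReal_nonneg ENNReal.toReal_nonneg
    linarith
  have hmg : (MQ a P U g₀).toReal = (1 - kap (MQ a P U) g₀) * (MQ a P U 0).toReal := by
    unfold kap
    field_simp
    ring
  have hpos : 0 ≤ 1 - 8 / 7 * s - 2 * (1 / 2 ^ (19 * k)) := by linarith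
  have hmain : (N * ((1 - 8 / 7 * s - 2 * (1 / 2 ^ (19 * k))) * (MQ a P U 0).toReal)) ^ 2 ≤
      (MQ a P U g₀).toReal * (N * ((MQ a P U 0).toReal * (N * (1 + 1 / 23 * (8 / 7 * kap (MQ a P U) g₀ +
        4 * (1 / 2 ^ (19 * k))) + 2 / 2 ^ (17 * k)) + 1 / 2 ^ 9))) := by
    refine le_trans (pow_le_pow_left₀ (mul_nonneg hN0.le (mul_nonneg hpos hm0.le)) hfirst 2) ?_
    exact hsecond.trans (mul_le_mul_of_nonneg_left hrows ENNReal.toReal_nonneg)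
  have hκ := mu_num hcon hs0 hs1 hkap0 hkap1 hd0 hd (by positivity) hz hm0 hmg hmain
  -- a member of the family
  have hne : (Fam (MQ a P U) P (2 ^ k) s g₀).Nonempty := by
    rw [Finset.nonempty_iff_ne_empty]
    intro he
    rw [hN, he, Finset.sum_empty] at hN0
    exact lt_irrefl _ hN0
  obtain ⟨T, hT⟩ := hne
  obtain ⟨⟨hT1, hT2⟩, hTd, hTne, hTc, hTf, hTk⟩ := mem_Fam.1 hT
  have h1 := hTf T.1 (Finset.Subset.refl _) T.2 (Finset.Subset.refl _) hTne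
  have h2 := b1.kap_sub b2 (x := g₀) (y := g₀ - sg T.1 T.2) (Real.sqrt_nonneg (3 * s))
    (Real.sqrt_nonneg s) (by rw [Real.sq_sqrt (by positivity)]; exact hκ)
    (by rw [Real.sq_sqrt hs0.le]; exact hTk)
  rw [sub_sub_cancel] at h2
  have h3 : (Real.sqrt (3 * s) + Real.sqrt s) ^ 2 ≤ 16 * s := by
    have e1 := Real.sq_sqrt (show 0 ≤ 3 * s by positivity)
    have e2 := Real.sq_sqrt hs0.le
    nlinarith [sq_nonneg (Real.sqrt (3 * s) - Real.sqrt s)]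
  linarith

end Pool.Agent.SPG
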