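import Pool.Agent.SPG.Own
import Pool.Agent.SPG.Mu
import Pool.Agent.SPG.LevelB

/-!
Colouring of one level (row LC).
-/

set_option autoImplicit false

namespace Pool.Agent.SPG

open Finset
open scoped ENNReal
open Pool.Agent.Helper36.LL (conv dlt FF gw tern)
open Pool.Agent.SP (VV sg kap PD GI Ext Fin0 thg yb St SS Fam Free)

variable {G : Type*} [AddCommGroup G] [DecidableEq G]

theorem level_colour {a k : ℕ} (ha : 2 ≤ a) (hk : 2 ^ (a + 20) ≤ k) {P : Finset G}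
    {E U : G → ℝ≥0∞} (h : Lev a k P E U) :
    ∃ f : G → Fin (2 ^ (4 * a + 26)), ∀ A B : Finset G, A ⊆ P → B ⊆ P →
      Disjoint A B → (A ∪ B).Nonempty → (A ∪ B).card ≤ 2 ^ k →
      (∀ x ∈ A ∪ B, ∀ y ∈ A ∪ B, f x = f y) →
      cfa a / ((A ∪ B).card : ℝ) ^ 11 ≤ kap (MQ a P U) (sg A B) ∧
        1 / 2 ^ (9 * k) < kap (MQ a P U) (sg A B) := by
  have hk1 : 100 ≤ k := by
    have : 2 ^ 20 ≤ 2 ^ (a + 20) := Nat.pow_le_pow_right (by norm_num) (by omega)
    omega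
  exact level_colour_of ha hk h
    (fun A B hA hB hAB hne hc hs => Lev.len ha hk1 h hA hB hAB hne hc hs)
    (fun s hs hs' g => mu_claim ha hk1 h hs hs' g)

end Pool.Agent.SPG
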