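import Pool.Agent.SPG.Wts
import Pool.Agent.SPG.Closure
import Pool.Agent.SPG.Level
import Pool.Agent.SPG.EShift
import Pool.Agent.SP.Virt

/-!
Assembly of Part III (general weights and layers): small ternary pressure gives the levels with
their colours, and boundedly many classes without short relations.
-/

set_option autoImplicit false

namespace Pool.Agent.SPG

open Finset
open scoped ENNReal
open Pool.Agent.Helper36.LL (conv dlt FF gw tern FF_insert FF_conv)
open Pool.Agent.SP (VV sg kap PD GI Ext Fin0 thg yb St SS yb_lt strong)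

variable {G : Type*} [AddCommGroup G] [DecidableEq G]

/-- One digit of a layer splits off. -/
theorem as_split (k : ℕ) (W : ℕ → Finset G) (i : ℕ) {B : G → ℝ≥0∞} (hB : PD B) (h0 : Fin0 B)
    {s n : ℕ} (hs : s < n) {v : G} (hv : v ∈ W (i + 2 + s)) :
    ∃ N : G → ℝ≥0∞, PD N ∧ Fin0 N ∧ LL k W i B n = conv (gw (xl k s)) v N := by
  induction n with
  | zero => omega
  | succ n ih =>
    rcases Nat.lt_succ_iff_lt_or_eq.1 hs with h | h
    · obtain ⟨N, hN, hN0, e⟩ := ih h
      refine ⟨FF (fun _ => gw (xl k n)) (W (i + 2 + n)) N, hN.FF_gw (xl_lt k n) _,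
        Fin0.FF_gw hN hN0 (xl_lt k n) _, ?_⟩
      rw [LL, e, FF_conv]
    · subst h
      refine ⟨FF (fun _ => gw (xl k s)) ((W (i + 2 + s)).erase v) (LL k W i B s),
        (LL_PD k W i hB s).FF_gw (xl_lt k s) _,
        Fin0.FF_gw (LL_PD k W i hB s) (LL_Fin0 k W i hB h0 s) (xl_lt k s) _, ?_⟩
      rw [LL]
      conv_lhs => rw [← Finset.insert_erase hv]
      rw [FF_insert _ (Finset.notMem_erase _ _)]

/-- The strong sites of a level have small defect. -/
theorem as_kap_strong {a k : ℕ} (ha : 2 ≤ a) (hk : 1 ≤ k) {N : ℕ} {S : St G}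
    (hW : Antitone S.W) (hN : S.W N = ∅) (i : ℕ) {v : G} (hv : v ∈ S.W (i + 2)) :
    kap (MM a k N S i) v ≤ 1 / 2 ^ (20 * k) := by
  have hN1 : 0 < N := by
    by_contra hcon
    have h1 : S.W (i + 2) ⊆ S.W N := hW (by omega)
    rw [hN] at h1
    exact absurd (h1 hv) (Finset.notMem_empty _)
  have hyb := yb_lt hk
  obtain ⟨N0, hp, hf, e0⟩ := as_split k S.W i (PD.VV hyb (S.l i)) (Fin0.VV hyb (S.l i)) hN1
    (v := v) hv
  set M := FF (fun _ : G => tern (wp a)) (S.P i) (FF (fun _ : G => tern (wb a)) (S.P (i + 1)) N0)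
    with hM
  have e1 : MM a k N S i = conv (gw (xl k 0)) v M := by
    unfold MM UU MQ EE
    rw [e0, FF_conv, FF_conv]
  have p1 : PD M := PD.FF_tern (PD.FF_tern hp (wb_half ha) _) (wp_half ha) _
  have f1 : Fin0 M := Fin0.FF_tern (PD.FF_tern hp (wb_half ha) _)
    (Fin0.FF_tern hp hf (wb_half ha) _) (wp_half ha) _
  have h2 : (0 : ℝ) < 1 / 2 ^ (20 * k + 2 * 0) := by positivity
  have h3 : (1 : ℝ) / 2 ^ (20 * k + 2 * 0) ≤ 1 := by
    rw [div_le_one (by positivity)]
    exact one_le_pow₀ (by norm_num)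
  have := strong p1 f1 (x := 1 - 1 / 2 ^ (20 * k + 2 * 0)) (by linarith) (by linarith) v
  rw [e1]
  unfold xl
  have h4 : (1 : ℝ) - (1 - 1 / 2 ^ (20 * k + 2 * 0)) = 1 / 2 ^ (20 * k) := by
    rw [Nat.mul_zero, Nat.add_zero]
    ring
  rw [h4] at this
  exact this

/-- **Theorem S'** with general weights. -/
theorem sprime {a k : ℕ} (ha : 2 ≤ a) (hk : 2 ^ (a + 20) ≤ k) {V : Finset G}
    (hV : Press a k V) :
    ∃ f : G → Fin (2 * 2 ^ (4 * a + 26)), ∀ A B : Finset G, A ⊆ V → B ⊆ V → Disjoint A B →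
      (A ∪ B).Nonempty → (A ∪ B).card ≤ 2 ^ k →
      (∀ x ∈ A ∪ B, ∀ y ∈ A ∪ B, f x = f y) → sg A B ≠ 0 := by
  classical
  have hk100 : 100 ≤ k := by
    refine le_trans ?_ hk
    calc 100 ≤ 2 ^ 20 := by norm_num
      _ ≤ 2 ^ (a + 20) := Nat.pow_le_pow_right (by norm_num) (by omega)
  have hk1 : 1 ≤ k := by omega
  obtain ⟨N, S, hW0, hanti, hm, hlevs⟩ := closure ha hk100 hV
  have hex : ∀ v, ∃ n, v ∉ S.W n := fun v => ⟨N, by rw [hm]; simp⟩
  set lv : G → ℕ := fun v => Nat.find (hex v) - 1 with hlv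
  have h1 : ∀ v ∈ V, v ∈ S.W (lv v) ∧ v ∉ S.W (lv v + 1) := by
    intro v hv
    have hpos : 0 < Nat.find (hex v) := by
      rw [Nat.find_pos, hW0]
      simpa using hv
    have e : lv v + 1 = Nat.find (hex v) := by
      simp only [hlv]
      omega
    refine ⟨?_, ?_⟩
    · have := Nat.find_min (hex v) (m := lv v) (by omega)
      simpa using this
    · rw [e]
      exact Nat.find_spec (hex v)
  choose f hf using fun i => level_colour ha hk (hlevs i)
  refine ⟨fun v => finProdFinEquiv (⟨lv v % 2, Nat.mod_lt _ (by norm_num)⟩, f (lv v) v), ?_⟩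
  intro A B hA hB hAB hne hc hmono hzero
  have hpar : ∀ x ∈ A ∪ B, ∀ y ∈ A ∪ B, lv x % 2 = lv y % 2 ∧ f (lv x) x = f (lv y) y := by
    intro x hx y hy
    have := hmono x hx y hy
    rw [EmbeddingLike.apply_eq_iff_eq, Prod.mk.injEq, Fin.mk.injEq] at this
    exact this
  obtain ⟨v₀, hv₀, hmin⟩ := Finset.exists_min_image (A ∪ B) lv hne
  set i := lv v₀ with hi
  set A' := A.filter (fun x => lv x = i) with hA'
  set B' := B.filter (fun x => lv x = i) with hB'
  have hA'A : A' ⊆ A := Finset.filter_subset _ _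
  have hB'B : B' ⊆ B := Finset.filter_subset _ _
  have hsub' : A' ∪ B' ⊆ A ∪ B := Finset.union_subset_union hA'A hB'B
  have hP : ∀ x ∈ V, lv x = i → x ∈ S.P i := by
    intro x hx hxi
    have := h1 x hx
    rw [hxi] at this
    exact Finset.mem_sdiff.2 this
  have hne' : (A' ∪ B').Nonempty := by
    refine ⟨v₀, ?_⟩
    rcases Finset.mem_union.1 hv₀ with h | h
    · exact Finset.mem_union_left _ (Finset.mem_filter.2 ⟨h, rfl⟩)
    · exact Finset.mem_union_right _ (Finset.mem_filter.2 ⟨h, rfl⟩)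
  have hlvi : ∀ x ∈ A' ∪ B', lv x = i := by
    intro x hx
    rcases Finset.mem_union.1 hx with h | h
    · exact (Finset.mem_filter.1 h).2
    · exact (Finset.mem_filter.1 h).2
  have key := (hf i A' B'
    (fun x hx => hP x (hA (hA'A hx)) (hlvi x (Finset.mem_union_left _ hx)))
    (fun x hx => hP x (hB (hB'B hx)) (hlvi x (Finset.mem_union_right _ hx)))
    (hAB.mono hA'A hB'B) hne' ((Finset.card_le_card hsub').trans hc) (by
      intro x hx y hy
      have := (hpar x (hsub' hx) y (hsub' hy)).2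
      rwa [hlvi x hx, hlvi y hy] at this)).2
  -- the rest
  have hrest : ∀ x ∈ V, x ∈ A ∪ B → lv x ≠ i → x ∈ S.W (i + 2) := by
    intro x hxV hx hne2
    have h2 := hmin x hx
    have h3 := (hpar x hx v₀ hv₀).1
    have h4 : i + 2 ≤ lv x := by
      omega
    exact hanti h4 (h1 x hxV).1
  have hU : PD (MM a k N S i) := MM_PD ha hk1 N S i
  have hU0 : Fin0 (MM a k N S i) := MM_Fin0 ha hk1 N S i
  have hsmall := PD.kap_sg hU hU0 (A \ A') (B \ B') (s := 1 / 2 ^ (20 * k)) (by positivity) (by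
      intro x hx
      obtain ⟨hx1, hx2⟩ := Finset.mem_sdiff.1 hx
      refine as_kap_strong ha hk1 hanti hm i
        (hrest x (hA hx1) (Finset.mem_union_left _ hx1) ?_)
      intro hcon
      exact hx2 (Finset.mem_filter.2 ⟨hx1, hcon⟩)) (by
      intro x hx
      obtain ⟨hx1, hx2⟩ := Finset.mem_sdiff.1 hx
      refine as_kap_strong ha hk1 hanti hm i
        (hrest x (hB hx1) (Finset.mem_union_right _ hx1) ?_)
      intro hcon
      exact hx2 (Finset.mem_filter.2 ⟨hx1, hcon⟩))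
  have hsg : sg A' B' = -sg (A \ A') (B \ B') := by
    have e : sg (A \ A') (B \ B') = sg A B - sg A' B' := by
      unfold sg
      rw [← Finset.sum_sdiff hA'A, ← Finset.sum_sdiff hB'B]
      abel
    rw [e, hzero]
    abel
  have key2 : 1 / 2 ^ (9 * k) < kap (MM a k N S i) (sg A' B') := key
  rw [hsg, PD.kap_neg hU] at key2
  have hcards : (((A \ A').card : ℝ) + (B \ B').card) ≤ 2 ^ k := by
    have h2 : (A \ A').card + (B \ B').card ≤ 2 ^ k := by
      have a1 := Finset.card_le_card (Finset.sdiff_subset : A \ A' ⊆ A)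
      have a2 := Finset.card_le_card (Finset.sdiff_subset : B \ B' ⊆ B)
      rw [Finset.card_union_of_disjoint hAB] at hc
      omega
    exact_mod_cast h2
  have hfin : (((A \ A').card : ℝ) + (B \ B').card) ^ 2 * (1 / 2 ^ (20 * k)) ≤
      1 / 2 ^ (9 * k) := by
    calc (((A \ A').card : ℝ) + (B \ B').card) ^ 2 * (1 / 2 ^ (20 * k))
        ≤ (2 ^ k) ^ 2 * (1 / 2 ^ (20 * k)) := by
          refine mul_le_mul_of_nonneg_right ?_ (by positivity)
          exact pow_le_pow_left₀ (by positivity) hcards 2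
      _ ≤ 1 / 2 ^ (9 * k) := by
          rw [mul_one_div, div_le_div_iff₀ (by positivity) (by positivity), one_mul, ← pow_mul,
            ← pow_add]
          exact pow_le_pow_right₀ (by norm_num) (by omega)
  linarith

/-- Export to Part IV. -/
theorem levels {a k : ℕ} (ha : 2 ≤ a) (hk : 2 ^ (a + 20) ≤ k) {V : Finset G}
    (hV : Press a k V) :
    ∃ (W : ℕ → Finset G) (E U : ℕ → G → ℝ≥0∞) (f : ℕ → G → Fin (2 ^ (4 * a + 26))),
      W 0 = V ∧ Antitone W ∧ (∃ N, W N = ∅) ∧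
      (∀ i, Lev a k (W i \ W (i + 1)) (E i) (U i)) ∧
      (∀ i, ∀ T ∈ SS (W (i + 2)), (E i 0).toReal * ∏ v ∈ T.1 ∪ T.2, xd k (lvl W v - i) ≤
        (E i (sg T.1 T.2)).toReal) ∧
      ∀ i, ∀ A B : Finset G, A ⊆ W i \ W (i + 1) → B ⊆ W i \ W (i + 1) → Disjoint A B →
        (A ∪ B).Nonempty → (A ∪ B).card ≤ 2 ^ k →
        (∀ x ∈ A ∪ B, ∀ y ∈ A ∪ B, f i x = f i y) →
        cfa a / ((A ∪ B).card : ℝ) ^ 11 ≤ kap (MQ a (W i \ W (i + 1)) (U i)) (sg A B) := by
  classical
  have hk100 : 100 ≤ k := by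
    refine le_trans ?_ hk
    calc 100 ≤ 2 ^ 20 := by norm_num
      _ ≤ 2 ^ (a + 20) := Nat.pow_le_pow_right (by norm_num) (by omega)
  have hk1 : 1 ≤ k := by omega
  obtain ⟨N, S, hW0, hanti, hm, hlevs⟩ := closure ha hk100 hV
  choose f hf using fun i => level_colour ha hk (hlevs i)
  refine ⟨S.W, EE k N S, UU a k N S, f, hW0, hanti, ⟨N, hm⟩, hlevs, ?_, ?_⟩
  · intro i T hT
    exact EE_shift hk1 hanti hm i hT
  · intro i A B hA hB hAB hne hc hmono
    exact (hf i A B hA hB hAB hne hc hmono).1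

end Pool.Agent.SPG
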