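import Pool.Agent.SPG.Defs
import Pool.Agent.SP.Own

/-!
Own sites, general weights.
-/

set_option autoImplicit false

namespace Pool.Agent.SPG

open Finset
open scoped ENNReal
open Pool.Agent.Helper36.LL (conv dlt FF gw tern FF_insert FF_empty tern_zero)
open Pool.Agent.SP (VV sg kap PD GI Ext Fin0 thg yb St SS FF_union_own mem_SS FF_tern_sum d_le
  exp_card_le exp_le_own one_pattern kap_swap sg_erase_left conv_tern_apply)

variable {G : Type*} [AddCommGroup G] [DecidableEq G]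

theorem MQ_split (a : ℕ) (U : G → ℝ≥0∞) {P F : Finset G} (hF : F ⊆ P) :
    MQ a P U = FF (fun _ => tern (wp a)) F (MQ a (P \ F) U) := by
  unfold MQ
  rw [← FF_union_own _ disjoint_sdiff, union_sdiff_of_subset hF]

theorem own_wp_half (a : ℕ) : wp a ≤ 2⁻¹ := by
  unfold wp
  refine ENNReal.inv_le_inv.2 ?_
  calc (2 : ℝ≥0∞) = 2 ^ 1 := (pow_one _).symm
    _ ≤ 2 ^ (a + 4) := pow_le_pow_right₀ (by norm_num) (by omega)

theorem own_wb_half (a : ℕ) : wb a ≤ 2⁻¹ := by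
  unfold wb
  refine ENNReal.inv_le_inv.2 ?_
  calc (2 : ℝ≥0∞) = 2 ^ 1 := (pow_one _).symm
    _ ≤ 2 ^ (a + 1) := pow_le_pow_right₀ (by norm_num) (by omega)

theorem own_wp_ne_top (a : ℕ) : wp a ≠ ⊤ :=
  ne_top_of_le_ne_top (by norm_num) (own_wp_half a)

theorem own_wb_ne_top (a : ℕ) : wb a ≠ ⊤ :=
  ne_top_of_le_ne_top (by norm_num) (own_wb_half a)

theorem own_eight (a : ℕ) : 8 * wp a = wb a := by
  unfold wp wb
  have : (2 : ℝ≥0∞) ^ (a + 4) = 8 * 2 ^ (a + 1) := by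
    rw [pow_add, pow_add, pow_one]
    ring_nf
  rw [this, ENNReal.mul_inv (Or.inl (by norm_num)) (Or.inl (by norm_num)), ← mul_assoc,
    ENNReal.mul_inv_cancel (by norm_num) (by norm_num), one_mul]

theorem own_wp_le_wb (a : ℕ) : wp a ≤ wb a := by
  rw [← own_eight]
  calc wp a = 1 * wp a := (one_mul _).symm
    _ ≤ 8 * wp a := by
      gcongr
      norm_num

theorem own_wp_real (a : ℕ) : (wp a).toReal = 1 / 2 ^ (a + 4) := by
  unfold wp
  rw [ENNReal.toReal_inv, ENNReal.toReal_pow]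
  norm_num

theorem own_wb_real (a : ℕ) : (wb a).toReal = 1 / 2 ^ (a + 1) := by
  unfold wb
  rw [ENNReal.toReal_inv, ENNReal.toReal_pow]
  norm_num

/-- Scaling of the weights. -/
theorem scale_own (a : ℕ) (M : G → ℝ≥0∞) (F : Finset G) (g : G) :
    8 * FF (fun _ => tern (wp a)) F M g ≤ FF (fun _ => tern (wb a)) F M g + 7 * M g := by
  have h0 : (∅, ∅) ∈ SS F := by
    rw [mem_SS]
    exact ⟨empty_subset _, empty_subset _, disjoint_empty_left _⟩
  rw [FF_tern_sum, FF_tern_sum, Finset.mul_sum, ← Finset.add_sum_erase _ _ h0,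
    ← Finset.add_sum_erase _ _ h0]
  have e0 : g - sg (∅ : Finset G) ∅ = g := by simp [sg]
  simp only [card_empty, add_zero, pow_zero, one_mul, e0]
  have h1 : ∑ x ∈ (SS F).erase (∅, ∅), 8 * ((wp a : ℝ≥0∞) ^ (x.1.card + x.2.card) *
      M (g - sg x.1 x.2)) ≤
      ∑ x ∈ (SS F).erase (∅, ∅), (wb a : ℝ≥0∞) ^ (x.1.card + x.2.card) * M (g - sg x.1 x.2) := by
    refine Finset.sum_le_sum fun x hx => ?_
    rw [← mul_assoc]
    gcongr
    obtain ⟨n, hn⟩ : ∃ n, x.1.card + x.2.card = n + 1 := by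
      refine Nat.exists_eq_succ_of_ne_zero fun h => ?_
      rw [mem_erase] at hx
      apply hx.1
      have h1 : x.1 = ∅ := card_eq_zero.1 (by omega)
      have h2 : x.2 = ∅ := card_eq_zero.1 (by omega)
      exact Prod.ext h1 h2
    rw [hn, pow_succ, pow_succ]
    calc (8 : ℝ≥0∞) * ((wp a : ℝ≥0∞) ^ n * wp a) = (wp a : ℝ≥0∞) ^ n * (8 * wp a) := by ring
      _ ≤ (wb a : ℝ≥0∞) ^ n * wb a := by
          rw [own_eight]
          gcongr
          exact own_wp_le_wb a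
  calc 8 * M g + ∑ x ∈ (SS F).erase (∅, ∅), 8 * ((wp a : ℝ≥0∞) ^ (x.1.card + x.2.card) *
        M (g - sg x.1 x.2))
      ≤ 8 * M g + ∑ x ∈ (SS F).erase (∅, ∅), (wb a : ℝ≥0∞) ^ (x.1.card + x.2.card) *
          M (g - sg x.1 x.2) := by gcongr
    _ = _ := by
        have : (8 : ℝ≥0∞) * M g = M g + 7 * M g := by
          rw [show (8 : ℝ≥0∞) = 1 + 7 by norm_num, add_mul, one_mul]
        rw [this]
        ring

/-- The real form of the basic data. -/
theorem own_core {a k : ℕ} (hk : 100 ≤ k) {P : Finset G} {E U : G → ℝ≥0∞} (h : Lev a k P E U)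
    {F : Finset G} (hF : F ⊆ P) (hc : F.card ≤ 2 ^ k) :
    PD (MQ a (P \ F) U) ∧ Fin0 (MQ a (P \ F) U) ∧ PD (MQ a P U) ∧ Fin0 (MQ a P U) ∧
    (MQ a (P \ F) U 0).toReal ≤ (MQ a P U 0).toReal ∧
    (∀ g, (FF (fun _ => tern (wb a)) F (MQ a (P \ F) U) g) ≠ ⊤) ∧
    (∀ g, (FF (fun _ => tern (wb a)) F (MQ a (P \ F) U) g).toReal ≤
      Real.exp (1 / 2 ^ (19 * k)) * (MQ a P U 0).toReal) ∧
    (∀ g, 8 * (MQ a P U g).toReal ≤ (FF (fun _ => tern (wb a)) F (MQ a (P \ F) U) g).toReal +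
      7 * (MQ a (P \ F) U g).toReal) := by
  have h64 : wp a ≤ 2⁻¹ := own_wp_half a
  have h8 : wb a ≤ 2⁻¹ := own_wb_half a
  have a1 : PD (MQ a (P \ F) U) := PD.FF_tern h.pd h64 _
  have a2 : Fin0 (MQ a (P \ F) U) := Fin0.FF_tern h.pd h.u0 h64 _
  have a3 : PD (MQ a P U) := PD.FF_tern h.pd h64 _
  have a4 : Fin0 (MQ a P U) := Fin0.FF_tern h.pd h.u0 h64 _
  have b1 : PD (FF (fun _ => tern (wb a)) F (MQ a (P \ F) U)) := PD.FF_tern a1 h8 _
  have b2 : Fin0 (FF (fun _ => tern (wb a)) F (MQ a (P \ F) U)) := Fin0.FF_tern a1 a2 h8 _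
  have hfin : ∀ g, FF (fun _ => tern (wb a)) F (MQ a (P \ F) U) g ≠ ⊤ := fun g =>
    ne_top_of_le_ne_top b2.2 (b1.le_zero g)
  have hfin0 : ∀ g, MQ a (P \ F) U g ≠ ⊤ := fun g => ne_top_of_le_ne_top a2.2 (a1.le_zero g)
  refine ⟨a1, a2, a3, a4, ?_, hfin, ?_, ?_⟩
  · refine ENNReal.toReal_mono a4.2 ?_
    rw [MQ_split a U hF]
    exact Pool.Agent.Helper36.LL.FF_zero_le (fun _ _ => tern_zero _) _ _
  · intro g
    have h1 : FF (fun _ => tern (wb a)) F (MQ a (P \ F) U) 0 ≤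
        ENNReal.ofReal (Real.exp (F.card / 2 ^ (20 * k))) * MQ a P U 0 := by
      rcases F.eq_empty_or_nonempty with rfl | hne
      · simp
      · exact h.light F hF hne hc
    have h2 := ENNReal.toReal_mono (ENNReal.mul_ne_top ENNReal.ofReal_ne_top a4.2)
      ((b1.le_zero g).trans h1)
    rw [ENNReal.toReal_mul, ENNReal.toReal_ofReal (Real.exp_pos _).le] at h2
    exact h2.trans (mul_le_mul_of_nonneg_right (exp_card_le hc) ENNReal.toReal_nonneg)
  · intro g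
    have h1 := scale_own a (MQ a (P \ F) U) F g
    rw [← MQ_split a U hF] at h1
    have h2 := ENNReal.toReal_mono (ENNReal.add_ne_top.2 ⟨hfin g, ENNReal.mul_ne_top (by norm_num)
      (hfin0 g)⟩) h1
    rw [ENNReal.toReal_mul, ENNReal.toReal_add (hfin g) (ENNReal.mul_ne_top (by norm_num)
      (hfin0 g)), ENNReal.toReal_mul] at h2
    simpa using h2

theorem Lev.mass {a k : ℕ} (ha : 2 ≤ a) (hk : 100 ≤ k) {P : Finset G} {E U : G → ℝ≥0∞} (h : Lev a k P E U)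
    {F : Finset G} (hF : F ⊆ P) (hc : F.card ≤ 2 ^ k) :
    (MQ a P U 0).toReal ≤ Real.exp (1 / 2 ^ (19 * k)) * (MQ a (P \ F) U 0).toReal := by
  obtain ⟨a1, a2, a3, a4, h1, hfin, h2, h3⟩ := own_core hk h hF hc
  have hd0 : (0 : ℝ) ≤ 1 / 2 ^ (19 * k) := by positivity
  obtain ⟨e1, e2⟩ := exp_le_own hd0 (d_le k hk)
  have hd1 := d_le k hk
  have h4 := h2 0
  have h5 := h3 0
  have hp : 0 < (MQ a P U 0).toReal := ENNReal.toReal_pos a4.1 a4.2
  set p := (MQ a P U 0).toReal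
  set q := (MQ a (P \ F) U 0).toReal
  set e := Real.exp (1 / 2 ^ (19 * k))
  have h6 : (8 - e) * p ≤ 7 * q := by linarith
  have h7 : 0 ≤ (e - 1) * (7 - e) := mul_nonneg (by linarith) (by linarith)
  have h8 : e * ((8 - e) * p) ≤ e * (7 * q) := mul_le_mul_of_nonneg_left h6 (by linarith)
  nlinarith [mul_nonneg h7 hp.le]

theorem Lev.own {a k : ℕ} (ha : 2 ≤ a) (hk : 100 ≤ k) {P : Finset G} {E U : G → ℝ≥0∞} (h : Lev a k P E U)
    {F : Finset G} (hF : F ⊆ P) (hc : F.card ≤ 2 ^ k) (x : G) :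
    kap (MQ a (P \ F) U) x ≤ 8 / 7 * kap (MQ a P U) x + 1 / 2 ^ (19 * k) := by
  obtain ⟨a1, a2, a3, a4, h1, hfin, h2, h3⟩ := own_core hk h hF hc
  have hd0 : (0 : ℝ) ≤ 1 / 2 ^ (19 * k) := by positivity
  obtain ⟨e1, e2⟩ := exp_le_own hd0 (d_le k hk)
  have h4 := h2 x
  have h5 := h3 x
  have hp : 0 < (MQ a P U 0).toReal := ENNReal.toReal_pos a4.1 a4.2
  have hb : 0 < (MQ a (P \ F) U 0).toReal := ENNReal.toReal_pos a2.1 a2.2
  have hx0 : 0 ≤ (MQ a (P \ F) U x).toReal := ENNReal.toReal_nonneg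
  unfold kap
  set p := (MQ a P U 0).toReal
  set q := (MQ a (P \ F) U 0).toReal
  set e := Real.exp (1 / 2 ^ (19 * k))
  set ax := (MQ a P U x).toReal
  set bx := (MQ a (P \ F) U x).toReal
  set d : ℝ := 1 / 2 ^ (19 * k)
  have h6 : 8 * (ax / p) ≤ e + 7 * (bx / p) := by
    have : 8 * (ax / p) = (8 * ax) / p := by ring
    rw [this, div_le_iff₀ hp]
    have : (e + 7 * (bx / p)) * p = e * p + 7 * bx := by field_simp
    rw [this]
    linarith
  have h7 : bx / p ≤ bx / q := div_le_div_of_nonneg_left hx0 hb h1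
  linarith

theorem Lev.patterns {a k : ℕ} (ha : 2 ≤ a) (hk : 100 ≤ k) {P : Finset G} {E U : G → ℝ≥0∞}
    (h : Lev a k P E U) {A B : Finset G} (hA : A ⊆ P) (hB : B ⊆ P) (hAB : Disjoint A B)
    (hc : (A ∪ B).card ≤ 2 ^ k) {w : ℝ} (hw : 0 ≤ w) (hw8 : w ≤ 1 / 2 ^ (a + 1)) (x : G) :
    ∑ I ∈ (A.powerset ×ˢ B.powerset).erase (∅, ∅),
        w ^ (I.1.card + I.2.card) * (MQ a (P \ (A ∪ B)) U (x - sg I.1 I.2)).toReal ≤
      2 ^ (a + 1) * w * (kap (MQ a (P \ (A ∪ B)) U) x + 3 / 2 ^ (19 * k)) *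
        (MQ a (P \ (A ∪ B)) U 0).toReal := by
  have hF : A ∪ B ⊆ P := union_subset hA hB
  obtain ⟨a1, a2, a3, a4, h1, hfin, h2, h3⟩ := own_core hk h hF hc
  have hmass := Lev.mass ha hk h hF hc
  have hd0 : (0 : ℝ) ≤ 1 / 2 ^ (19 * k) := by positivity
  have hd1 := d_le k hk
  obtain ⟨e1, e2⟩ := exp_le_own hd0 hd1
  set M := MQ a (P \ (A ∪ B)) U with hM
  have hMfin : ∀ g, M g ≠ ⊤ := fun g => ne_top_of_le_ne_top a2.2 (a1.le_zero g)
  have hb : 0 < (M 0).toReal := ENNReal.toReal_pos a2.1 a2.2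
  have h0 : (∅, ∅) ∈ SS (A ∪ B) := by
    rw [mem_SS]
    exact ⟨empty_subset _, empty_subset _, disjoint_empty_left _⟩
  have hsum : (FF (fun _ => tern (wb a)) (A ∪ B) M x).toReal =
      (M x).toReal + ∑ T ∈ (SS (A ∪ B)).erase (∅, ∅),
        (1 / 2 ^ (a + 1) : ℝ) ^ (T.1.card + T.2.card) * (M (x - sg T.1 T.2)).toReal := by
    rw [FF_tern_sum, ENNReal.toReal_sum (fun T _ => ENNReal.mul_ne_top
      (ENNReal.pow_ne_top (own_wb_ne_top a)) (hMfin _)), ← Finset.add_sum_erase _ _ h0]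
    have e0 : x - sg (∅ : Finset G) ∅ = x := by simp [sg]
    congr 1
    · simp [e0]
    · refine Finset.sum_congr rfl fun T _ => ?_
      rw [ENNReal.toReal_mul, ENNReal.toReal_pow, own_wb_real]
  have hsub : (A.powerset ×ˢ B.powerset).erase (∅, ∅) ⊆ (SS (A ∪ B)).erase (∅, ∅) := by
    apply erase_subset_erase
    intro T hT
    rw [mem_product, mem_powerset, mem_powerset] at hT
    rw [mem_SS]
    exact ⟨hT.1.trans subset_union_left, hT.2.trans subset_union_right,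
      (hAB.mono_left hT.1).mono_right hT.2⟩
  have hterm : ∀ T ∈ (A.powerset ×ˢ B.powerset).erase (∅, ∅),
      w ^ (T.1.card + T.2.card) * (M (x - sg T.1 T.2)).toReal ≤
      2 ^ (a + 1) * w * ((1 / 2 ^ (a + 1) : ℝ) ^ (T.1.card + T.2.card) * (M (x - sg T.1 T.2)).toReal) := by
    intro T hT
    rw [← mul_assoc]
    refine mul_le_mul_of_nonneg_right ?_ ENNReal.toReal_nonneg
    obtain ⟨n, hn⟩ : ∃ n, T.1.card + T.2.card = n + 1 := by
      refine Nat.exists_eq_succ_of_ne_zero fun h => ?_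
      rw [mem_erase] at hT
      apply hT.1
      have h1 : T.1 = ∅ := card_eq_zero.1 (by omega)
      have h2 : T.2 = ∅ := card_eq_zero.1 (by omega)
      exact Prod.ext h1 h2
    rw [hn, pow_succ w n, pow_succ (1 / 2 ^ (a + 1) : ℝ) n]
    have h9 : w ^ n ≤ (1 / 2 ^ (a + 1) : ℝ) ^ n := pow_le_pow_left₀ hw hw8 n
    have h10 : (2 : ℝ) ^ (a + 1) * w * ((1 / 2 ^ (a + 1)) ^ n * (1 / 2 ^ (a + 1))) =
        (1 / 2 ^ (a + 1)) ^ n * w := by
      field_simp
    rw [h10]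
    exact mul_le_mul_of_nonneg_right h9 hw
  calc ∑ I ∈ (A.powerset ×ˢ B.powerset).erase (∅, ∅),
        w ^ (I.1.card + I.2.card) * (M (x - sg I.1 I.2)).toReal
      ≤ ∑ T ∈ (A.powerset ×ˢ B.powerset).erase (∅, ∅),
          2 ^ (a + 1) * w * ((1 / 2 ^ (a + 1) : ℝ) ^ (T.1.card + T.2.card) * (M (x - sg T.1 T.2)).toReal) :=
        Finset.sum_le_sum hterm
    _ ≤ ∑ T ∈ (SS (A ∪ B)).erase (∅, ∅),
          2 ^ (a + 1) * w * ((1 / 2 ^ (a + 1) : ℝ) ^ (T.1.card + T.2.card) * (M (x - sg T.1 T.2)).toReal) := by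
        refine Finset.sum_le_sum_of_subset_of_nonneg hsub fun T _ _ => ?_
        have := (ENNReal.toReal_nonneg : 0 ≤ (M (x - sg T.1 T.2)).toReal)
        positivity
    _ = 2 ^ (a + 1) * w * ((FF (fun _ => tern (wb a)) (A ∪ B) M x).toReal - (M x).toReal) := by
        rw [← Finset.mul_sum, hsum]; ring
    _ ≤ 2 ^ (a + 1) * w * ((kap M x + 3 / 2 ^ (19 * k)) * (M 0).toReal) := by
        refine mul_le_mul_of_nonneg_left ?_ (by positivity)
        have h4 := h2 x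
        have h5 : (kap M x + 3 / 2 ^ (19 * k)) * (M 0).toReal =
            (1 + 3 * (1 / 2 ^ (19 * k))) * (M 0).toReal - (M x).toReal := by
          unfold kap
          field_simp
          ring
        rw [h5]
        have h6 : Real.exp (1 / 2 ^ (19 * k)) * (MQ a P U 0).toReal ≤
            Real.exp (1 / 2 ^ (19 * k)) * (Real.exp (1 / 2 ^ (19 * k)) * (M 0).toReal) :=
          mul_le_mul_of_nonneg_left hmass (by linarith)
        have h7 : Real.exp (1 / 2 ^ (19 * k)) * Real.exp (1 / 2 ^ (19 * k)) ≤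
            1 + 3 * (1 / 2 ^ (19 * k)) := by nlinarith
        have h8 := mul_le_mul_of_nonneg_right h7 hb.le
        linarith
    _ = _ := by ring

/-- The light bound for one element. -/
theorem act_core {a k : ℕ} (hk : 100 ≤ k) {P : Finset G} {E U : G → ℝ≥0∞} (h : Lev a k P E U)
    {v : G} (hvP : ({v} : Finset G) ⊆ P) :
    (wp a).toReal * (MQ a (P \ {v}) U v).toReal ≤
      8 / 100 * (1 / 2 ^ (20 * k)) * (MQ a (P \ {v}) U 0).toReal := by
  have h2k : 1 ≤ 2 ^ k := Nat.one_le_two_pow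
  obtain ⟨a1, a2, a3, a4, h1, hfin, -, -⟩ := own_core hk h hvP (by rw [card_singleton]; exact h2k)
  have hlight := h.light {v} hvP (singleton_nonempty v) (by rw [card_singleton]; exact h2k)
  set Mv := MQ a (P \ {v}) U with hMv
  have hMvfin : ∀ g, Mv g ≠ ⊤ := fun g => ne_top_of_le_ne_top a2.2 (a1.le_zero g)
  have hsing : ∀ w : ℝ≥0∞, FF (fun _ => tern w) {v} Mv 0 = Mv 0 + 2 * w * Mv v := by
    intro w
    have : ({v} : Finset G) = insert v ∅ := rfl
    rw [this, FF_insert _ (notMem_empty v), FF_empty, conv_tern_apply, zero_sub, zero_add,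
      a1.neg]
    ring
  have hsp : MQ a P U 0 = Mv 0 + 2 * wp a * Mv v := by rw [MQ_split a U hvP, hsing]
  rw [hsing, hsp] at hlight
  have t1 : 2 * wp a * Mv v ≠ ⊤ := ENNReal.mul_ne_top (ENNReal.mul_ne_top (by norm_num)
      (own_wp_ne_top a)) (hMvfin v)
  have t2 : 2 * wb a * Mv v ≠ ⊤ := ENNReal.mul_ne_top (ENNReal.mul_ne_top (by norm_num)
      (own_wb_ne_top a)) (hMvfin v)
  have hl := ENNReal.toReal_mono (ENNReal.mul_ne_top ENNReal.ofReal_ne_top
    (ENNReal.add_ne_top.2 ⟨a2.2, t1⟩)) hlight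
  rw [ENNReal.toReal_mul, ENNReal.toReal_ofReal (Real.exp_pos _).le,
    ENNReal.toReal_add a2.2 t2, ENNReal.toReal_add a2.2 t1, ENNReal.toReal_mul,
      ENNReal.toReal_mul, ENNReal.toReal_mul, ENNReal.toReal_mul, card_singleton] at hl
  have hMv0 : 0 < (Mv 0).toReal := ENNReal.toReal_pos a2.1 a2.2
  have hnum2 : ((2 : ℝ≥0∞).toReal) = 2 := by norm_num
  have hwb : (wb a).toReal = 8 * (wp a).toReal := by
    rw [← own_eight, ENNReal.toReal_mul]
    norm_num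
  have hwp0 : 0 ≤ (wp a).toReal := ENNReal.toReal_nonneg
  rw [hnum2, hwb] at hl
  set y := (Mv v).toReal with hy
  set z := (Mv 0).toReal with hz
  set w := (wp a).toReal with hw
  have hy0 : 0 ≤ y := ENNReal.toReal_nonneg
  have hd1 := d_le k hk
  have he1 : (1 : ℝ) / 2 ^ (20 * k) ≤ 1 / 1000 := by
    have h7 : (1 : ℝ) / 2 ^ (20 * k) ≤ 1 / 2 ^ (19 * k) := by
      apply one_div_le_one_div_of_le (by positivity)
      exact pow_le_pow_right₀ (by norm_num) (by omega)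
    exact h7.trans hd1
  have he' : Real.exp (((1 : ℕ) : ℝ) / 2 ^ (20 * k)) ≤ 1 + 101 / 100 * (1 / 2 ^ (20 * k)) := by
    have := (exp_le_own (d := 1 / 2 ^ (20 * k)) (by positivity) he1).2
    simpa using this
  set e' : ℝ := 1 / 2 ^ (20 * k) with hedef
  have he0 : 0 < e' := by rw [hedef]; positivity
  have hwy : 0 ≤ w * y := mul_nonneg hwp0 hy0
  have h10 : z + 2 * (8 * w) * y ≤ (1 + 101 / 100 * e') * (z + 2 * w * y) := by
    refine hl.trans (mul_le_mul_of_nonneg_right he' ?_)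
    positivity
  have h11 : e' * (w * y) ≤ 1 / 1000 * (w * y) := mul_le_mul_of_nonneg_right he1 hwy
  nlinarith [mul_nonneg he0.le hwy, mul_nonneg he0.le hMv0.le]

/-- Activity of one site. -/
theorem Lev.act {a k : ℕ} (ha : 2 ≤ a) (hk : 100 ≤ k) {P : Finset G} {E U : G → ℝ≥0∞}
    (h : Lev a k P E U) {v : G} (hv : v ∈ P) :
    2 * (wp a).toReal * (MQ a (P.erase v) U v).toReal ≤
      1 / 2 ^ (20 * k) * (MQ a P U 0).toReal := by
  have hvP : ({v} : Finset G) ⊆ P := singleton_subset_iff.2 hv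
  have h2k : 1 ≤ 2 ^ k := Nat.one_le_two_pow
  obtain ⟨-, -, -, -, h1, -, -, -⟩ := own_core hk h hvP (by rw [card_singleton]; exact h2k)
  have h2 := act_core hk h hvP
  have h3 : P.erase v = P \ {v} := (sdiff_singleton_eq_erase v P).symm
  rw [h3]
  have h4 : (0 : ℝ) < 1 / 2 ^ (20 * k) := by positivity
  have h5 : (0 : ℝ) ≤ (MQ a (P \ {v}) U 0).toReal := ENNReal.toReal_nonneg
  calc 2 * (wp a).toReal * (MQ a (P \ {v}) U v).toReal =
        2 * ((wp a).toReal * (MQ a (P \ {v}) U v).toReal) := by ring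
    _ ≤ 2 * (8 / 100 * (1 / 2 ^ (20 * k)) * (MQ a (P \ {v}) U 0).toReal) := by gcongr
    _ ≤ 1 / 2 ^ (20 * k) * (MQ a (P \ {v}) U 0).toReal := by nlinarith [mul_nonneg h4.le h5]
    _ ≤ 1 / 2 ^ (20 * k) * (MQ a P U 0).toReal := by gcongr

theorem len_aux {a k : ℕ} (ha : 2 ≤ a) (hk : 100 ≤ k) {P : Finset G} {E U : G → ℝ≥0∞}
    (h : Lev a k P E U) {A B : Finset G} (hA : A ⊆ P) (hB : B ⊆ P) (hAB : Disjoint A B)
    (hne : A.Nonempty) (hc : (A ∪ B).card ≤ 2 ^ k)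
    (hs : kap (MQ a P U) (sg A B) ≤ 1 / 8) : 18 * k ≤ (a + 4) * (A ∪ B).card := by
  obtain ⟨v, hv⟩ := hne
  have hvP : ({v} : Finset G) ⊆ P := singleton_subset_iff.2 (hA hv)
  have hF : A ∪ B ⊆ P := union_subset hA hB
  have h2k : 1 ≤ 2 ^ k := Nat.one_le_two_pow
  obtain ⟨a1, a2, a3, a4, h1, hfin, -, -⟩ := own_core hk h hvP (by rw [card_singleton]; exact h2k)
  obtain ⟨c1, c2, -, -, g1, -, -, -⟩ := own_core hk h hF hc
  have hmass := Lev.mass ha hk h hF hc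
  have hown := Lev.own ha hk h hF hc (sg A B)
  have hact := act_core hk h hvP
  set Mv := MQ a (P \ {v}) U with hMv
  set MD := MQ a (P \ (A ∪ B)) U with hMD
  have hd0 : (0 : ℝ) ≤ 1 / 2 ^ (19 * k) := by positivity
  have hd1 := d_le k hk
  obtain ⟨e1, e2⟩ := exp_le_own hd0 hd1
  have hMvfin : ∀ g, Mv g ≠ ⊤ := fun g => ne_top_of_le_ne_top a2.2 (a1.le_zero g)
  have hMDfin : ∀ g, MD g ≠ ⊤ := fun g => ne_top_of_le_ne_top c2.2 (c1.le_zero g)
  have hMv0 : 0 < (Mv 0).toReal := ENNReal.toReal_pos a2.1 a2.2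
  -- one pattern
  have hDv : (P \ {v}) \ (P \ (A ∪ B)) = (A ∪ B).erase v := by
    ext x
    simp only [mem_sdiff, mem_singleton, mem_union, mem_erase, not_and, not_not]
    constructor
    · rintro ⟨⟨h1, h2⟩, h3⟩
      exact ⟨h2, by have := h3 h1; tauto⟩
    · rintro ⟨h1, h2⟩
      refine ⟨⟨?_, h1⟩, fun _ => h2⟩
      rcases h2 with h2 | h2
      · exact hA h2
      · exact hB h2
  have hsplit : Mv = FF (fun _ => tern (wp a)) ((A ∪ B).erase v) MD := by
    have hss : (A ∪ B).erase v ⊆ P \ {v} := by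
      rw [← hDv]; exact sdiff_subset
    have := MQ_split a U hss
    rw [hMv, this, hMD]
    congr 1
    unfold MQ
    congr 1
    ext x
    simp only [mem_sdiff, mem_singleton, mem_union, mem_erase, not_and]
    constructor
    · rintro ⟨⟨h1, h2⟩, h3⟩
      exact ⟨h1, h3 h2⟩
    · rintro ⟨h1, h2⟩
      refine ⟨⟨h1, fun h3 => h2 (Or.inl (h3 ▸ hv))⟩, fun _ => h2⟩
  have hvB : v ∉ B := fun h => (Finset.disjoint_left.1 hAB) hv h
  have hpat := one_pattern (wp a) ((A ∪ B).erase v) MD v (A := B) (B := A.erase v)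
    (fun x hx => mem_erase.2 ⟨fun h => hvB (h ▸ hx), mem_union_right _ hx⟩)
    (erase_subset_erase _ subset_union_left) ((hAB.mono_left (erase_subset _ _)).symm)
  rw [← hsplit] at hpat
  have e3 : v - sg B (A.erase v) = sg A B := by
    rw [sg_erase_left hv]
    unfold sg
    abel
  rw [e3] at hpat
  have hcard : B.card + (A.erase v).card = (A ∪ B).card - 1 := by
    rw [card_union_of_disjoint hAB, card_erase_of_mem hv]
    have : 0 < A.card := card_pos.2 ⟨v, hv⟩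
    omega
  rw [hcard] at hpat
  have hn1 : 1 ≤ (A ∪ B).card := card_pos.2 ⟨v, mem_union_left _ hv⟩
  set n := (A ∪ B).card with hn
  have hpr := ENNReal.toReal_mono (hMvfin v) hpat
  rw [ENNReal.toReal_mul, ENNReal.toReal_pow] at hpr
  -- the value at the sum
  have hMD0 : 0 < (MD 0).toReal := ENNReal.toReal_pos c2.1 c2.2
  have hSD : (84 / 100 : ℝ) * (MD 0).toReal ≤ (MD (sg A B)).toReal := by
    have h5 : kap MD (sg A B) ≤ 16 / 100 := by
      have : (8 / 7 : ℝ) * kap (MQ a P U) (sg A B) ≤ 8 / 7 * (1 / 8) := by linarith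
      linarith
    unfold kap at h5
    have h6 : 84 / 100 ≤ (MD (sg A B)).toReal / (MD 0).toReal := by linarith
    rwa [le_div_iff₀ hMD0] at h6
  have hMD1 : (99 / 100 : ℝ) * (Mv 0).toReal ≤ (MD 0).toReal := by
    have h5 : (Mv 0).toReal ≤ Real.exp (1 / 2 ^ (19 * k)) * (MD 0).toReal := h1.trans hmass
    have h6 : Real.exp (1 / 2 ^ (19 * k)) ≤ 1 + 2 / 1000 := by linarith
    nlinarith
  -- numbers
  set y := (Mv v).toReal with hy
  set z := (Mv 0).toReal with hz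
  set w := (wp a).toReal with hw
  have hw0 : 0 ≤ w := ENNReal.toReal_nonneg
  have h12 : (83 / 100 : ℝ) * z ≤ (MD (sg A B)).toReal := by nlinarith
  have h11 : w ^ (n - 1) * ((83 / 100) * z) ≤ y :=
    le_trans (mul_le_mul_of_nonneg_left h12 (pow_nonneg hw0 _)) hpr
  have h13 : w ^ n * (83 / 100) * z ≤ 8 / 100 * (1 / 2 ^ (20 * k)) * z := by
    have h14 : w * (w ^ (n - 1) * ((83 / 100) * z)) ≤ w * y := mul_le_mul_of_nonneg_left h11 hw0
    have h15 : w ^ n = w * w ^ (n - 1) := by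
      rw [← pow_succ']
      congr 1
      omega
    rw [h15]
    linarith
  have h16 : w ^ n * (83 / 100) ≤ 8 / 100 * (1 / 2 ^ (20 * k)) := le_of_mul_le_mul_right h13 hMv0
  have h17 : w ^ n ≤ 1 / 2 ^ (20 * k) := by
    have h18 : (0 : ℝ) < 1 / 2 ^ (20 * k) := by positivity
    linarith
  rw [hw, own_wp_real, one_div_pow, ← pow_mul] at h17
  have h19 : (2 : ℝ) ^ (20 * k) ≤ 2 ^ ((a + 4) * n) := by
    rwa [one_div_le_one_div (by positivity) (by positivity)] at h17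
  have h20 : 20 * k ≤ (a + 4) * n := (pow_le_pow_iff_right₀ (by norm_num)).1 h19
  omega

theorem Lev.len {a k : ℕ} (ha : 2 ≤ a) (hk : 100 ≤ k) {P : Finset G} {E U : G → ℝ≥0∞}
    (h : Lev a k P E U) {A B : Finset G} (hA : A ⊆ P) (hB : B ⊆ P) (hAB : Disjoint A B)
    (hne : (A ∪ B).Nonempty) (hc : (A ∪ B).card ≤ 2 ^ k)
    (hs : kap (MQ a P U) (sg A B) ≤ 1 / 8) : 18 * k ≤ (a + 4) * (A ∪ B).card := by
  rcases A.eq_empty_or_nonempty with rfl | hA'
  · have hB' : B.Nonempty := by simpa using hne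
    rw [union_comm]
    rw [union_comm] at hc
    have hpd : PD (MQ a P U) := PD.FF_tern h.pd (own_wp_half a) _
    refine len_aux ha hk h hB hA hAB.symm hB' hc ?_
    rw [kap_swap hpd]
    exact hs
  · exact len_aux ha hk h hA hB hAB hA' hc hs

end Pool.Agent.SPG
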