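import Pool.Agent.SPG.Wts
import Pool.Agent.SP.Cvx

/-!
Convexity in the logarithm of the weight (Hölder) and domination (general weights, layers).
-/

set_option autoImplicit false

namespace Pool.Agent.SPG

open Finset
open scoped ENNReal
open Pool.Agent.Helper36.LL (conv dlt FF gw tern FF_union)
open Pool.Agent.SP (VV sg kap PD GI Ext Fin0 thg yb St SS)

variable {G : Type*} [AddCommGroup G] [DecidableEq G]

theorem wb_eq (a : ℕ) : wb a = wq a * 2⁻¹ := by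
  rw [← two_wb, mul_comm 2, mul_assoc, ENNReal.mul_inv_cancel (by norm_num) (by norm_num), mul_one]

theorem wp_le_wb (a : ℕ) : wp a ≤ wb a := by
  rw [← eight_wp]
  calc wp a = 1 * wp a := (one_mul _).symm
    _ ≤ 8 * wp a := mul_le_mul_left (by norm_num) _

theorem holder_scale {a : ℕ} (ha : 2 ≤ a) {E : G → ℝ≥0∞} (h : PD E) (h0 : Fin0 E)
    (P Q : Finset G) (hPQ : Disjoint P Q) (t : ℕ) :
    (FF (fun _ => tern (wp a)) P (FF (fun _ => tern (wb a)) Q E) 0).toReal ^ (t + 1) ≤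
      (FF (fun _ => tern (wq a)) (P ∪ Q) E 0).toReal ^ t *
        ((E 0).toReal * Real.exp ((P ∪ Q).card / 2 ^ (t + 2))) := by
  set w : ℝ≥0∞ := wb a * 2⁻¹ ^ t with hw
  have hQ : (wb a : ℝ≥0∞) ^ (t + 1) ≤ wq a ^ t * w := by
    rw [hw, pow_succ]
    calc wb a ^ t * wb a = (wq a * 2⁻¹) ^ t * wb a := by rw [← wb_eq]
      _ = wq a ^ t * (wb a * 2⁻¹ ^ t) := by rw [mul_pow]; ring
      _ ≤ _ := le_rfl
  have hP : (wp a : ℝ≥0∞) ^ (t + 1) ≤ wq a ^ t * w := by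
    refine le_trans ?_ hQ
    exact pow_le_pow_left' (wp_le_wb a) _
  have key := SP.CX.FF_holder hP P (SP.CX.FF_holder hQ Q (p := E) (p' := E) (p'' := E)
    (fun g => by rw [pow_succ])) 0
  rw [← FF_union _ hPQ, ← FF_union _ hPQ] at key
  have hE : ∀ g, E g ≤ E 0 := h.le_zero
  have m1 := SP.CX.FF_le (w := tern w) (P ∪ Q) hE 0
  have m2 := SP.CX.FF_le (w := tern (wq a)) (P ∪ Q) hE 0
  rw [SP.CX.tsum_tern] at m1 m2
  have hwr : 1 + 2 * w ≤ ENNReal.ofReal (Real.exp (1 / 2 ^ (t + 2))) := by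
    have e0 : 2 * w ≤ 4⁻¹ * 2⁻¹ ^ t := by
      rw [hw, ← mul_assoc, two_wb]
      exact mul_le_mul_left (wq_le ha) _
    have e1 : 1 + 4⁻¹ * 2⁻¹ ^ t = ENNReal.ofReal (1 / 2 ^ (t + 2) + 1) := by
      rw [ENNReal.ofReal_add (by positivity) (by norm_num), ENNReal.ofReal_one, add_comm]
      congr 1
      rw [one_div, ← inv_pow, ENNReal.ofReal_pow (by norm_num),
        ENNReal.ofReal_inv_of_pos (by norm_num), ENNReal.ofReal_ofNat, pow_add]
      have e : (4⁻¹ : ℝ≥0∞) = 2⁻¹ ^ 2 := by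
        rw [← ENNReal.inv_pow]; norm_num
      rw [e, mul_comm]
    calc 1 + 2 * w ≤ 1 + 4⁻¹ * 2⁻¹ ^ t := add_le_add le_rfl e0
      _ ≤ _ := by
        rw [e1]
        exact ENNReal.ofReal_le_ofReal (Real.add_one_le_exp _)
  have m1' : FF (fun _ => tern w) (P ∪ Q) E 0 ≤
      E 0 * ENNReal.ofReal (Real.exp ((P ∪ Q).card / 2 ^ (t + 2))) := by
    refine m1.trans ?_
    rw [mul_comm]
    gcongr
    calc (1 + 2 * w) ^ (P ∪ Q).card ≤
        (ENNReal.ofReal (Real.exp (1 / 2 ^ (t + 2)))) ^ (P ∪ Q).card := by gcongr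
      _ = _ := by
        rw [← ENNReal.ofReal_pow (Real.exp_pos _).le, ← Real.exp_nat_mul]
        congr 2
        ring
  have hwt : wq a ≠ ⊤ := ne_top_of_le_ne_top (by norm_num) (wq_half ha)
  have m2' : FF (fun _ => tern (wq a)) (P ∪ Q) E 0 ≠ ⊤ := by
    refine ne_top_of_le_ne_top ?_ m2
    refine ENNReal.mul_ne_top (ENNReal.pow_ne_top ?_) h0.2
    exact ENNReal.add_ne_top.2 ⟨by norm_num, ENNReal.mul_ne_top (by norm_num) hwt⟩
  have key2 := key.trans (mul_le_mul' le_rfl m1')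
  have key3 := ENNReal.toReal_mono (ENNReal.mul_ne_top (ENNReal.pow_ne_top m2')
    (ENNReal.mul_ne_top h0.2 ENNReal.ofReal_ne_top)) key2
  rw [ENNReal.toReal_pow, ENNReal.toReal_mul, ENNReal.toReal_pow, ENNReal.toReal_mul,
    ENNReal.toReal_ofReal (Real.exp_pos _).le] at key3
  exact key3

theorem thg_xl_le {k : ℕ} (hk : 1 ≤ k) (s : ℕ) :
    thg (xl k s) ≤ ENNReal.ofReal (Real.exp (15 * k + 2 * s)) := by
  have ht : thg (xl k s) ≠ ⊤ := SP.thg_ne_top (xl_lt k s)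
  have h0 : 0 < (thg (xl k s)).toReal :=
    ENNReal.toReal_pos (ne_of_gt (lt_of_lt_of_le one_pos (SP.one_le_thg _))) ht
  rw [← ENNReal.ofReal_toReal ht]
  exact ENNReal.ofReal_le_ofReal ((Real.log_le_iff_le_exp h0).1 (log_thg_xl hk s))

/-- Layers cost at most the sum of their costs. -/
theorem LL_dom {k : ℕ} (hk : 1 ≤ k) (W : ℕ → Finset G) (i : ℕ) (w : G → ℤ → ℝ≥0∞) (Y : Finset G)
    {B : G → ℝ≥0∞} {C : ℝ≥0∞} (hC : ∀ g, FF w Y B g ≤ C) (n : ℕ) : ∀ g,
    FF w Y (LL k W i B n) g ≤ ENNReal.ofReal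
      (Real.exp (∑ s ∈ range n, (15 * (k : ℝ) + 2 * s) * (W (i + 2 + s)).card)) * C := by
  induction n with
  | zero =>
    intro g
    simpa [LL] using hC g
  | succ n ih =>
    intro g
    have e : FF w Y (LL k W i B (n + 1)) =
        FF (fun _ => gw (xl k n)) (W (i + 2 + n)) (FF w Y (LL k W i B n)) := by
      show FF w Y (FF (fun _ => gw (xl k n)) (W (i + 2 + n)) (LL k W i B n)) = _
      rw [SP.CX.FF_comm]
    rw [e]
    refine (SP.CX.FF_le (W (i + 2 + n)) ih g).trans ?_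
    have h1 : (∑' j, gw (xl k n) j) ^ (W (i + 2 + n)).card ≤
        ENNReal.ofReal (Real.exp ((15 * (k : ℝ) + 2 * n) * (W (i + 2 + n)).card)) := by
      refine (pow_le_pow_left' (thg_xl_le hk n) _).trans (le_of_eq ?_)
      rw [← ENNReal.ofReal_pow (Real.exp_pos _).le, ← Real.exp_nat_mul, mul_comm]
    calc (∑' j, gw (xl k n) j) ^ (W (i + 2 + n)).card * (ENNReal.ofReal
          (Real.exp (∑ s ∈ range n, (15 * (k : ℝ) + 2 * s) * (W (i + 2 + s)).card)) * C) ≤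
        ENNReal.ofReal (Real.exp ((15 * (k : ℝ) + 2 * n) * (W (i + 2 + n)).card)) *
          (ENNReal.ofReal
          (Real.exp (∑ s ∈ range n, (15 * (k : ℝ) + 2 * s) * (W (i + 2 + s)).card)) * C) :=
          mul_le_mul_left h1 _
      _ = _ := by
        rw [← mul_assoc, ← ENNReal.ofReal_mul (Real.exp_pos _).le, ← Real.exp_add,
          Finset.sum_range_succ, add_comm (Finset.sum _ _)]

theorem press_dom {a k : ℕ} (ha : 2 ≤ a) (hk : 1 ≤ k) {V : Finset G} (hV : Press a k V)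
    (N : ℕ) (S : St G) (i : ℕ) {Y : Finset G} (hY : Y ⊆ V) :
    Real.log (FF (fun _ => tern (wq a)) Y (EE k N S i) 0).toReal ≤
      Y.card / 2 ^ (60 * k) + cst k N S i +
        (S.l i).length * Real.log (thg (yb k)).toReal := by
  have hpd : PD (FF (fun _ => tern (wq a)) Y (dlt : G → ℝ≥0∞)) :=
    SP.PD.FF_tern SP.PD.dlt (wq_half ha) Y
  have h1 : ∀ g, FF (fun _ => tern (wq a)) Y (dlt : G → ℝ≥0∞) g ≤
      ENNReal.ofReal (Real.exp (Y.card / 2 ^ (60 * k))) :=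
    fun g => (hpd.le_zero g).trans (hV Y hY)
  have h2 : ∀ g, FF (fun _ => tern (wq a)) Y (VV (yb k) (S.l i)) g ≤
      thg (yb k) ^ (S.l i).length * ENNReal.ofReal (Real.exp (Y.card / 2 ^ (60 * k))) := by
    intro g
    unfold VV
    rw [SP.CX.FF_foldr]
    exact SP.CX.foldr_le (y := yb k) h1 (S.l i) g
  have h3 := LL_dom hk S.W i (fun _ => tern (wq a)) Y h2 N 0
  have hy : thg (yb k) ≠ ⊤ := SP.thg_ne_top (SP.yb_lt hk)
  have hy0 : 0 < (thg (yb k)).toReal :=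
    ENNReal.toReal_pos (ne_of_gt (lt_of_lt_of_le one_pos (SP.one_le_thg _))) hy
  have hF : Fin0 (FF (fun _ => tern (wq a)) Y (EE k N S i)) :=
    SP.Fin0.FF_tern (EE_PD hk N S i) (EE_Fin0 hk N S i) (wq_half ha) Y
  have hF0 : 0 < (FF (fun _ => tern (wq a)) Y (EE k N S i) 0).toReal :=
    ENNReal.toReal_pos hF.1 hF.2
  have h4 := ENNReal.toReal_mono (ENNReal.mul_ne_top ENNReal.ofReal_ne_top
    (ENNReal.mul_ne_top (ENNReal.pow_ne_top hy) ENNReal.ofReal_ne_top)) h3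
  rw [ENNReal.toReal_mul, ENNReal.toReal_mul, ENNReal.toReal_pow,
    ENNReal.toReal_ofReal (Real.exp_pos _).le, ENNReal.toReal_ofReal (Real.exp_pos _).le] at h4
  have h5 := Real.log_le_log hF0 h4
  rw [Real.log_mul (Real.exp_pos _).ne' (mul_pos (pow_pos hy0 _) (Real.exp_pos _)).ne',
    Real.log_mul (pow_pos hy0 _).ne' (Real.exp_pos _).ne', Real.log_exp, Real.log_exp,
    Real.log_pow] at h5
  unfold cst
  linarith

end Pool.Agent.SPG
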